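import Pool.Agent.H712.NP.Sums

/-! One tilted product state whose positions are in a code. -/

open Finset

namespace Pool.Agent.H712.NP

open Pool.Agent.H390R2.LP Pool.Agent.H235R2.QLP Pool.Agent.H712.NI

variable {Ω X : Type} [Fintype Ω] [DecidableEq Ω] [Fintype X] [DecidableEq X]

/-- the tilting function of a set -/
noncomputable def af {Y : Type} [DecidableEq Y] (C : Finset Y) (t : ℝ) (x : Y) : ℝ :=
  if x ∈ C then √t else 0

lemma af_sq {Y : Type} [DecidableEq Y] (C : Finset Y) {t : ℝ} (ht : 0 ≤ t) (x : Y) :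
    af C t x ^ 2 = if x ∈ C then t else 0 := by
  unfold af
  split_ifs
  · exact Real.sq_sqrt ht
  · norm_num

/-- part of the spectral tail seen by a cluster -/
noncomputable def LL (s : Site Ω X) (n : ℕ) (ε : ℝ) (C : Finset (Fin n → X)) (w : ℝ) : ℝ :=
  ∑ j ∈ (typ s n ε)ᶜ, (psite s n).lam j *
    ∑ ω, (if (psite s n).pos ω ∈ C then w else 0) * (psite s n).u j ω ^ 2

/-- part of the heavy labels seen by a cluster -/
noncomputable def HL (s : Site Ω X) (n : ℕ) (ε : ℝ) (C : Finset (Fin n → X)) (w : ℝ) : ℝ :=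
  ∑ c ∈ univ.filter (fun c => ¬ (psite s n).g c ≤ Real.exp (-(n * s.h - n * ε))),
    (if (psite s n).lab c ∈ C then w else 0) * (psite s n).g c

/-- noisy words outside of `T` -/
noncomputable def YL (s : Site Ω X) (n : ℕ) (C T : Finset (Fin n → X)) (w : ℝ) : ℝ :=
  w * ∑ x ∈ C, ∑ y ∈ Tᶜ, ∏ k, m1 s (y k) (x k)

theorem cluster (s : Site Ω X) (φ : X → ℝ) {n : ℕ} {δ ε r w p : ℝ} (hδ : 0 ≤ δ)
    (hr0 : 0 < r) (hr1 : r ≤ 1) (hw : 0 ≤ w) (C T : Finset (Fin n → X))
    (hdist : ∀ x ∈ C, ∀ y ∈ C, x ≠ y → δ ≤ ∑ k, (φ (x k) - φ (y k)) ^ 2)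
    (hp : p = w * ∑ x ∈ C, ∏ k, s.P (x k)) (hp0 : 0 < p)
    (hgood : w * ∑ y ∈ T, ∏ k, s.P (y k) ≤ p * Real.exp (n * (s.h - s.S) - 4 * (n * ε))) :
    δ * (p * (1 - 3 * r - Real.exp (-(n * ε)) / (r * √r)) - 3 * LL s n ε C w -
      2 * YL s n C T w - HL s n ε C w) ≤
      p * en (psite s n) (af C (w / p)) (fun (i : Fin n) (x : Fin n → X) => φ (x i)) := by
  set N := psite s n with hN
  set t : ℝ := w / p with ht
  have ht0 : 0 ≤ t := div_nonneg hw hp0.le
  set a := af C t with ha
  have hw0 : 0 < w := by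
    rcases hw.eq_or_lt with h | h
    · rw [hp, ← h, zero_mul] at hp0
      exact absurd hp0 (lt_irrefl _)
    · exact h
  have htp : 0 < t := div_pos hw0 hp0
  have hpt : p * t = w := by rw [ht]; field_simp
  have hasq : ∀ x, a x ^ 2 = if x ∈ C then t else 0 := fun x => af_sq C ht0 x
  -- normalisation
  have hnorm : ∑ c, a (N.lab c) ^ 2 * N.g c = 1 := by
    rw [lab_sum N (fun x => a x ^ 2)]
    simp only [hasq, ite_mul, zero_mul]
    rw [← Finset.sum_filter]
    have e2 : univ.filter (fun x => x ∈ C) = C := by ext; simp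
    rw [e2, ← Finset.mul_sum]
    simp only [hN, psite_P]
    have h1 : p * (t * ∑ x ∈ C, ∏ k, s.P (x k)) = p := by
      rw [← mul_assoc, hpt, ← hp]
    exact mul_left_cancel₀ hp0.ne' (h1.trans (mul_one p).symm)
  set s' := tilt N a hnorm with hs'
  -- thresholds
  set μ : ℝ := r * t * Real.exp (-(n * s.h) + 3 * (n * ε)) with hμ
  have hμ0 : 0 < μ := by positivity
  set τ : ℝ := r * √μ with hτ
  have hτ0 : 0 < τ := by positivity
  have hτr : (τ / r) ^ 2 = μ := by
    rw [hτ, mul_div_cancel_left₀ _ hr0.ne', Real.sq_sqrt hμ0.le]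
  set γ0 : ℝ := Real.exp (-(n * s.h - n * ε)) with hγ0
  set γ : ℝ := t * γ0 with hγ
  have hγpos : 0 < γ := by positivity
  set Lv := LL s n ε C w with hLv
  set Yv := YL s n C T w with hYv
  set Gv := HL s n ε C w with hGv
  -- light eigenvalues
  have hA : ∑ m ∈ univ.filter (fun m => s'.lam m < (τ / r) ^ 2), s'.lam m ≤
      r + 3 * (Lv / p) + 2 * (Yv / p) := by
    rw [hτr]
    have h2 := tilt_light N a (typ s n ε) T hμ0.le
    refine le_trans h2 ?_
    have h3 : μ * ∑ j ∈ typ s n ε, um N T j ≤ r := by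
      have h4 := typ_um s n ε T
      have h5 : ∑ y ∈ T, ∏ k, s.P (y k) ≤
          t⁻¹ * Real.exp (n * (s.h - s.S) - 4 * (n * ε)) := by
        have h6 : t⁻¹ = p / w := by rw [ht, inv_div]
        rw [h6, div_mul_eq_mul_div, le_div_iff₀ hw0, mul_comm]
        exact hgood
      calc μ * ∑ j ∈ typ s n ε, um N T j ≤ μ * (Real.exp (n * s.S + n * ε) *
            (t⁻¹ * Real.exp (n * (s.h - s.S) - 4 * (n * ε)))) := by
            refine mul_le_mul_of_nonneg_left (h4.trans ?_) hμ0.le
            exact mul_le_mul_of_nonneg_left h5 (Real.exp_pos _).le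
        _ = r * (t * t⁻¹) * (Real.exp (-(n * s.h) + 3 * (n * ε)) * (Real.exp (n * s.S + n * ε) *
            Real.exp (n * (s.h - s.S) - 4 * (n * ε)))) := by rw [hμ]; ring
        _ = r := by
            rw [mul_inv_cancel₀ htp.ne', ← Real.exp_add, ← Real.exp_add]
            have : -(n * s.h) + 3 * (n * ε) + (n * s.S + n * ε +
                (n * (s.h - s.S) - 4 * (n * ε))) = 0 := by ring
            rw [this, Real.exp_zero]
            ring
    have h7 : ∑ j ∈ (typ s n ε)ᶜ, N.lam j * ∑ ω, a (N.pos ω) ^ 2 * N.u j ω ^ 2 = Lv / p := by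
      rw [eq_div_iff hp0.ne', hLv, LL, Finset.sum_mul]
      refine Finset.sum_congr rfl fun j _ => ?_
      rw [mul_assoc, Finset.sum_mul]
      congr 1
      refine Finset.sum_congr rfl fun ω _ => ?_
      rw [hasq]
      split_ifs
      · rw [← hpt]; ring
      · ring
    have h8 : ∑ x ∈ Tᶜ, Pp N a x = Yv / p := by
      rw [eq_div_iff hp0.ne', hYv, YL]
      have e1 : ∀ x, Pp N a x = ∑ y ∈ C, t * ∏ k, m1 s (x k) (y k) := by
        intro x
        rw [hN, psite_Pp']
        simp only [hasq, ite_mul, zero_mul]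
        rw [← Finset.sum_filter]
        have e2 : univ.filter (fun x => x ∈ C) = C := by ext; simp
        rw [e2]
      simp only [e1]
      rw [Finset.sum_comm]
      simp only [← Finset.mul_sum]
      rw [← hpt]
      ring
    rw [h7, h8]
    linarith
  have hG : ∑ c ∈ univ.filter (fun c => ¬ s'.g c ≤ γ), s'.g c ≤ Gv / p := by
    rw [le_div_iff₀ hp0, Finset.sum_mul, Finset.sum_filter, hGv, HL, Finset.sum_filter]
    refine Finset.sum_le_sum fun c _ => ?_
    have hg : s'.g c = (if N.lab c ∈ C then t else 0) * N.g c := by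
      show a (N.lab c) ^ 2 * N.g c = _
      rw [hasq]
    rw [hg]
    show (if ¬ (if N.lab c ∈ C then t else 0) * N.g c ≤ γ then
      (if N.lab c ∈ C then t else 0) * N.g c * p else 0) ≤
      if ¬ N.g c ≤ γ0 then (if N.lab c ∈ C then w else 0) * N.g c else 0
    by_cases hc : N.lab c ∈ C
    · simp only [if_pos hc]
      by_cases h : N.g c ≤ γ0
      · rw [if_neg (not_not.mpr (show t * N.g c ≤ γ from mul_le_mul_of_nonneg_left h ht0)),
          if_neg (not_not.mpr h)]
      · rw [if_pos h]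
        have : t * N.g c * p = w * N.g c := by rw [← hpt]; ring
        rw [← this]
        split_ifs
        · exact mul_nonneg (mul_nonneg ht0
            (Pool.Agent.H703R2.LP.site_g_nonneg N c)) hp0.le
        · exact le_rfl
    · simp only [if_neg hc, zero_mul]
      split_ifs <;> simp
  have key := one_site s' (fun (i : Fin n) (x : Fin n → X) => φ (x i)) hτ0 hγpos.le
    hr0 hr1 C hδ hdist (by
      intro x hx
      rw [hs', tilt_P, hasq, if_neg hx, zero_mul]) hA hG
  rw [hs', tilt_E] at key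
  have hdiag : √γ / τ = Real.exp (-(n * ε)) / (r * √r) := by
    have h2 : γ = Real.exp (-(n * ε)) ^ 2 * (μ / r) := by
      have h3 : Real.exp (-(n * s.h - n * ε)) = Real.exp (-(n * ε)) ^ 2 *
          Real.exp (-(n * s.h) + 3 * (n * ε)) := by
        rw [← Real.exp_nat_mul, ← Real.exp_add]
        congr 1
        push_cast
        ring
      rw [hγ, hγ0, h3, hμ]
      field_simp
    rw [h2, Real.sqrt_mul (sq_nonneg _), Real.sqrt_sq (Real.exp_pos _).le,
      Real.sqrt_div hμ0.le, hτ]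
    have h4 : √μ ≠ 0 := (Real.sqrt_pos.mpr hμ0).ne'
    have h5 : √r ≠ 0 := (Real.sqrt_pos.mpr hr0).ne'
    field_simp
  rw [hdiag] at key
  have h9 := mul_le_mul_of_nonneg_left key hp0.le
  refine le_trans (le_of_eq ?_) h9
  field_simp
  ring

end Pool.Agent.H712.NP
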