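import Pool.Graph.R_seed8.Helper28.Haar2

/-! Concentration of Lipschitz functions on the sphere, in mean. -/

set_option linter.unusedSectionVars false

open MeasureTheory Metric

namespace Pool.Agent.H712.NP

open Pool.Agent.Helper28

attribute [local instance] compactSpace_UG secondCountable_UG measUG borelUG

section
variable {E : Type*} [NormedAddCommGroup E] [InnerProductSpace ℝ E] [CompleteSpace E]
  [FiniteDimensional ℝ E] [MeasurableSpace E] [BorelSpace E]

lemma dual_sq {ι : Type*} [Fintype ι] (T : E →L[ℝ] ℝ) (d : OrthonormalBasis ι ℝ E) :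
    ∑ i, (T (d i)) ^ 2 = ‖T‖ ^ 2 := by
  set w := (InnerProductSpace.toDual ℝ E).symm T with hw
  have h1 : ∀ v, T v = inner ℝ w v := by
    intro v
    rw [hw, InnerProductSpace.toDual_symm_apply]
  have h2 : ‖T‖ = ‖w‖ := by rw [hw, LinearIsometryEquiv.norm_map]
  rw [h2, ← d.sum_sq_norm_inner_right w]
  refine Finset.sum_congr rfl fun i _ => ?_
  rw [h1, Real.norm_eq_abs, sq_abs, real_inner_comm]

/-- the vector valued function attached to a scalar one -/
noncomputable def vv (G : E → ℝ) (e : E) (x : E) : E := G x • e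

lemma vv_smooth {G : E → ℝ} (hG : ContDiff ℝ 1 G) (e : E) : ContDiff ℝ 1 (vv G e) :=
  hG.smul contDiff_const

lemma vv_fderiv {G : E → ℝ} (hG : ContDiff ℝ 1 G) (e x v : E) :
    fderiv ℝ (vv G e) x v = (fderiv ℝ G x v) • e := by
  have h1 : HasFDerivAt (vv G e) ((fderiv ℝ G x).smulRight e) x :=
    ((hG.differentiable (by norm_num) x).hasFDerivAt).smul_const e
  rw [h1.fderiv]
  rfl

lemma vv_dist (G : E → ℝ) {e : E} (he : ‖e‖ = 1) (x y : E) :
    ‖vv G e x - vv G e y‖ = |G x - G y| := by
  unfold vv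
  rw [← sub_smul, norm_smul, he, mul_one, Real.norm_eq_abs]

lemma fau_le {n : ℕ} (hn : Module.finrank ℝ E = n + 2) {G : E → ℝ} (hG : ContDiff ℝ 1 G)
    {L : ℝ} (hL : ∀ x, ‖fderiv ℝ G x‖ ≤ L) {e : E} (he : ‖e‖ = 1)
    (b : OrthonormalBasis (Fin (n + 2)) ℝ E) :
    Fau (vv G e) (b 0) (b 1) ≤ L / √(n + 1) *
      (Measure.haar : Measure (unitary (E →L[ℝ] E))).real Set.univ := by
  have h5 := H5 hn b (vv G e) (vv_smooth hG e) b
  have hs : 0 < √((n : ℝ) + 1) := Real.sqrt_pos.2 (by positivity)
  have hss : √((n : ℝ) + 1) * √((n : ℝ) + 1) = n + 1 := Real.mul_self_sqrt (by positivity)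
  have h1 : ∫ Q, hsz b (vv G e) (act Q (b 0)) ∂(Measure.haar : Measure (unitary (E →L[ℝ] E))) ≤
      L * (Measure.haar : Measure (unitary (E →L[ℝ] E))).real Set.univ := by
    have h2 : L * (Measure.haar : Measure (unitary (E →L[ℝ] E))).real Set.univ =
        ∫ _, L ∂(Measure.haar : Measure (unitary (E →L[ℝ] E))) := by
      rw [integral_const, smul_eq_mul, mul_comm]
    rw [h2]
    refine integral_mono ?_ (integrable_const _) fun Q => ?_
    · have : Continuous (fun Q : unitary (E →L[ℝ] E) => hsz b (vv G e) (act Q (b 0))) :=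
        (hsz_cont b _ (vv_smooth hG e)).comp (act_cont (b 0))
      exact this.integrable_of_hasCompactSupport (HasCompactSupport.of_compactSpace _)
    · show hsz b (vv G e) (act Q (b 0)) ≤ L
      have hfr := hsz_frame b (vv G e) (act Q (b 0))
        (b.map (Unitary.linearIsometryEquiv Q⁻¹)) rfl
      rw [hfr]
      refine Real.sqrt_le_iff.mpr ⟨(norm_nonneg _).trans (hL 0), ?_⟩
      have h3 := dual_sq (fderiv ℝ G (act Q (b 0))) (b.map (Unitary.linearIsometryEquiv Q⁻¹))
      rw [Fin.sum_univ_succ] at h3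
      have h4 : ∑ i : Fin (n + 1), ‖fderiv ℝ (vv G e) (act Q (b 0))
          ((b.map (Unitary.linearIsometryEquiv Q⁻¹)) i.succ)‖ ^ 2 =
          ∑ i : Fin (n + 1), (fderiv ℝ G (act Q (b 0))
          ((b.map (Unitary.linearIsometryEquiv Q⁻¹)) i.succ)) ^ 2 := by
        refine Finset.sum_congr rfl fun i _ => ?_
        rw [vv_fderiv hG, norm_smul, he, mul_one, Real.norm_eq_abs, sq_abs]
      rw [h4]
      calc _ ≤ ‖fderiv ℝ G (act Q (b 0))‖ ^ 2 := by
            rw [← h3]; linarith [sq_nonneg ((fderiv ℝ G (act Q (b 0)))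
              ((b.map (Unitary.linearIsometryEquiv Q⁻¹)) 0))]
        _ ≤ L ^ 2 := pow_le_pow_left₀ (norm_nonneg _) (hL _) 2
  have h6 : √((n : ℝ) + 1) * (Fau (vv G e) (b 0) (b 1) * √((n : ℝ) + 1)) ≤
      √((n : ℝ) + 1) * (L * (Measure.haar : Measure (unitary (E →L[ℝ] E))).real Set.univ) := by
    calc _ = (√((n : ℝ) + 1) * √((n : ℝ) + 1)) * Fau (vv G e) (b 0) (b 1) := by ring
      _ = ((n : ℝ) + 1) * Fau (vv G e) (b 0) (b 1) := by rw [hss]
      _ ≤ _ := h5
      _ ≤ _ := mul_le_mul_of_nonneg_left h1 hs.le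
  have h7 := le_of_mul_le_mul_left h6 hs
  rw [div_mul_eq_mul_div, le_div_iff₀ hs]
  exact h7

lemma int_cont {f : unitary (E →L[ℝ] E) → ℝ} (hf : Continuous f) :
    Integrable f (Measure.haar : Measure (unitary (E →L[ℝ] E))) :=
  hf.integrable_of_hasCompactSupport (HasCompactSupport.of_compactSpace _)

lemma pair_le {n : ℕ} (hn : Module.finrank ℝ E = n + 2) {G : E → ℝ} (hG : ContDiff ℝ 1 G)
    {L : ℝ} (hL : ∀ x, ‖fderiv ℝ G x‖ ≤ L) {a y : E} (ha : ‖a‖ = 1) (hy : ‖y‖ = 1) :
    ∫ Q, |G (act Q y) - G (act Q a)| ∂(Measure.haar : Measure (unitary (E →L[ℝ] E))) ≤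
      Real.pi * (L / √(n + 1)) *
        (Measure.haar : Measure (unitary (E →L[ℝ] E))).real Set.univ := by
  obtain ⟨u, hu, hau, hyy⟩ := decomp_circle hn a y ha hy
  have h3 := H3 hn (vv G a) (vv_smooth hG a) a u ha hu hau _ (Real.arccos_nonneg (inner ℝ a y))
  rw [← hyy] at h3
  simp only [vv_dist G ha] at h3
  obtain ⟨b, hb0, hb1⟩ := exists_onb2 hn a u ha hu hau
  have h4 := fau_le hn hG hL ha b
  rw [hb0, hb1] at h4
  have hF : 0 ≤ Fau (vv G a) a u := integral_nonneg fun _ => norm_nonneg _
  calc _ ≤ Real.arccos (inner ℝ a y) * Fau (vv G a) a u := h3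
    _ ≤ Real.pi * Fau (vv G a) a u :=
        mul_le_mul_of_nonneg_right (Real.arccos_le_pi _) hF
    _ ≤ Real.pi * (L / √(n + 1) *
        (Measure.haar : Measure (unitary (E →L[ℝ] E))).real Set.univ) :=
        mul_le_mul_of_nonneg_left h4 Real.pi_pos.le
    _ = _ := by ring

/-- mean over the unit sphere -/
noncomputable def sm (G : E → ℝ) : ℝ :=
  ⨍ y : sphere (0 : E) 1, G y ∂(volume : Measure E).toSphere

lemma sm_eq (G : E → ℝ) : sm G = ((volume : Measure E).toSphere.real Set.univ)⁻¹ *
    ∫ y : sphere (0 : E) 1, G y ∂(volume : Measure E).toSphere := by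
  unfold sm
  rw [average_eq, smul_eq_mul]

lemma sg_pos {n : ℕ} (hn : Module.finrank ℝ E = n + 1) :
    0 < (volume : Measure E).toSphere.real Set.univ := by
  have : Nontrivial E := Module.nontrivial_of_finrank_pos (R := ℝ) (by omega)
  rw [Measure.toSphere_real_apply_univ]
  have h1 : 0 < (volume : Measure E).real (ball 0 1) := by
    rw [Measure.real, ENNReal.toReal_pos_iff]
    exact ⟨measure_ball_pos _ _ one_pos, measure_ball_lt_top⟩
  have h2 : (0 : ℝ) < Module.finrank ℝ E := by rw [hn]; positivity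
  positivity

lemma hm_pos : 0 < (Measure.haar : Measure (unitary (E →L[ℝ] E))).real Set.univ := by
  rw [Measure.real, ENNReal.toReal_pos_iff]
  exact ⟨isOpen_univ.measure_pos _ Set.univ_nonempty, measure_lt_top _ _⟩

lemma sm_dev (hn : 0 < (volume : Measure E).toSphere.real Set.univ) {G : E → ℝ}
    (hG : Continuous G) (a : E) (Q : unitary (E →L[ℝ] E)) :
    |G (act Q a) - sm G| ≤ ((volume : Measure E).toSphere.real Set.univ)⁻¹ *
      ∫ y : sphere (0 : E) 1, |G (act Q (y : E)) - G (act Q a)|
        ∂(volume : Measure E).toSphere := by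
  have hVint : Integrable (fun y : sphere (0 : E) 1 => G y) (volume : Measure E).toSphere := by
    have : Continuous (fun y : sphere (0 : E) 1 => G y) := hG.comp continuous_subtype_val
    exact this.integrable_of_hasCompactSupport (HasCompactSupport.of_compactSpace _)
  have e1 : ∫ y : sphere (0 : E) 1, |G (act Q (y : E)) - G (act Q a)|
      ∂(volume : Measure E).toSphere
      = ∫ y : sphere (0 : E) 1, |G y - G (act Q a)| ∂(volume : Measure E).toSphere :=
    integral_sphMap (Unitary.linearIsometryEquiv Q⁻¹) (fun z => |G z - G (act Q a)|)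
  rw [e1]
  have e2 : |∫ y : sphere (0 : E) 1, (G y - G (act Q a)) ∂(volume : Measure E).toSphere| ≤
      ∫ y : sphere (0 : E) 1, |G y - G (act Q a)| ∂(volume : Measure E).toSphere :=
    abs_integral_le_integral_abs
  rw [integral_sub hVint (integrable_const _), integral_const, smul_eq_mul] at e2
  have e3 : G (act Q a) - sm G = -(((volume : Measure E).toSphere.real Set.univ)⁻¹ *
      ((∫ y : sphere (0 : E) 1, G y ∂(volume : Measure E).toSphere) -
      (volume : Measure E).toSphere.real Set.univ * G (act Q a))) := by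
    rw [sm_eq, mul_sub, ← mul_assoc, inv_mul_cancel₀ hn.ne']
    ring
  rw [e3, abs_neg, abs_mul, abs_of_pos (inv_pos.mpr hn)]
  exact mul_le_mul_of_nonneg_left e2 (inv_pos.mpr hn).le

lemma dev_cont {G : E → ℝ} (hG : Continuous G) (a : E) : Continuous (Function.uncurry
      (fun (Q : unitary (E →L[ℝ] E)) (y : sphere (0 : E) 1) =>
        |G (act Q (y : E)) - G (act Q a)|)) := by
  have e1 : Continuous (fun p : unitary (E →L[ℝ] E) × sphere (0 : E) 1 => (p.1, (p.2 : E))) :=
    continuous_fst.prodMk (continuous_subtype_val.comp continuous_snd)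
  have e2 := act_continuous.comp e1
  have e3 : Continuous (fun p : unitary (E →L[ℝ] E) × sphere (0 : E) 1 => (p.1, a)) := by
    fun_prop
  have e4 := act_continuous.comp e3
  exact ((hG.comp e2).sub (hG.comp e4)).abs

lemma dev_swap {G : E → ℝ} (hG : Continuous G) (a : E) :
    ∫ Q, (∫ y : sphere (0 : E) 1, |G (act Q (y : E)) - G (act Q a)|
        ∂(volume : Measure E).toSphere) ∂(Measure.haar : Measure (unitary (E →L[ℝ] E))) =
    ∫ y : sphere (0 : E) 1, (∫ Q, |G (act Q (y : E)) - G (act Q a)|
        ∂(Measure.haar : Measure (unitary (E →L[ℝ] E)))) ∂(volume : Measure E).toSphere :=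
  integral_integral_swap_of_hasCompactSupport
    (f := fun (Q : unitary (E →L[ℝ] E)) (y : sphere (0 : E) 1) =>
      |G (act Q (y : E)) - G (act Q a)|)
    (μ := (Measure.haar : Measure (unitary (E →L[ℝ] E))))
    (ν := (volume : Measure E).toSphere) (dev_cont hG a) (HasCompactSupport.of_compactSpace _)

lemma dev_cont' {G : E → ℝ} (hG : Continuous G) (a : E) : Continuous (Function.uncurry
      (fun (y : sphere (0 : E) 1) (Q : unitary (E →L[ℝ] E)) =>
        |G (act Q (y : E)) - G (act Q a)|)) := by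
  have e1 : Continuous (fun p : sphere (0 : E) 1 × unitary (E →L[ℝ] E) => (p.2, (p.1 : E))) :=
    continuous_snd.prodMk (continuous_subtype_val.comp continuous_fst)
  have e2 := act_continuous.comp e1
  have e3 : Continuous (fun p : sphere (0 : E) 1 × unitary (E →L[ℝ] E) => (p.2, a)) := by
    fun_prop
  have e4 := act_continuous.comp e3
  exact ((hG.comp e2).sub (hG.comp e4)).abs

lemma cs_a {G : E → ℝ} (hG : Continuous G) (a : E) : Continuous (fun Q : unitary (E →L[ℝ] E) =>
    ∫ y : sphere (0 : E) 1, |G (act Q (y : E)) - G (act Q a)| ∂(volume : Measure E).toSphere) :=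
  cont_param (volume : Measure E).toSphere
    (fun (Q : unitary (E →L[ℝ] E)) (y : sphere (0 : E) 1) =>
      |G (act Q (y : E)) - G (act Q a)|) (dev_cont hG a)

lemma cs_b {G : E → ℝ} (hG : Continuous G) (a : E) : Continuous (fun y : sphere (0 : E) 1 =>
    ∫ Q, |G (act Q (y : E)) - G (act Q a)|
      ∂(Measure.haar : Measure (unitary (E →L[ℝ] E)))) :=
  cont_param (Measure.haar : Measure (unitary (E →L[ℝ] E)))
    (fun (y : sphere (0 : E) 1) (Q : unitary (E →L[ℝ] E)) =>
      |G (act Q (y : E)) - G (act Q a)|) (dev_cont' hG a)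

theorem conc_smooth {n : ℕ} (hn : Module.finrank ℝ E = n + 2) {G : E → ℝ}
    (hG : ContDiff ℝ 1 G) {L : ℝ} (hL : ∀ x, ‖fderiv ℝ G x‖ ≤ L) {a : E} (ha : ‖a‖ = 1) :
    ∫ Q, |G (act Q a) - sm G| ∂(Measure.haar : Measure (unitary (E →L[ℝ] E))) ≤
      Real.pi * (L / √(n + 1)) *
        (Measure.haar : Measure (unitary (E →L[ℝ] E))).real Set.univ := by
  have hvpos : 0 < (volume : Measure E).toSphere.real Set.univ := sg_pos (n := n + 1) hn
  have s1 : ∫ Q, |G (act Q a) - sm G| ∂(Measure.haar : Measure (unitary (E →L[ℝ] E))) ≤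
      ∫ Q, ((volume : Measure E).toSphere.real Set.univ)⁻¹ *
        (∫ y : sphere (0 : E) 1, |G (act Q (y : E)) - G (act Q a)|
          ∂(volume : Measure E).toSphere) ∂(Measure.haar : Measure (unitary (E →L[ℝ] E))) := by
    refine integral_mono ?_ (int_cont (continuous_const.mul (cs_a hG.continuous a)))
      fun Q => sm_dev hvpos hG.continuous a Q
    exact int_cont ((hG.continuous.comp (act_cont a)).sub continuous_const).abs
  rw [integral_const_mul, dev_swap hG.continuous] at s1
  have s2 : ∫ y : sphere (0 : E) 1, (∫ Q, |G (act Q (y : E)) - G (act Q a)|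
        ∂(Measure.haar : Measure (unitary (E →L[ℝ] E)))) ∂(volume : Measure E).toSphere ≤
      ∫ _y : sphere (0 : E) 1, (Real.pi * (L / √(n + 1)) *
        (Measure.haar : Measure (unitary (E →L[ℝ] E))).real Set.univ)
          ∂(volume : Measure E).toSphere := by
    refine integral_mono ?_ (integrable_const _) fun y => pair_le hn hG hL ha (by simp)
    exact (cs_b hG.continuous a).integrable_of_hasCompactSupport
      (HasCompactSupport.of_compactSpace _)
  rw [integral_const, smul_eq_mul] at s2
  have s3 := mul_le_mul_of_nonneg_left s2 (inv_pos.mpr hvpos).le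
  rw [← mul_assoc, inv_mul_cancel₀ hvpos.ne', one_mul] at s3
  exact s1.trans s3

open scoped Convolution in
/-- smoothing of a Lipschitz function -/
theorem lip_approx {G : E → ℝ} {L : ℝ} (hL0 : 0 ≤ L) (hG : ∀ x y, |G x - G y| ≤ L * ‖x - y‖)
    {τ : ℝ} (hτ : 0 < τ) :
    ∃ G' : E → ℝ, ContDiff ℝ 1 G' ∧ (∀ x, ‖fderiv ℝ G' x‖ ≤ L) ∧ ∀ x, |G' x - G x| ≤ L * τ := by
  have hcont : Continuous G := by
    have : LipschitzWith ⟨L, hL0⟩ G := LipschitzWith.of_dist_le_mul fun x y => by
      rw [Real.dist_eq, dist_eq_norm]; exact hG x y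
    exact this.continuous
  set φ : ContDiffBump (0 : E) := ⟨τ / 2, τ, half_pos hτ, half_lt_self hτ⟩ with hφ
  have hloc : LocallyIntegrable G (volume : Measure E) := hcont.locallyIntegrable
  set G' : E → ℝ := φ.normed volume ⋆[ContinuousLinearMap.lsmul ℝ ℝ, volume] G with hG'
  have hsm : ContDiff ℝ 1 G' :=
    φ.hasCompactSupport_normed.contDiff_convolution_left _ φ.contDiff_normed hloc
  have hint : ∀ x, Integrable (fun t => φ.normed volume t * G (x - t)) (volume : Measure E) := by
    intro x
    have hc : Continuous (fun t => φ.normed (volume : Measure E) t * G (x - t)) :=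
      φ.continuous_normed.mul (hcont.comp (continuous_const.sub continuous_id))
    exact hc.integrable_of_hasCompactSupport φ.hasCompactSupport_normed.mul_right
  have hval : ∀ x, G' x = ∫ t, φ.normed (volume : Measure E) t * G (x - t) := fun x => rfl
  have hlip : ∀ x y, |G' x - G' y| ≤ L * ‖x - y‖ := by
    intro x y
    rw [hval, hval, ← integral_sub (hint x) (hint y)]
    refine abs_integral_le_integral_abs.trans ?_
    have h1 : ∫ t, (φ.normed (volume : Measure E) t) * (L * ‖x - y‖) = L * ‖x - y‖ := by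
      rw [integral_mul_const, φ.integral_normed, one_mul]
    rw [← h1]
    refine integral_mono ((hint x).sub (hint y)).abs (φ.integrable_normed.mul_const _) fun t => ?_
    show |φ.normed volume t * G (x - t) - φ.normed volume t * G (y - t)| ≤ _
    rw [← mul_sub, abs_mul, abs_of_nonneg (φ.nonneg_normed t)]
    refine mul_le_mul_of_nonneg_left ?_ (φ.nonneg_normed t)
    have := hG (x - t) (y - t)
    rwa [sub_sub_sub_cancel_right] at this
  refine ⟨G', hsm, fun x => ?_, fun x => ?_⟩
  · have : LipschitzWith ⟨L, hL0⟩ G' := LipschitzWith.of_dist_le_mul fun x y => by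
      rw [Real.dist_eq, dist_eq_norm]; exact hlip x y
    exact norm_fderiv_le_of_lipschitz ℝ this
  · have := φ.dist_normed_convolution_le (μ := (volume : Measure E)) (x₀ := x)
      (g := G) (ε := L * τ) hcont.aestronglyMeasurable (fun y hy => by
        rw [Real.dist_eq]
        refine (hG y x).trans (mul_le_mul_of_nonneg_left ?_ hL0)
        rw [mem_ball, dist_eq_norm] at hy
        exact hy.le)
    rw [Real.dist_eq] at this
    exact this

/-- **Concentration in mean.** -/
theorem conc_lip {n : ℕ} (hn : Module.finrank ℝ E = n + 2) {G : E → ℝ} {L : ℝ} (hL0 : 0 ≤ L)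
    (hG : ∀ x y, |G x - G y| ≤ L * ‖x - y‖) {a : E} (ha : ‖a‖ = 1) :
    ∫ Q, |G (act Q a) - sm G| ∂(Measure.haar : Measure (unitary (E →L[ℝ] E))) ≤
      Real.pi * (L / √(n + 1)) *
        (Measure.haar : Measure (unitary (E →L[ℝ] E))).real Set.univ := by
  have hcont : Continuous G := by
    have : LipschitzWith ⟨L, hL0⟩ G := LipschitzWith.of_dist_le_mul fun x y => by
      rw [Real.dist_eq, dist_eq_norm]; exact hG x y
    exact this.continuous
  have hvpos : 0 < (volume : Measure E).toSphere.real Set.univ := sg_pos (n := n + 1) hn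
  refine le_of_forall_pos_le_add fun ε hε => ?_
  set m := (Measure.haar : Measure (unitary (E →L[ℝ] E))).real Set.univ with hm
  have hmp : 0 < m := hm_pos
  obtain ⟨G', h1, h2, h3⟩ := lip_approx (τ := ε / (2 * (L + 1) * m)) hL0 hG (by positivity)
  have hLt : L * (ε / (2 * (L + 1) * m)) ≤ ε / (2 * m) := by
    rw [mul_div_assoc', div_le_div_iff₀ (by positivity) (by positivity)]
    nlinarith
  have h4 := conc_smooth hn h1 h2 ha
  rw [← hm] at h4
  have hsm : |sm G' - sm G| ≤ ε / (2 * m) := by
    rw [sm_eq, sm_eq, ← mul_sub]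
    have i1 : Integrable (fun y : sphere (0 : E) 1 => G' y) (volume : Measure E).toSphere :=
      (h1.continuous.comp continuous_subtype_val).integrable_of_hasCompactSupport
        (HasCompactSupport.of_compactSpace _)
    have i2 : Integrable (fun y : sphere (0 : E) 1 => G y) (volume : Measure E).toSphere :=
      (hcont.comp continuous_subtype_val).integrable_of_hasCompactSupport
        (HasCompactSupport.of_compactSpace _)
    rw [← integral_sub i1 i2, abs_mul, abs_of_pos (inv_pos.mpr hvpos)]
    have e1 : |∫ y : sphere (0 : E) 1, (G' y - G y) ∂(volume : Measure E).toSphere| ≤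
        ∫ _y : sphere (0 : E) 1, (ε / (2 * m)) ∂(volume : Measure E).toSphere := by
      refine abs_integral_le_integral_abs.trans ?_
      exact integral_mono (i1.sub i2).abs (integrable_const _) fun y => (h3 y).trans hLt
    rw [integral_const, smul_eq_mul] at e1
    have e2 := mul_le_mul_of_nonneg_left e1 (inv_pos.mpr hvpos).le
    rw [← mul_assoc, inv_mul_cancel₀ hvpos.ne', one_mul] at e2
    exact e2
  have hpt : ∀ Q : unitary (E →L[ℝ] E), |G (act Q a) - sm G| ≤
      |G' (act Q a) - sm G'| + ε / m := by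
    intro Q
    have a1 := (h3 (act Q a)).trans hLt
    have a2 : |G (act Q a) - sm G| ≤ |G' (act Q a) - sm G'| + |G' (act Q a) - G (act Q a)| +
        |sm G' - sm G| := by
      have : G (act Q a) - sm G = (G' (act Q a) - sm G') - (G' (act Q a) - G (act Q a)) +
        (sm G' - sm G) := by ring
      rw [this]
      exact (abs_add_le _ _).trans (add_le_add_left (abs_sub _ _) _)
    have a3 : ε / (2 * m) + ε / (2 * m) = ε / m := by field_simp; ring
    linarith
  have i3 : Integrable (fun Q : unitary (E →L[ℝ] E) => |G' (act Q a) - sm G'|)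
      (Measure.haar : Measure (unitary (E →L[ℝ] E))) :=
    int_cont ((h1.continuous.comp (act_cont a)).sub continuous_const).abs
  calc _ ≤ ∫ Q, (|G' (act Q a) - sm G'| + ε / m)
        ∂(Measure.haar : Measure (unitary (E →L[ℝ] E))) := by
        refine integral_mono ?_ (i3.add (integrable_const _)) hpt
        exact int_cont ((hcont.comp (act_cont a)).sub continuous_const).abs
    _ = ∫ Q, |G' (act Q a) - sm G'| ∂(Measure.haar : Measure (unitary (E →L[ℝ] E))) + ε := by
        rw [integral_add i3 (integrable_const _), integral_const, smul_eq_mul, ← hm]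
        field_simp
    _ ≤ _ := by linarith

end

end Pool.Agent.H712.NP
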