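import Pool.Agent.H712.NP.Cluster

/-! The main inequality for a product state and a weighted family of codes with sets of noisy
words. -/

open Finset Filter

namespace Pool.Agent.H712.NP

open Pool.Agent.H390R2.LP Pool.Agent.H235R2.QLP Pool.Agent.H712.NI

variable {Ω X : Type} [Fintype Ω] [DecidableEq Ω] [Fintype X] [DecidableEq X]

lemma u_norm {Y : Type} (s : Site Ω Y) (j : Ω) : ∑ ω, s.u j ω ^ 2 = 1 := by
  have h2 := s.u_orth j j
  rw [if_pos rfl] at h2
  rw [← h2]
  exact Finset.sum_congr rfl fun _ _ => sq _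

lemma sum_LL (s : Site Ω X) {n : ℕ} {ε : ℝ} {V : Type} [Fintype V]
    (S : V → Finset (Fin n → X)) (w : V → ℝ)
    (hcov : ∀ x, ∑ v, (if x ∈ S v then w v else 0) ≤ 1) :
    ∑ v, LL s n ε (S v) (w v) ≤ ∑ j ∈ (typ s n ε)ᶜ, (psite s n).lam j := by
  unfold LL
  rw [Finset.sum_comm]
  refine Finset.sum_le_sum fun j _ => ?_
  rw [← Finset.mul_sum]
  have h1 : ∑ v, ∑ ω, (if (psite s n).pos ω ∈ S v then w v else 0) * (psite s n).u j ω ^ 2 ≤
      1 := by
    rw [Finset.sum_comm, ← u_norm (psite s n) j]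
    refine Finset.sum_le_sum fun ω _ => ?_
    rw [← Finset.sum_mul]
    calc _ ≤ 1 * (psite s n).u j ω ^ 2 :=
          mul_le_mul_of_nonneg_right (hcov _) (sq_nonneg _)
      _ = _ := one_mul _
  calc _ ≤ (psite s n).lam j * 1 := mul_le_mul_of_nonneg_left h1 ((psite s n).lam_nonneg j)
    _ = _ := mul_one _

lemma sum_HL (s : Site Ω X) {n : ℕ} {ε : ℝ} {V : Type} [Fintype V]
    (S : V → Finset (Fin n → X)) (w : V → ℝ)
    (hcov : ∀ x, ∑ v, (if x ∈ S v then w v else 0) ≤ 1) :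
    ∑ v, HL s n ε (S v) (w v) ≤
      ∑ c ∈ univ.filter (fun c => ¬ (psite s n).g c ≤ Real.exp (-(n * s.h - n * ε))),
        (psite s n).g c := by
  unfold HL
  rw [Finset.sum_comm]
  refine Finset.sum_le_sum fun c _ => ?_
  rw [← Finset.sum_mul]
  calc _ ≤ 1 * (psite s n).g c :=
        mul_le_mul_of_nonneg_right (hcov _) (Pool.Agent.H703R2.LP.site_g_nonneg _ c)
    _ = _ := one_mul _

lemma m1_nonneg (s : Site Ω X) (x y : X) : 0 ≤ m1 s x y :=
  Finset.sum_nonneg fun _ _ => Finset.sum_nonneg fun _ _ => by split_ifs <;> positivity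

lemma YL_nonneg (s : Site Ω X) {n : ℕ} (C T : Finset (Fin n → X)) {w : ℝ} (hw : 0 ≤ w) :
    0 ≤ YL s n C T w :=
  mul_nonneg hw (Finset.sum_nonneg fun _ _ => Finset.sum_nonneg fun _ _ =>
    Finset.prod_nonneg fun _ _ => m1_nonneg s _ _)

lemma LL_nonneg (s : Site Ω X) {n : ℕ} {ε : ℝ} (C : Finset (Fin n → X)) {w : ℝ} (hw : 0 ≤ w) :
    0 ≤ LL s n ε C w :=
  Finset.sum_nonneg fun j _ => mul_nonneg ((psite s n).lam_nonneg j)
    (Finset.sum_nonneg fun ω _ => mul_nonneg (by split_ifs <;> positivity) (sq_nonneg _))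

lemma HL_nonneg (s : Site Ω X) {n : ℕ} {ε : ℝ} (C : Finset (Fin n → X)) {w : ℝ} (hw : 0 ≤ w) :
    0 ≤ HL s n ε C w :=
  Finset.sum_nonneg fun c _ => mul_nonneg (by split_ifs <;> positivity)
    (Pool.Agent.H703R2.LP.site_g_nonneg _ c)

/-- energies of the clusters -/
lemma sum_en (s : Site Ω X) (φ : X → ℝ) {n : ℕ} {V : Type} [Fintype V]
    (S : V → Finset (Fin n → X)) (w p : V → ℝ) (hw : ∀ v, 0 ≤ w v) (hp : ∀ v, 0 ≤ p v)
    (hcov : ∀ x, ∑ v, (if x ∈ S v then w v else 0) ≤ 1) :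
    ∑ v, p v * en (psite s n) (af (S v) (w v / p v))
      (fun (i : Fin n) (x : Fin n → X) => φ (x i)) ≤ n * s.E (fun (_ : Unit) (x : X) => φ x) := by
  classical
  set q : Option V → ℝ := fun o => o.elim 1 p with hq
  have hpa : ∀ v x, p v * af (S v) (w v / p v) x ^ 2 ≤ if x ∈ S v then w v else 0 := by
    intro v x
    rw [af_sq _ (div_nonneg (hw v) (hp v))]
    by_cases h : x ∈ S v
    · rw [if_pos h, if_pos h]
      rcases (hp v).eq_or_lt with h0 | h0
      · rw [← h0, zero_mul]; exact hw v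
      · rw [mul_div_cancel₀ _ h0.ne']
    · rw [if_neg h, if_neg h, mul_zero]
  have hle : ∀ x, ∑ v, p v * af (S v) (w v / p v) x ^ 2 ≤ 1 := fun x =>
    (Finset.sum_le_sum fun v _ => hpa v x).trans (hcov x)
  set a : Option V → (Fin n → X) → ℝ := fun o x =>
    o.elim (√(1 - ∑ v, p v * af (S v) (w v / p v) x ^ 2)) (fun v => af (S v) (w v / p v) x)
    with ha
  have key := en_part (psite s n) q (by
      intro o
      cases o with
      | none => exact zero_le_one
      | some v => exact hp v) a (by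
      intro x
      rw [Fintype.sum_option]
      simp only [hq, ha, Option.elim]
      rw [Real.sq_sqrt (by have := hle x; linarith)]
      ring) (fun (i : Fin n) (x : Fin n → X) => φ (x i))
  rw [Fintype.sum_option, psite_E'] at key
  have h1 : 0 ≤ q none * en (psite s n) (a none) (fun (i : Fin n) (x : Fin n → X) => φ (x i)) :=
    mul_nonneg (by simp [hq]) (en_nonneg _ _ _)
  have h2 : ∑ v, q (some v) * en (psite s n) (a (some v))
      (fun (i : Fin n) (x : Fin n → X) => φ (x i)) =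
      ∑ v, p v * en (psite s n) (af (S v) (w v / p v))
      (fun (i : Fin n) (x : Fin n → X) => φ (x i)) := rfl
  rw [h2] at key
  linarith

/-- **The main inequality.** -/
theorem core (s : Site Ω X) (φ : X → ℝ) {δ : ℝ} (he : s.E (fun (_ : Unit) (x : X) => φ x) < δ)
    {ε : ℝ} (hε : 0 < ε) :
    ∃ η : ℝ, 0 < η ∧ ∃ n0 : ℕ, ∀ n ≥ n0, ∀ (V : Type) [Fintype V]
      (S T : V → Finset (Fin n → X)) (w : V → ℝ), (∀ v, 0 ≤ w v) →
      (∀ x, ∑ v, (if x ∈ S v then w v else 0) ≤ 1) →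
      (∀ v, ∀ x ∈ S v, ∀ y ∈ S v, x ≠ y → δ * n ≤ ∑ k, (φ (x k) - φ (y k)) ^ 2) →
      1 - η ≤ ∑ v, w v * ∑ x ∈ S v, ∏ k, s.P (x k) →
      ∑ v, w v * ∑ x ∈ S v, ∑ y ∈ (T v)ᶜ, ∏ k, m1 s (y k) (x k) ≤ η →
      η * Real.exp (n * (s.h - s.S - ε)) ≤ ∑ v, w v * ∑ y ∈ T v, ∏ k, s.P (y k) := by
  set e := s.E (fun (_ : Unit) (x : X) => φ x) with hedef
  have he0 : 0 ≤ e := site_E_nonneg s _
  have hδ : 0 < δ := lt_of_le_of_lt he0 he
  set c0 : ℝ := 1 - e / δ with hc0
  have hc0pos : 0 < c0 := by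
    rw [hc0, sub_pos, div_lt_one hδ]; exact he
  have hc01 : c0 ≤ 1 := by
    have : 0 ≤ e / δ := div_nonneg he0 hδ.le
    rw [hc0]; linarith
  set r : ℝ := c0 / 16 with hr
  have hr0 : 0 < r := by positivity
  have hr1 : r ≤ 1 := by linarith
  set ε' : ℝ := ε / 4 with hε'
  have hε'0 : 0 < ε' := by positivity
  -- small terms
  have e1 : ∀ᶠ n : ℕ in atTop, vl s / (n * ε' ^ 2) < c0 / 64 := by
    have : Tendsto (fun n : ℕ => vl s / (n * ε' ^ 2)) atTop (nhds 0) := by
      refine Tendsto.const_div_atTop ?_ (vl s)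
      exact tendsto_natCast_atTop_atTop.atTop_mul_const (by positivity)
    exact this.eventually_lt_const (by positivity)
  have e2 : ∀ᶠ n : ℕ in atTop, vg s / (n * ε' ^ 2) < c0 / 64 := by
    have : Tendsto (fun n : ℕ => vg s / (n * ε' ^ 2)) atTop (nhds 0) := by
      refine Tendsto.const_div_atTop ?_ (vg s)
      exact tendsto_natCast_atTop_atTop.atTop_mul_const (by positivity)
    exact this.eventually_lt_const (by positivity)
  have e3 : ∀ᶠ n : ℕ in atTop, Real.exp (-(n * ε')) / (r * √r) < c0 / 64 := by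
    have h : Tendsto (fun n : ℕ => Real.exp (-(n * ε')) / (r * √r)) atTop
        (nhds (0 / (r * √r))) := by
      refine Tendsto.div_const ?_ _
      refine Real.tendsto_exp_neg_atTop_nhds_zero.comp ?_
      exact tendsto_natCast_atTop_atTop.atTop_mul_const (by positivity)
    rw [zero_div] at h
    exact h.eventually_lt_const (by positivity)
  obtain ⟨n0, hn0⟩ := eventually_atTop.mp ((e1.and (e2.and e3)).and (eventually_ge_atTop 1))
  refine ⟨c0 / 64, by positivity, n0, fun n hn V _ S T w hw hcov hdist hmass hout => ?_⟩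
  classical
  obtain ⟨⟨a1, a2, a3⟩, hn1⟩ := hn0 n hn
  have hnR : (0 : ℝ) < n := by exact_mod_cast hn1
  by_contra hcon
  push Not at hcon
  set p : V → ℝ := fun v => w v * ∑ x ∈ S v, ∏ k, s.P (x k) with hp
  have hPn : ∀ x : Fin n → X, 0 ≤ ∏ k, s.P (x k) := fun x =>
    Finset.prod_nonneg fun k _ => P_nonneg s _
  have hp0 : ∀ v, 0 ≤ p v := fun v =>
    mul_nonneg (hw v) (Finset.sum_nonneg fun x _ => hPn x)
  set PT : V → ℝ := fun v => ∑ y ∈ T v, ∏ k, s.P (y k) with hPT
  have hPT0 : ∀ v, 0 ≤ PT v := fun v => Finset.sum_nonneg fun x _ => hPn x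
  set κ : ℝ := Real.exp (-(n * ε')) / (r * √r) with hκ
  set en' : V → ℝ := fun v => p v * en (psite s n) (af (S v) (w v / p v))
      (fun (i : Fin n) (x : Fin n → X) => φ (x i)) with hen'
  have hen0 : ∀ v, 0 ≤ en' v := fun v => mul_nonneg (hp0 v) (en_nonneg _ _ _)
  have hE := sum_en s φ S w p hw hp0 hcov
  set B : ℝ := Real.exp (n * (s.h - s.S) - 4 * (n * ε')) with hB
  have hB0 : 0 < B := Real.exp_pos _
  set good : V → Prop := fun v => 0 < p v ∧ w v * PT v ≤ p v * B with hgooddef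
  have hdn : 0 ≤ δ * n := by positivity
  -- the good clusters
  have hgood : ∀ v, good v → δ * n * (p v * (1 - 3 * r - κ) - 3 * LL s n ε' (S v) (w v) -
      2 * YL s n (S v) (T v) (w v) - HL s n ε' (S v) (w v)) ≤ en' v := fun v hv =>
    cluster s φ hdn hr0 hr1 (hw v) (S v) (T v) (hdist v) rfl hv.1 hv.2
  have h1 : ∑ v ∈ univ.filter good, δ * n * (p v * (1 - 3 * r - κ) -
      3 * LL s n ε' (S v) (w v) - 2 * YL s n (S v) (T v) (w v) - HL s n ε' (S v) (w v)) ≤
      n * e := by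
    refine le_trans ?_ hE
    calc _ ≤ ∑ v ∈ univ.filter good, en' v :=
          Finset.sum_le_sum fun v hv => hgood v (Finset.mem_filter.mp hv).2
      _ ≤ ∑ v, en' v :=
          Finset.sum_le_sum_of_subset_of_nonneg (Finset.filter_subset _ _) fun v _ _ => hen0 v
  rw [← Finset.mul_sum, Finset.sum_sub_distrib, Finset.sum_sub_distrib, Finset.sum_sub_distrib,
    ← Finset.sum_mul, ← Finset.mul_sum, ← Finset.mul_sum] at h1
  -- the pieces
  have hLs : ∑ v ∈ univ.filter good, LL s n ε' (S v) (w v) ≤ c0 / 64 :=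
    calc _ ≤ ∑ v, LL s n ε' (S v) (w v) :=
          Finset.sum_le_sum_of_subset_of_nonneg (Finset.filter_subset _ _)
            fun v _ _ => LL_nonneg s _ (hw v)
      _ ≤ _ := sum_LL s S w hcov
      _ ≤ _ := typ_compl s hn1 hε'0
      _ ≤ _ := a1.le
  have hHs : ∑ v ∈ univ.filter good, HL s n ε' (S v) (w v) ≤ c0 / 64 :=
    calc _ ≤ ∑ v, HL s n ε' (S v) (w v) :=
          Finset.sum_le_sum_of_subset_of_nonneg (Finset.filter_subset _ _)
            fun v _ _ => HL_nonneg s _ (hw v)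
      _ ≤ _ := sum_HL s S w hcov
      _ ≤ _ := lab_heavy s hn1 hε'0
      _ ≤ _ := a2.le
  have hYs : ∑ v ∈ univ.filter good, YL s n (S v) (T v) (w v) ≤ c0 / 64 :=
    calc _ ≤ ∑ v, YL s n (S v) (T v) (w v) :=
          Finset.sum_le_sum_of_subset_of_nonneg (Finset.filter_subset _ _)
            fun v _ _ => YL_nonneg s _ _ (hw v)
      _ ≤ _ := hout
  have hbad : ∑ v ∈ univ.filter (fun v => ¬ good v), p v ≤ c0 / 64 := by
    have h2 : ∀ v, ¬ good v → p v ≤ B⁻¹ * (w v * PT v) := by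
      intro v hv
      rcases (hp0 v).eq_or_lt with h0 | h0
      · rw [← h0]
        exact mul_nonneg (inv_nonneg.mpr hB0.le) (mul_nonneg (hw v) (hPT0 v))
      · have h3 : p v * B < w v * PT v := by
          by_contra h4
          exact hv ⟨h0, not_lt.mp h4⟩
        rw [inv_mul_eq_div, le_div_iff₀ hB0]
        exact h3.le
    calc _ ≤ ∑ v ∈ univ.filter (fun v => ¬ good v), B⁻¹ * (w v * PT v) :=
          Finset.sum_le_sum fun v hv => h2 v (Finset.mem_filter.mp hv).2
      _ ≤ ∑ v, B⁻¹ * (w v * PT v) :=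
          Finset.sum_le_sum_of_subset_of_nonneg (Finset.filter_subset _ _) fun v _ _ =>
            mul_nonneg (inv_nonneg.mpr hB0.le) (mul_nonneg (hw v) (hPT0 v))
      _ = B⁻¹ * ∑ v, w v * PT v := by rw [Finset.mul_sum]
      _ ≤ B⁻¹ * (c0 / 64 * Real.exp (n * (s.h - s.S - ε))) :=
          mul_le_mul_of_nonneg_left hcon.le (inv_nonneg.mpr hB0.le)
      _ = c0 / 64 := by
          have : Real.exp (n * (s.h - s.S - ε)) = B := by
            rw [hB]; congr 1; rw [hε']; ring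
          rw [this]
          field_simp
  have hsplit : ∑ v ∈ univ.filter good, p v + ∑ v ∈ univ.filter (fun v => ¬ good v), p v =
      ∑ v, p v := Finset.sum_filter_add_sum_filter_not univ good p
  have hgp : 1 - c0 / 32 ≤ ∑ v ∈ univ.filter good, p v := by linarith
  have hκ0 : 0 ≤ κ := by positivity
  have hfac : 0 ≤ 1 - 3 * r - κ := by linarith
  have h5 : (1 - c0 / 32) * (1 - 3 * r - κ) ≤
      (∑ v ∈ univ.filter good, p v) * (1 - 3 * r - κ) :=
    mul_le_mul_of_nonneg_right hgp hfac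
  have h6 : 1 - c0 / 2 ≤ (∑ v ∈ univ.filter good, p v) * (1 - 3 * r - κ) -
      3 * ∑ v ∈ univ.filter good, LL s n ε' (S v) (w v) -
      2 * ∑ v ∈ univ.filter good, YL s n (S v) (T v) (w v) -
      ∑ v ∈ univ.filter good, HL s n ε' (S v) (w v) := by
    have h7 : 1 - c0 / 32 - 3 * r - κ ≤ (1 - c0 / 32) * (1 - 3 * r - κ) := by nlinarith
    linarith
  have h8 : δ * n * (1 - c0 / 2) ≤ n * e :=
    (mul_le_mul_of_nonneg_left h6 hdn).trans h1
  have h10 : δ * (1 - c0 / 2) ≤ e := by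
    have : n * (δ * (1 - c0 / 2)) ≤ n * e := by
      calc _ = δ * n * (1 - c0 / 2) := by ring
        _ ≤ _ := h8
    exact le_of_mul_le_mul_left this hnR
  have h11 : δ * (1 - c0) = e := by
    rw [hc0]; field_simp; ring
  have h12 : 0 < δ * c0 := by positivity
  linarith

end Pool.Agent.H712.NP
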