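import Pool.Agent.H712.NP.Core

/-! The symmetric coupling of a site. -/

open Finset

namespace Pool.Agent.H712.NP

open Pool.Agent.H390R2.LP Pool.Agent.H235R2.QLP Pool.Agent.H712.NI

variable {Ω X : Type} [Fintype Ω] [DecidableEq Ω] [Fintype X] [DecidableEq X]

/-- sums of squares of combinations of the eigenvectors -/
lemma comb_sq (s : Site Ω X) (a : Ω → ℝ) :
    ∑ ω, (∑ j, a j * s.u j ω) ^ 2 = ∑ j, a j ^ 2 := by
  have h1 : ∀ ω, (∑ j, a j * s.u j ω) ^ 2 = ∑ j, ∑ l, a j * a l * (s.u j ω * s.u l ω) := by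
    intro ω
    rw [sq, Finset.sum_mul_sum]
    exact Finset.sum_congr rfl fun j _ => Finset.sum_congr rfl fun l _ => by ring
  simp only [h1]
  rw [Finset.sum_comm]
  refine Finset.sum_congr rfl fun j _ => ?_
  rw [Finset.sum_comm]
  simp only [← Finset.mul_sum, s.u_orth]
  simp only [mul_ite, mul_one, mul_zero, Finset.sum_ite_eq, Finset.mem_univ, if_true]
  ring

lemma rk_row (s : Site Ω X) (ω : Ω) : ∑ ω', rk s ω ω' ^ 2 = ∑ j, s.lam j * s.u j ω ^ 2 := by
  unfold rk
  rw [comb_sq s (fun j => √(s.lam j) * s.u j ω)]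
  refine Finset.sum_congr rfl fun j _ => ?_
  rw [mul_pow, Real.sq_sqrt (s.lam_nonneg j)]

lemma rk_symm (s : Site Ω X) (ω ω' : Ω) : rk s ω ω' = rk s ω' ω := by
  unfold rk
  exact Finset.sum_congr rfl fun j _ => by ring

lemma m1_symm (s : Site Ω X) (x y : X) : m1 s x y = m1 s y x := by
  unfold m1
  rw [Finset.sum_comm]
  refine Finset.sum_congr rfl fun o _ => Finset.sum_congr rfl fun o' _ => ?_
  rw [rk_symm s o' o]
  by_cases h : s.pos o = y ∧ s.pos o' = x
  · rw [if_pos h, if_pos ⟨h.2, h.1⟩]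
  · rw [if_neg h, if_neg fun h' => h ⟨h'.2, h'.1⟩]

/-- sums against the coupling -/
lemma m1_pair (s : Site Ω X) (G : X → X → ℝ) :
    ∑ x, ∑ y, m1 s x y * G x y = ∑ o, ∑ o', rk s o o' ^ 2 * G (s.pos o) (s.pos o') := by
  unfold m1
  simp only [Finset.sum_mul]
  calc _ = ∑ x, ∑ o, ∑ o', ∑ y, (if s.pos o = x ∧ s.pos o' = y then rk s o o' ^ 2 else 0) *
        G x y := by
        refine Finset.sum_congr rfl fun x _ => ?_
        rw [Finset.sum_comm]
        refine Finset.sum_congr rfl fun o _ => ?_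
        rw [Finset.sum_comm]
    _ = ∑ x, ∑ o, ∑ o', (if s.pos o = x then rk s o o' ^ 2 * G x (s.pos o') else 0) := by
        refine Finset.sum_congr rfl fun x _ => Finset.sum_congr rfl fun o _ =>
          Finset.sum_congr rfl fun o' _ => ?_
        by_cases h : s.pos o = x
        · rw [Finset.sum_eq_single (s.pos o')]
          · simp [h]
          · intro y _ hy
            rw [if_neg fun h' => hy h'.2.symm, zero_mul]
          · intro h'; exact absurd (Finset.mem_univ _) h'
        · simp [h]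
    _ = ∑ o, ∑ x, ∑ o', (if s.pos o = x then rk s o o' ^ 2 * G x (s.pos o') else 0) :=
        Finset.sum_comm
    _ = _ := by
        refine Finset.sum_congr rfl fun o _ => ?_
        rw [Finset.sum_eq_single (s.pos o)]
        · simp
        · intro x _ hx
          simp [Ne.symm hx]
        · intro h'; exact absurd (Finset.mem_univ _) h'

theorem m1_sum (s : Site Ω X) (x : X) : ∑ y, m1 s x y = s.P x := by
  have h1 := m1_pair s (fun x' _ => if x' = x then 1 else 0)
  have h2 := pos_sum s (fun x' => if x' = x then 1 else 0)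
  have e1 : ∀ x', (if x' = x then (1 : ℝ) else 0) ^ 2 = if x' = x then 1 else 0 := by
    intro x'; split_ifs <;> norm_num
  simp only [e1, ite_mul, one_mul, zero_mul, Finset.sum_ite_eq', Finset.mem_univ, if_true] at h2
  rw [← h2]
  simp only [mul_ite, mul_one, mul_zero] at h1
  have e2 : ∀ x', ∑ y, (if x' = x then m1 s x' y else 0) =
      if x' = x then ∑ y, m1 s x' y else 0 := by
    intro x'; split_ifs <;> simp
  simp only [e2, Finset.sum_ite_eq', Finset.mem_univ, if_true] at h1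
  rw [h1]
  refine Finset.sum_congr rfl fun o _ => ?_
  by_cases h : s.pos o = x
  · simp only [h, if_true]
    rw [rk_row]
  · simp [h]

theorem m1_energy (s : Site Ω X) (φ : X → ℝ) :
    s.E (fun (_ : Unit) (x : X) => φ x) = ∑ x, ∑ y, m1 s x y * (φ x - φ y) ^ 2 := by
  rw [m1_pair s (fun x y => (φ x - φ y) ^ 2)]
  unfold Site.E
  simp only [Finset.univ_unique, Finset.sum_singleton]
  have hL : ∑ o, ∑ o', rk s o o' ^ 2 * φ (s.pos o) ^ 2 =
      ∑ a, s.lam a * ∑ ω, s.u a ω ^ 2 * φ (s.pos ω) ^ 2 := by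
    have : ∀ o, ∑ o', rk s o o' ^ 2 * φ (s.pos o) ^ 2 =
        ∑ j, s.lam j * (s.u j o ^ 2 * φ (s.pos o) ^ 2) := by
      intro o
      rw [← Finset.sum_mul, rk_row, Finset.sum_mul]
      exact Finset.sum_congr rfl fun j _ => by ring
    simp only [this]
    rw [Finset.sum_comm]
    exact Finset.sum_congr rfl fun j _ => by rw [Finset.mul_sum]
  have hR : ∑ o, ∑ o', rk s o o' ^ 2 * φ (s.pos o') ^ 2 =
      ∑ a, s.lam a * ∑ ω, s.u a ω ^ 2 * φ (s.pos ω) ^ 2 := by
    rw [Finset.sum_comm, ← hL]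
    refine Finset.sum_congr rfl fun o _ => Finset.sum_congr rfl fun o' _ => ?_
    rw [rk_symm]
  have hM : ∑ o, ∑ o', rk s o o' ^ 2 * (φ (s.pos o) * φ (s.pos o')) =
      ∑ a, ∑ b, √(s.lam a * s.lam b) * (∑ ω, s.u a ω * φ (s.pos ω) * s.u b ω) ^ 2 := by
    have e1 : ∀ o o', rk s o o' ^ 2 * (φ (s.pos o) * φ (s.pos o')) =
        ∑ a, ∑ b, √(s.lam a * s.lam b) * ((s.u a o * φ (s.pos o) * s.u b o) *
          (s.u a o' * φ (s.pos o') * s.u b o')) := by
      intro o o'
      unfold rk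
      rw [sq, Finset.sum_mul_sum, Finset.sum_mul]
      refine Finset.sum_congr rfl fun a _ => ?_
      rw [Finset.sum_mul]
      refine Finset.sum_congr rfl fun b _ => ?_
      rw [Real.sqrt_mul (s.lam_nonneg a)]
      ring
    simp only [e1]
    calc _ = ∑ o, ∑ a, ∑ b, ∑ o', √(s.lam a * s.lam b) * ((s.u a o * φ (s.pos o) * s.u b o) *
          (s.u a o' * φ (s.pos o') * s.u b o')) := by
          refine Finset.sum_congr rfl fun o _ => ?_
          rw [Finset.sum_comm]
          refine Finset.sum_congr rfl fun a _ => ?_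
          rw [Finset.sum_comm]
      _ = ∑ a, ∑ b, ∑ o, ∑ o', √(s.lam a * s.lam b) * ((s.u a o * φ (s.pos o) * s.u b o) *
          (s.u a o' * φ (s.pos o') * s.u b o')) := by
          rw [Finset.sum_comm]
          refine Finset.sum_congr rfl fun a _ => ?_
          rw [Finset.sum_comm]
      _ = _ := by
          refine Finset.sum_congr rfl fun a _ => Finset.sum_congr rfl fun b _ => ?_
          rw [sq, Finset.sum_mul_sum, Finset.mul_sum]
          refine Finset.sum_congr rfl fun o _ => ?_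
          rw [Finset.mul_sum]
  rw [mul_sub, ← hM]
  have e2 : ∑ o, ∑ o', rk s o o' ^ 2 * (φ (s.pos o) - φ (s.pos o')) ^ 2 =
      ∑ o, ∑ o', rk s o o' ^ 2 * φ (s.pos o) ^ 2 + ∑ o, ∑ o', rk s o o' ^ 2 * φ (s.pos o') ^ 2 -
      2 * ∑ o, ∑ o', rk s o o' ^ 2 * (φ (s.pos o) * φ (s.pos o')) := by
    rw [Finset.mul_sum, ← Finset.sum_add_distrib, ← Finset.sum_sub_distrib]
    refine Finset.sum_congr rfl fun o _ => ?_
    rw [Finset.mul_sum, ← Finset.sum_add_distrib, ← Finset.sum_sub_distrib]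
    exact Finset.sum_congr rfl fun o' _ => by ring
  rw [e2, hL, hR]
  ring

/-- total mass of the coupling -/
lemma m1_total (s : Site Ω X) : ∑ x, ∑ y, m1 s x y = 1 := by
  simp only [m1_sum]
  exact P_sum s

end Pool.Agent.H712.NP
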