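import Pool.Agent.H712.NP.RnC

/-! The functional noise inequality in Euclidean space. -/

set_option linter.unusedSectionVars false

open Finset MeasureTheory Filter

namespace Pool.Agent.H712.NP

lemma lint_Ioi (c : ℝ) :
    ∫⁻ B in Set.Ioi c, ENNReal.ofReal (Real.exp (-B)) = ENNReal.ofReal (Real.exp (-c)) := by
  rw [← ofReal_integral_eq_lintegral_ofReal (integrableOn_exp_neg_Ioi c)
    (ae_of_all _ fun _ => (Real.exp_pos _).le), integral_exp_neg_Ioi]

lemma lint_ind (c : ℝ) :
    ∫⁻ B : ℝ, ENNReal.ofReal (Real.exp (-B)) * (if c < B then 1 else 0) =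
      ENNReal.ofReal (Real.exp (-c)) := by
  rw [← lint_Ioi c, ← lintegral_indicator measurableSet_Ioi]
  refine lintegral_congr fun B => ?_
  by_cases h : c < B
  · rw [if_pos h, mul_one, Set.indicator_of_mem (show B ∈ Set.Ioi c from h)]
  · rw [if_neg h, mul_zero, Set.indicator_of_notMem (show B ∉ Set.Ioi c from h)]

lemma layer {α : Type*} [MeasurableSpace α] (μ : Measure α) [SFinite μ] {F : α → ℝ}
    (hF : Measurable F) (t : ℝ) :
    ∫⁻ B : ℝ, ENNReal.ofReal (Real.exp (-B)) * μ {x | F x < B + t} =
      ∫⁻ x, ENNReal.ofReal (Real.exp (-(F x - t))) ∂μ := by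
  have hms : MeasurableSet {p : ℝ × α | F p.2 - t < p.1} :=
    measurableSet_lt ((hF.comp measurable_snd).sub_const t) measurable_fst
  have hmk : Measurable (fun p : ℝ × α => ENNReal.ofReal (Real.exp (-p.1)) *
      (if F p.2 - t < p.1 then 1 else 0)) := by
    refine Measurable.mul ?_ ?_
    · exact ENNReal.measurable_ofReal.comp (Real.measurable_exp.comp measurable_fst.neg)
    · exact Measurable.ite hms measurable_const measurable_const
  have h1 : ∀ B : ℝ, ENNReal.ofReal (Real.exp (-B)) * μ {x | F x < B + t} =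
      ∫⁻ x, ENNReal.ofReal (Real.exp (-B)) * (if F x - t < B then 1 else 0) ∂μ := by
    intro B
    rw [lintegral_const_mul _ (Measurable.ite (measurableSet_lt (hF.sub_const t)
      measurable_const) measurable_const measurable_const)]
    congr 1
    have h2 : ∀ x, (if F x - t < B then (1 : ENNReal) else 0) =
        Set.indicator {x | F x < B + t} 1 x := by
      intro x
      by_cases h : F x - t < B
      · rw [if_pos h, Set.indicator_of_mem (show x ∈ {x | F x < B + t} from by
          show F x < B + t; linarith)]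
        rfl
      · rw [if_neg h, Set.indicator_of_notMem (show x ∉ {x | F x < B + t} from by
          intro h'
          have h'' : F x < B + t := h'
          exact h (by linarith))]
    simp only [h2]
    rw [lintegral_indicator_one (measurableSet_lt hF measurable_const)]
  simp only [h1]
  rw [lintegral_lintegral_swap hmk.aemeasurable]
  exact lintegral_congr fun x => lint_ind _

lemma sum_layer {ι : Type*} (C : Finset ι) (A : ι → ℝ) :
    ∑ c ∈ C, ENNReal.ofReal (Real.exp (-A c)) =
      ∫⁻ B : ℝ, ENNReal.ofReal (Real.exp (-B)) * ((C.filter fun c => A c < B).card : ENNReal) := by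
  classical
  have h1 : ∀ B : ℝ, ENNReal.ofReal (Real.exp (-B)) *
      ((C.filter fun c => A c < B).card : ENNReal) =
      ∑ c ∈ C, ENNReal.ofReal (Real.exp (-B)) * (if A c < B then 1 else 0) := by
    intro B
    rw [← Finset.mul_sum]
    congr 1
    simp
  simp only [h1]
  rw [lintegral_finsetSum']
  · exact Finset.sum_congr rfl fun c _ => (lint_ind _).symm
  · intro c _
    refine (Measurable.mul ?_ ?_).aemeasurable
    · exact ENNReal.measurable_ofReal.comp (Real.measurable_exp.comp measurable_neg)
    · exact Measurable.ite measurableSet_Ioi measurable_const measurable_const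

theorem functional_fin {K ε : ℝ} (hK : 0 ≤ K) (hε : 0 < ε) : ∃ n0 : ℕ, ∀ n ≥ n0,
    ∀ (C : Finset (EuclideanSpace ℝ (Fin n))) (F : EuclideanSpace ℝ (Fin n) → ℝ),
    (∀ x y, |F x - F y| ≤ K * √n * ‖x - y‖) →
    (∀ c ∈ C, ∀ c' ∈ C, c ≠ c' → √n ≤ ‖c - c'‖) →
    ∑ c ∈ C, ENNReal.ofReal (Real.exp (-sm (fun u => F (c + √(n : ℝ) • u)))) ≤
      ENNReal.ofReal (Real.exp (n * (ε - Real.log Real.pi))) *
      ∫⁻ x, ENNReal.ofReal (Real.exp (-F x)) := by
  obtain ⟨n0, H⟩ := level hK (show 0 < ε / 4 by positivity)
  refine ⟨max n0 1, fun n hn C F hF hd => ?_⟩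
  have hn0 : n0 ≤ n := le_trans (le_max_left _ _) hn
  have hn1 : 1 ≤ n := le_trans (le_max_right _ _) hn
  have hnpos : (0 : ℝ) < n := by exact_mod_cast hn1
  have hFc : Continuous F := by
    have hΛ : 0 ≤ K * √n := by positivity
    have : LipschitzWith ⟨K * √n, hΛ⟩ F := LipschitzWith.of_dist_le_mul fun x y => by
      rw [Real.dist_eq, dist_eq_norm]; exact hF x y
    exact this.continuous
  set A : EuclideanSpace ℝ (Fin n) → ℝ := fun c => sm (fun u => F (c + √(n : ℝ) • u)) with hA
  set κ := ENNReal.ofReal (Real.exp (n * (ε / 4 - Real.log Real.pi))) with hκ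
  set t : ℝ := ε / 2 * n with ht
  have h1 : ∀ B : ℝ, ((C.filter fun c => A c < B).card : ENNReal) ≤
      κ * volume {x : EuclideanSpace ℝ (Fin n) | F x < B + t} := by
    intro B
    have h2 := H n hn0 (C.filter fun c => A c < B) F B hF
      (fun c hc c' hc' hne => hd c (Finset.mem_filter.mp hc).1 c' (Finset.mem_filter.mp hc').1 hne)
      (fun c hc => (Finset.mem_filter.mp hc).2.le)
    refine h2.trans (mul_le_mul_right (measure_mono fun x hx => ?_) _)
    have hx' : F x ≤ B + ε / 4 * n := hx
    show F x < B + t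
    rw [ht]
    nlinarith
  calc ∑ c ∈ C, ENNReal.ofReal (Real.exp (-A c))
      = ∫⁻ B : ℝ, ENNReal.ofReal (Real.exp (-B)) *
          ((C.filter fun c => A c < B).card : ENNReal) := sum_layer C A
    _ ≤ ∫⁻ B : ℝ, κ * (ENNReal.ofReal (Real.exp (-B)) *
          volume {x : EuclideanSpace ℝ (Fin n) | F x < B + t}) := by
        refine lintegral_mono fun B => ?_
        calc _ ≤ ENNReal.ofReal (Real.exp (-B)) * (κ *
              volume {x : EuclideanSpace ℝ (Fin n) | F x < B + t}) := mul_le_mul_right (h1 B) _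
          _ = _ := by ring
    _ = κ * ∫⁻ x, ENNReal.ofReal (Real.exp (-(F x - t))) := by
        rw [lintegral_const_mul' _ _ ENNReal.ofReal_ne_top, layer volume hFc.measurable t]
    _ = κ * (ENNReal.ofReal (Real.exp t) * ∫⁻ x, ENNReal.ofReal (Real.exp (-F x))) := by
        congr 1
        rw [← lintegral_const_mul' _ _ ENNReal.ofReal_ne_top]
        refine lintegral_congr fun x => ?_
        rw [← ENNReal.ofReal_mul (Real.exp_pos _).le, ← Real.exp_add]
        congr 2
        ring
    _ ≤ _ := by
        rw [← mul_assoc]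
        refine mul_le_mul_left ?_ _
        rw [hκ, ← ENNReal.ofReal_mul (Real.exp_pos _).le, ← Real.exp_add]
        refine ENNReal.ofReal_le_ofReal (Real.exp_le_exp.mpr ?_)
        rw [ht]
        nlinarith

end Pool.Agent.H712.NP
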