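import Pool.Agent.H712.NP.Neigh

/-! Periodic functions and lattices. -/

set_option linter.unusedSectionVars false

open Finset MeasureTheory Filter

namespace Pool.Agent.H712.NP

variable {n : ℕ}

/-- the point with coordinates `y` in the basis given by the columns of `A` -/
noncomputable def pt (A : Matrix (Fin n) (Fin n) ℝ) (y : Fin n → ℝ) : EuclideanSpace ℝ (Fin n) :=
  WithLp.toLp 2 (A.mulVec y)

/-- the lattice vector with coordinates `z` -/
noncomputable def lv (A : Matrix (Fin n) (Fin n) ℝ) (z : Fin n → ℤ) : EuclideanSpace ℝ (Fin n) :=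
  pt A fun i => (z i : ℝ)

lemma pt_add (A : Matrix (Fin n) (Fin n) ℝ) (y z : Fin n → ℝ) :
    pt A (y + z) = pt A y + pt A z := by
  unfold pt
  rw [Matrix.mulVec_add]
  rfl

lemma pt_cont (A : Matrix (Fin n) (Fin n) ℝ) : Continuous (pt A) := by
  unfold pt
  exact (PiLp.continuous_toLp 2 _).comp (Continuous.matrix_mulVec continuous_const continuous_id)

/-- coordinates -/
noncomputable def co (A : Matrix (Fin n) (Fin n) ℝ) (x : EuclideanSpace ℝ (Fin n)) : Fin n → ℝ :=
  A⁻¹.mulVec (WithLp.ofLp x)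

lemma co_pt {A : Matrix (Fin n) (Fin n) ℝ} (hA : A.det ≠ 0) (y : Fin n → ℝ) :
    co A (pt A y) = y := by
  unfold co pt
  rw [Matrix.mulVec_mulVec, Matrix.nonsing_inv_mul A (isUnit_iff_ne_zero.mpr hA),
    Matrix.one_mulVec]

lemma co_sub (A : Matrix (Fin n) (Fin n) ℝ) (x y : EuclideanSpace ℝ (Fin n)) :
    co A (x - y) = co A x - co A y := by
  unfold co
  rw [← Matrix.mulVec_sub]
  rfl

lemma co_add (A : Matrix (Fin n) (Fin n) ℝ) (x y : EuclideanSpace ℝ (Fin n)) :
    co A (x + y) = co A x + co A y := by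
  unfold co
  rw [← Matrix.mulVec_add]
  rfl

lemma co_bound (A : Matrix (Fin n) (Fin n) ℝ) :
    ∃ c : ℝ, 0 < c ∧ ∀ x : EuclideanSpace ℝ (Fin n), ‖co A x‖ ≤ c * ‖x‖ := by
  set T : EuclideanSpace ℝ (Fin n) →ₗ[ℝ] (Fin n → ℝ) :=
    (Matrix.toLin' A⁻¹) ∘ₗ (WithLp.linearEquiv 2 ℝ (Fin n → ℝ)).toLinearMap with hT
  set T' := LinearMap.toContinuousLinearMap T with hT'
  refine ⟨‖T'‖ + 1, by positivity, fun x => ?_⟩
  have h1 : co A x = T' x := rfl
  rw [h1]
  refine (T'.le_opNorm x).trans ?_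
  nlinarith [norm_nonneg x, norm_nonneg T']

/-- change of variables -/
lemma lint_pt {A : Matrix (Fin n) (Fin n) ℝ} (hA : A.det ≠ 0)
    {G : EuclideanSpace ℝ (Fin n) → ENNReal} (hG : Measurable G) :
    ∫⁻ x, G x = ENNReal.ofReal |A.det| * ∫⁻ y : Fin n → ℝ, G (pt A y) := by
  have h1 : ∫⁻ x, G x = ∫⁻ x : Fin n → ℝ, G (WithLp.toLp 2 x) := by
    rw [← (PiLp.volume_preserving_toLp (Fin n)).lintegral_comp hG]
  have h2 := Real.map_matrix_volume_pi_eq_smul_volume_pi hA
  have hG' : Measurable (fun x : Fin n → ℝ => G (WithLp.toLp 2 x)) :=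
    hG.comp (PiLp.continuous_toLp 2 _).measurable
  have hlin : Measurable (Matrix.toLin' A : (Fin n → ℝ) → (Fin n → ℝ)) :=
    (LinearMap.continuous_on_pi _).measurable
  have h3 : ∫⁻ y : Fin n → ℝ, G (pt A y) =
      ENNReal.ofReal |(A.det)⁻¹| * ∫⁻ x : Fin n → ℝ, G (WithLp.toLp 2 x) := by
    rw [← smul_eq_mul, ← lintegral_smul_measure, ← h2, lintegral_map hG' hlin]
    rfl
  rw [h1, h3, ← mul_assoc, ← ENNReal.ofReal_mul (abs_nonneg _), ← abs_mul,
    mul_inv_cancel₀ hA, abs_one, ENNReal.ofReal_one, one_mul]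

/-- half open unit cubes -/
def cb (z : Fin n → ℤ) : Set (Fin n → ℝ) :=
  Set.univ.pi fun i => Set.Ico (z i : ℝ) ((z i : ℝ) + 1)

lemma cb_meas (z : Fin n → ℤ) : MeasurableSet (cb z) :=
  MeasurableSet.univ_pi fun _ => measurableSet_Ico

/-- the measure with periodic density -/
lemma cb_period {H : (Fin n → ℝ) → ENNReal} (hH : Measurable H)
    (hp : ∀ y (z : Fin n → ℤ), H (y + fun i => (z i : ℝ)) = H y) (z : Fin n → ℤ) :
    ∫⁻ y in cb z, H y = ∫⁻ y in cb (0 : Fin n → ℤ), H y := by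
  rw [← lintegral_indicator (cb_meas z), ← lintegral_indicator (cb_meas 0)]
  rw [← lintegral_add_right_eq_self (fun y => (cb z).indicator H y) (fun i => (z i : ℝ))]
  refine lintegral_congr fun y => ?_
  have h1 : (y + fun i => (z i : ℝ)) ∈ cb z ↔ y ∈ cb (0 : Fin n → ℤ) := by
    unfold cb
    simp only [Set.mem_pi, Set.mem_univ, true_implies, Set.mem_Ico, Pi.add_apply, Pi.zero_apply,
      Int.cast_zero, zero_add]
    constructor
    · intro h i; have := h i; constructor <;> linarith [this.1, this.2]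
    · intro h i; have := h i; constructor <;> linarith [this.1, this.2]
  by_cases h : y ∈ cb (0 : Fin n → ℤ)
  · rw [Set.indicator_of_mem h, Set.indicator_of_mem (h1.mpr h), hp]
  · rw [Set.indicator_of_notMem h, Set.indicator_of_notMem (fun h' => h (h1.mp h'))]

lemma ball_cover {H : (Fin n → ℝ) → ENNReal} (hH : Measurable H)
    (hp : ∀ y (z : Fin n → ℤ), H (y + fun i => (z i : ℝ)) = H y) {r : ℝ} (hr : 0 ≤ r) :
    ∫⁻ y in {y : Fin n → ℝ | ‖y‖ < r}, H y ≤
      ENNReal.ofReal ((2 * (r + 1)) ^ n) * ∫⁻ y in cb (0 : Fin n → ℤ), H y := by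
  classical
  set B : Finset (Fin n → ℤ) := Fintype.piFinset fun _ => Finset.Ico (-⌈r⌉) ⌈r⌉ with hB
  have hsub : {y : Fin n → ℝ | ‖y‖ < r} ⊆ ⋃ z ∈ B, cb z := by
    intro y hy
    have hy' : ‖y‖ < r := hy
    simp only [Set.mem_iUnion]
    refine ⟨fun i => ⌊y i⌋, ?_, ?_⟩
    · rw [hB, Fintype.mem_piFinset]
      intro i
      have h1 : |y i| < r := lt_of_le_of_lt (norm_le_pi_norm y i) hy'
      have h2 := abs_lt.mp h1
      rw [Finset.mem_Ico]
      constructor
      · rw [Int.le_floor]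
        push_cast
        have := Int.le_ceil r
        linarith
      · rw [Int.floor_lt]
        exact h2.2.trans_le (Int.le_ceil r)
    · unfold cb
      simp only [Set.mem_pi, Set.mem_univ, true_implies, Set.mem_Ico]
      intro i
      exact ⟨Int.floor_le _, Int.lt_floor_add_one _⟩
  calc ∫⁻ y in {y : Fin n → ℝ | ‖y‖ < r}, H y ≤ ∫⁻ y in ⋃ z ∈ B, cb z, H y :=
        lintegral_mono_set hsub
    _ ≤ ∑ z ∈ B, ∫⁻ y in cb z, H y := by
        have hB2 : (⋃ z ∈ B, cb z) = ⋃ z : B, cb z.1 := by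
          ext y; simp
        rw [hB2]
        refine (lintegral_iUnion_le _ _).trans ?_
        rw [tsum_fintype, Finset.sum_coe_sort B (fun z => ∫⁻ y in cb z, H y)]
    _ = B.card * ∫⁻ y in cb (0 : Fin n → ℤ), H y := by
        rw [Finset.sum_congr rfl fun z _ => cb_period hH hp z, Finset.sum_const, nsmul_eq_mul]
    _ ≤ _ := by
        refine mul_le_mul_left ?_ _
        have hc : (B.card : ℝ) ≤ (2 * (r + 1)) ^ n := by
          rw [hB, Fintype.card_piFinset]
          simp only [Int.card_Ico, Finset.prod_const, Finset.card_univ, Fintype.card_fin]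
          push_cast
          refine pow_le_pow_left₀ (Nat.cast_nonneg _) ?_ n
          have h1 : 0 ≤ ⌈r⌉ := Int.ceil_nonneg hr
          have h2 : (((⌈r⌉ - -⌈r⌉).toNat : ℤ) : ℝ) = 2 * (⌈r⌉ : ℝ) := by
            rw [Int.toNat_of_nonneg (by linarith)]
            push_cast; ring
          have h3 : (((⌈r⌉ - -⌈r⌉).toNat : ℕ) : ℝ) = 2 * (⌈r⌉ : ℝ) := by
            rw [← h2]; norm_cast
          rw [h3]
          have := Int.ceil_lt_add_one r
          linarith
        rw [← ENNReal.ofReal_natCast]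
        exact ENNReal.ofReal_le_ofReal hc

end Pool.Agent.H712.NP
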