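import Pool.Agent.H712.NP.LatA

/-! Geometric means of periodic functions over spheres. -/

set_option linter.unusedSectionVars false

open Finset MeasureTheory Filter

namespace Pool.Agent.H712.NP

variable {n : ℕ}

/-- a weight that grows outside a large box -/
noncomputable def wg (A : Matrix (Fin n) (Fin n) ℝ) (τ R : ℝ) (x : EuclideanSpace ℝ (Fin n)) : ℝ :=
  τ * max (‖co A x‖ - R) 0

lemma wg_lip {A : Matrix (Fin n) (Fin n) ℝ} {τ R c : ℝ} (hτ : 0 ≤ τ)
    (hc : ∀ x : EuclideanSpace ℝ (Fin n), ‖co A x‖ ≤ c * ‖x‖) (x y : EuclideanSpace ℝ (Fin n)) :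
    |wg A τ R x - wg A τ R y| ≤ τ * c * ‖x - y‖ := by
  unfold wg
  rw [← mul_sub, abs_mul, abs_of_nonneg hτ, mul_assoc]
  refine mul_le_mul_of_nonneg_left ?_ hτ
  have h1 := abs_max_sub_max_le_abs (‖co A x‖ - R) (‖co A y‖ - R) 0
  rw [sub_sub_sub_cancel_right] at h1
  have h2 := abs_norm_sub_norm_le (co A x) (co A y)
  rw [← co_sub] at h2
  exact h1.trans (h2.trans (hc _))

lemma wg_zero {A : Matrix (Fin n) (Fin n) ℝ} {τ R : ℝ} {x : EuclideanSpace ℝ (Fin n)}
    (h : ‖co A x‖ ≤ R) : wg A τ R x = 0 := by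
  unfold wg
  rw [max_eq_right (by linarith), mul_zero]

lemma wg_int {A : Matrix (Fin n) (Fin n) ℝ} (hA : A.det ≠ 0)
    {F : EuclideanSpace ℝ (Fin n) → ℝ} (hF : Measurable F)
    (hp : ∀ x z, F (x + lv A z) = F x) {τ R : ℝ} (hτ : 0 < τ) (hR : 0 ≤ R)
    (hnR : n / (τ * (R + 1)) ≤ 1 / 2) :
    ∫⁻ x, ENNReal.ofReal (Real.exp (-(F x + wg A τ R x))) ≤
      ENNReal.ofReal (|A.det| * (2 * (2 * (R + 1)) ^ n)) *
        ∫⁻ y in cb (0 : Fin n → ℤ), ENNReal.ofReal (Real.exp (-F (pt A y))) := by
  set H : (Fin n → ℝ) → ENNReal := fun y => ENNReal.ofReal (Real.exp (-F (pt A y))) with hH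
  have hHm : Measurable H :=
    ENNReal.measurable_ofReal.comp (Real.measurable_exp.comp (hF.comp (pt_cont A).measurable).neg)
  have hHp : ∀ y (z : Fin n → ℤ), H (y + fun i => (z i : ℝ)) = H y := by
    intro y z
    rw [hH]
    simp only
    rw [pt_add]
    have : F (pt A y + pt A fun i => (z i : ℝ)) = F (pt A y) := hp (pt A y) z
    rw [this]
  set m := ∫⁻ y in cb (0 : Fin n → ℤ), H y with hm
  set v : (Fin n → ℝ) → ℝ := fun y => τ * max (‖y‖ - R) 0 with hv
  have hvm : Measurable v := by
    have : Continuous v := by rw [hv]; fun_prop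
    exact this.measurable
  have hcoc : Continuous (co A) := by
    unfold co
    exact Continuous.matrix_mulVec continuous_const (PiLp.continuous_ofLp 2 _)
  have hGm : Measurable (fun x => ENNReal.ofReal (Real.exp (-(F x + wg A τ R x)))) := by
    have h1 : Continuous (wg A τ R) := by
      unfold wg
      exact continuous_const.mul (((hcoc.norm).sub continuous_const).max continuous_const)
    exact ENNReal.measurable_ofReal.comp (Real.measurable_exp.comp (hF.add h1.measurable).neg)
  rw [lint_pt hA hGm, ENNReal.ofReal_mul (abs_nonneg _), mul_assoc]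
  refine mul_le_mul_right ?_ _
  have h1 : ∀ y : Fin n → ℝ, ENNReal.ofReal (Real.exp (-(F (pt A y) + wg A τ R (pt A y)))) =
      H y * ENNReal.ofReal (Real.exp (-(v y - 0))) := by
    intro y
    rw [hH, hv]
    simp only [sub_zero]
    rw [← ENNReal.ofReal_mul (Real.exp_pos _).le, ← Real.exp_add]
    congr 2
    unfold wg
    rw [co_pt hA]
    ring
  simp only [h1]
  have h2 : ∫⁻ y, H y * ENNReal.ofReal (Real.exp (-(v y - 0))) =
      ∫⁻ y, ENNReal.ofReal (Real.exp (-(v y - 0))) ∂(volume.withDensity H) := by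
    rw [lintegral_withDensity_eq_lintegral_mul _ hHm]
    · rfl
    · exact ENNReal.measurable_ofReal.comp
        (Real.measurable_exp.comp (hvm.sub_const 0).neg)
  rw [h2, ← layer (volume.withDensity H) hvm 0]
  have h3 : ∀ B : ℝ, ENNReal.ofReal (Real.exp (-B)) *
      (volume.withDensity H) {y | v y < B + 0} ≤
      Set.indicator (Set.Ioi 0) (fun B => ENNReal.ofReal ((2 * (R + 1)) ^ n *
        Real.exp ((-1 / 2) * B)) * m) B := by
    intro B
    rw [add_zero]
    by_cases hB : 0 < B
    · rw [Set.indicator_of_mem (show B ∈ Set.Ioi 0 from hB)]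
      have h4 : {y | v y < B} ⊆ {y : Fin n → ℝ | ‖y‖ < R + B / τ} := by
        intro y hy
        have hy' : τ * max (‖y‖ - R) 0 < B := hy
        have h5 : τ * (‖y‖ - R) < B :=
          lt_of_le_of_lt (mul_le_mul_of_nonneg_left (le_max_left _ _) hτ.le) hy'
        show ‖y‖ < R + B / τ
        have h6 : ‖y‖ - R < B / τ := by
          rw [lt_div_iff₀ hτ]; linarith
        linarith
      have h5 : (volume.withDensity H) {y | v y < B} ≤
          ENNReal.ofReal ((2 * (R + B / τ + 1)) ^ n) * m := by
        refine (measure_mono h4).trans ?_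
        rw [withDensity_apply _ (measurableSet_lt measurable_norm measurable_const)]
        exact ball_cover hHm hHp (by positivity)
      have h6 : (2 * (R + B / τ + 1)) ^ n ≤ (2 * (R + 1)) ^ n * Real.exp (B / 2) := by
        have e1 : 2 * (R + B / τ + 1) = 2 * (R + 1) * (1 + B / (τ * (R + 1))) := by
          field_simp
          ring
        rw [e1, mul_pow]
        refine mul_le_mul_of_nonneg_left ?_ (by positivity)
        have e2 : 1 + B / (τ * (R + 1)) ≤ Real.exp (B / (τ * (R + 1))) := by
          have := Real.add_one_le_exp (B / (τ * (R + 1))); linarith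
        calc (1 + B / (τ * (R + 1))) ^ n ≤ Real.exp (B / (τ * (R + 1))) ^ n :=
              pow_le_pow_left₀ (by positivity) e2 n
          _ = Real.exp (B * (n / (τ * (R + 1)))) := by
              rw [← Real.exp_nat_mul]; congr 1; ring
          _ ≤ Real.exp (B / 2) := by
              refine Real.exp_le_exp.mpr ?_
              have := mul_le_mul_of_nonneg_left hnR hB.le
              linarith
      calc ENNReal.ofReal (Real.exp (-B)) * (volume.withDensity H) {y | v y < B}
          ≤ ENNReal.ofReal (Real.exp (-B)) *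
            (ENNReal.ofReal ((2 * (R + 1)) ^ n * Real.exp (B / 2)) * m) :=
            mul_le_mul_right (h5.trans (mul_le_mul_left (ENNReal.ofReal_le_ofReal h6) _)) _
        _ = ENNReal.ofReal ((2 * (R + 1)) ^ n * Real.exp ((-1 / 2) * B)) * m := by
            rw [← mul_assoc, ← ENNReal.ofReal_mul (Real.exp_pos _).le]
            congr 2
            rw [mul_left_comm, ← Real.exp_add]
            congr 2
            ring
    · rw [Set.indicator_of_notMem (show B ∉ Set.Ioi 0 from hB)]
      have h4 : {y | v y < B} = ∅ := by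
        ext y
        simp only [Set.mem_empty_iff_false, iff_false]
        intro hy
        have hy' : τ * max (‖y‖ - R) 0 < B := hy
        have : 0 ≤ τ * max (‖y‖ - R) 0 := mul_nonneg hτ.le (le_max_right _ _)
        exact hB (this.trans_lt hy')
      rw [h4, measure_empty, mul_zero]
  refine (lintegral_mono h3).trans ?_
  rw [lintegral_indicator measurableSet_Ioi, lintegral_mul_const]
  · refine mul_le_mul_left ?_ _
    have h4 : IntegrableOn (fun B : ℝ => (2 * (R + 1)) ^ n * Real.exp ((-1 / 2) * B))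
        (Set.Ioi 0) := (integrableOn_exp_mul_Ioi (by norm_num) 0).const_mul _
    rw [← ofReal_integral_eq_lintegral_ofReal h4
      (ae_of_all _ fun _ => mul_nonneg (by positivity) (Real.exp_pos _).le)]
    refine ENNReal.ofReal_le_ofReal (le_of_eq ?_)
    rw [integral_const_mul, integral_exp_mul_Ioi (by norm_num)]
    simp
    ring
  · exact ENNReal.measurable_ofReal.comp
      (measurable_const.mul (Real.measurable_exp.comp (measurable_const.mul measurable_id)))

lemma lv_sub (A : Matrix (Fin n) (Fin n) ℝ) (z w : Fin n → ℤ) : lv A z - lv A w = lv A (z - w) := by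
  unfold lv pt
  rw [← WithLp.toLp_sub, ← Matrix.mulVec_sub]
  congr 2
  funext i
  simp

theorem lattice_fun {K ε : ℝ} (hK : 0 ≤ K) (hε : 0 < ε) : ∃ n0 : ℕ, ∀ n ≥ n0,
    ∀ (A : Matrix (Fin n) (Fin n) ℝ), A.det ≠ 0 → ∀ D : ℝ, 0 < D →
    (∀ z : Fin n → ℤ, z ≠ 0 → D ≤ ‖lv A z‖) → ∀ F : EuclideanSpace ℝ (Fin n) → ℝ,
    (∀ x y, |F x - F y| ≤ K * n / D * ‖x - y‖) → (∀ x z, F (x + lv A z) = F x) →
    ∀ a, ENNReal.ofReal (Real.exp (-sphMean F a D)) ≤
      ENNReal.ofReal ((Real.exp ε * √n / (Real.pi * D)) ^ n * |A.det|) *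
        ∫⁻ y in cb (0 : Fin n → ℤ), ENNReal.ofReal (Real.exp (-F (pt A y))) := by
  classical
  obtain ⟨n0, H⟩ := functional (K := K + 1) (by linarith) (show 0 < ε / 2 by positivity)
  obtain ⟨n1, hn1⟩ : ∃ n1 : ℕ, ∀ n ≥ n1, (4 : ℝ) ≤ Real.exp (n * (ε / 2)) := by
    have h1 : Tendsto (fun n : ℕ => Real.exp (n * (ε / 2))) atTop atTop :=
      Real.tendsto_exp_atTop.comp
        (tendsto_natCast_atTop_atTop.atTop_mul_const (by positivity))
    exact eventually_atTop.mp (h1.eventually_ge_atTop _)
  refine ⟨max (max n0 n1) 1, fun n hn A hA D hD hmin F hF hp a => ?_⟩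
  have hn0 : n0 ≤ n := le_trans (le_trans (le_max_left _ _) (le_max_left _ _)) hn
  have hn1' : n1 ≤ n := le_trans (le_trans (le_max_right _ _) (le_max_left _ _)) hn
  have hnp : 0 < n := le_trans (le_max_right _ _) hn
  have hnpos : (0 : ℝ) < n := by exact_mod_cast hnp
  have hFc : Continuous F := by
    have hΛ : 0 ≤ K * n / D := by positivity
    have : LipschitzWith ⟨K * n / D, hΛ⟩ F := LipschitzWith.of_dist_le_mul fun x y => by
      rw [Real.dist_eq, dist_eq_norm]; exact hF x y
    exact this.continuous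
  obtain ⟨c, hc, hcb⟩ := co_bound A
  set τ : ℝ := n / (D * c) with hτ
  have hτp : 0 < τ := by positivity
  set M : ℝ := ‖co A a‖ + c * D with hM
  have hM0 : 0 ≤ M := by positivity
  obtain ⟨k, hk⟩ := exists_nat_gt (2 * n * (2 * M + 1) + 2 * n / τ)
  have hk1 : 2 * n * (2 * M + 1) < k := by
    have : 0 ≤ 2 * (n : ℝ) / τ := by positivity
    linarith
  have hk2 : 2 * n / τ < k := by
    have : 0 ≤ 2 * (n : ℝ) * (2 * M + 1) := by positivity
    linarith
  have hk0 : (0 : ℝ) ≤ k := Nat.cast_nonneg k
  set R : ℝ := k + M with hR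
  have hR0 : 0 ≤ R := by positivity
  set Bx : Finset (Fin n → ℤ) := Fintype.piFinset fun _ => Finset.Icc (-(k : ℤ)) k with hBx
  have hBc : (Bx.card : ℝ) = (2 * k + 1) ^ n := by
    rw [hBx, Fintype.card_piFinset]
    simp only [Int.card_Icc, Finset.prod_const, Finset.card_univ, Fintype.card_fin]
    have : ((k : ℤ) + 1 - -(k : ℤ)).toNat = 2 * k + 1 := by omega
    rw [this]
    push_cast
    ring
  have hinj : Set.InjOn (fun z : Fin n → ℤ => a + lv A z) (Bx : Set (Fin n → ℤ)) := by
    intro z _ w _ h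
    by_contra hne
    have h1 : lv A z - lv A w = 0 := by
      have : a + lv A z = a + lv A w := h
      rw [add_left_cancel this, sub_self]
    rw [lv_sub] at h1
    have h2 := hmin (z - w) (sub_ne_zero.mpr hne)
    rw [h1, norm_zero] at h2
    linarith
  have hkey := H n hn0 D hD (Bx.image fun z => a + lv A z) (fun x => F x + wg A τ R x) ?_ ?_
  · rw [Finset.sum_image hinj] at hkey
    have hval : ∀ z ∈ Bx, sphMean (fun x => F x + wg A τ R x) (a + lv A z) D = sphMean F a D := by
      intro z hz
      unfold sphMean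
      congr 1
      funext u
      have hu : ‖(u : EuclideanSpace ℝ (Fin n))‖ = 1 := by simp
      have h1 : wg A τ R (a + lv A z + D • (u : EuclideanSpace ℝ (Fin n))) = 0 := by
        refine wg_zero ?_
        rw [co_add, co_add]
        have e1 : ‖co A (lv A z)‖ ≤ k := by
          unfold lv
          rw [co_pt hA]
          refine (pi_norm_le_iff_of_nonneg hk0).mpr fun i => ?_
          rw [hBx, Fintype.mem_piFinset] at hz
          have := Finset.mem_Icc.mp (hz i)
          rw [Real.norm_eq_abs, abs_le]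
          constructor
          · exact_mod_cast this.1
          · exact_mod_cast this.2
        have e2 : ‖co A (D • (u : EuclideanSpace ℝ (Fin n)))‖ ≤ c * D := by
          refine (hcb _).trans (le_of_eq ?_)
          rw [norm_smul, hu, mul_one, Real.norm_eq_abs, abs_of_pos hD]
        calc _ ≤ ‖co A a + co A (lv A z)‖ + ‖co A (D • (u : EuclideanSpace ℝ (Fin n)))‖ :=
              norm_add_le _ _
          _ ≤ ‖co A a‖ + ‖co A (lv A z)‖ + ‖co A (D • (u : EuclideanSpace ℝ (Fin n)))‖ :=
              add_le_add_left (norm_add_le _ _) _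
          _ ≤ R := by rw [hR, hM]; linarith
      show F (a + lv A z + D • (u : EuclideanSpace ℝ (Fin n))) +
        wg A τ R (a + lv A z + D • (u : EuclideanSpace ℝ (Fin n))) = _
      rw [h1, add_zero]
      have h2 : a + lv A z + D • (u : EuclideanSpace ℝ (Fin n)) =
        (a + D • (u : EuclideanSpace ℝ (Fin n))) + lv A z := by abel
      rw [h2, hp]
    rw [Finset.sum_congr rfl fun z hz => by rw [hval z hz], Finset.sum_const, nsmul_eq_mul] at hkey
    have hint := wg_int hA hFc.measurable hp hτp hR0 (by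
      rw [div_le_iff₀ (by positivity)]
      rw [div_lt_iff₀ hτp] at hk2
      have : (k : ℝ) * τ ≤ τ * (R + 1) := by
        rw [hR]; nlinarith
      linarith)
    have h1 := hkey.trans (mul_le_mul_right hint _)
    set m := ∫⁻ y in cb (0 : Fin n → ℤ), ENNReal.ofReal (Real.exp (-F (pt A y))) with hm
    have hBne : (Bx.card : ENNReal) = ENNReal.ofReal ((2 * k + 1) ^ n) := by
      rw [← hBc, ENNReal.ofReal_natCast]
    rw [hBne] at h1
    have hpk : (0 : ℝ) < (2 * k + 1) ^ n := by positivity
    have h2 : ENNReal.ofReal (Real.exp (-sphMean F a D)) ≤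
        ENNReal.ofReal (((2 * k + 1) ^ n)⁻¹) *
        (ENNReal.ofReal ((Real.exp (ε / 2) * √n / (Real.pi * D)) ^ n) *
        (ENNReal.ofReal (|A.det| * (2 * (2 * (R + 1)) ^ n)) * m)) := by
      have h3 := mul_le_mul_right h1 (ENNReal.ofReal (((2 * k + 1 : ℝ) ^ n)⁻¹))
      rw [← mul_assoc, ← ENNReal.ofReal_mul (inv_pos.mpr hpk).le, inv_mul_cancel₀ hpk.ne',
        ENNReal.ofReal_one, one_mul] at h3
      exact h3
    refine h2.trans ?_
    rw [← mul_assoc, ← mul_assoc, ← ENNReal.ofReal_mul (inv_pos.mpr hpk).le,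
      ← ENNReal.ofReal_mul (by positivity)]
    refine mul_le_mul_left (ENNReal.ofReal_le_ofReal ?_) _
    have h4 : (2 * (R + 1)) ^ n ≤ 2 * (2 * k + 1) ^ n := by
      have e1 : 2 * (R + 1) = (2 * k + 1) * (1 + (2 * M + 1) / (2 * k + 1)) := by
        rw [hR]; field_simp; ring
      rw [e1, mul_pow, mul_comm 2 ((2 * (k : ℝ) + 1) ^ n)]
      refine mul_le_mul_of_nonneg_left ?_ hpk.le
      have e2 : 1 + (2 * M + 1) / (2 * k + 1) ≤ Real.exp ((2 * M + 1) / (2 * k + 1)) := by
        have := Real.add_one_le_exp ((2 * M + 1) / (2 * (k : ℝ) + 1)); linarith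
      calc (1 + (2 * M + 1) / (2 * k + 1)) ^ n ≤ Real.exp ((2 * M + 1) / (2 * k + 1)) ^ n :=
            pow_le_pow_left₀ (by positivity) e2 n
        _ = Real.exp (n * ((2 * M + 1) / (2 * k + 1))) := (Real.exp_nat_mul _ _).symm
        _ ≤ Real.exp (1 / 2) := by
            refine Real.exp_le_exp.mpr ?_
            rw [mul_div_assoc', div_le_iff₀ (by positivity)]
            nlinarith
        _ ≤ 2 := by
            have e3 : Real.exp (1 / 2) ^ 2 = Real.exp 1 := by
              rw [← Real.exp_nat_mul]; norm_num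
            have e4 := Real.exp_one_lt_d9
            have e5 := Real.exp_pos (1 / 2)
            nlinarith
    have hdet := abs_nonneg A.det
    have hq : 0 ≤ (Real.exp (ε / 2) * √n / (Real.pi * D)) ^ n := by positivity
    calc ((2 * k + 1 : ℝ) ^ n)⁻¹ * (Real.exp (ε / 2) * √n / (Real.pi * D)) ^ n *
          (|A.det| * (2 * (2 * (R + 1)) ^ n))
        ≤ ((2 * k + 1 : ℝ) ^ n)⁻¹ * (Real.exp (ε / 2) * √n / (Real.pi * D)) ^ n *
          (|A.det| * (2 * (2 * (2 * k + 1) ^ n))) := by
          refine mul_le_mul_of_nonneg_left ?_ (by positivity)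
          refine mul_le_mul_of_nonneg_left ?_ hdet
          linarith
      _ = 4 * (Real.exp (ε / 2) * √n / (Real.pi * D)) ^ n * |A.det| := by
          field_simp
          ring
      _ ≤ Real.exp (n * (ε / 2)) * (Real.exp (ε / 2) * √n / (Real.pi * D)) ^ n * |A.det| := by
          refine mul_le_mul_of_nonneg_right ?_ hdet
          exact mul_le_mul_of_nonneg_right (hn1 n hn1') hq
      _ = (Real.exp ε * √n / (Real.pi * D)) ^ n * |A.det| := by
          congr 1
          rw [Real.exp_nat_mul, ← mul_pow]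
          congr 1
          have : Real.exp ε = Real.exp (ε / 2) * Real.exp (ε / 2) := by
            rw [← Real.exp_add]; congr 1; ring
          rw [this]
          ring
  · intro x y
    have h1 := hF x y
    have h2 := wg_lip (R := R) hτp.le hcb x y
    have h3 : τ * c = n / D := by rw [hτ]; field_simp
    rw [h3] at h2
    have h4 : |F x + wg A τ R x - (F y + wg A τ R y)| ≤ |F x - F y| +
        |wg A τ R x - wg A τ R y| := by
      have : F x + wg A τ R x - (F y + wg A τ R y) = (F x - F y) +
        (wg A τ R x - wg A τ R y) := by ring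
      rw [this]
      exact abs_add_le _ _
    calc _ ≤ K * n / D * ‖x - y‖ + n / D * ‖x - y‖ := h4.trans (add_le_add h1 h2)
      _ = _ := by ring
  · intro p hp1 p' hp1' hne
    rw [Finset.mem_image] at hp1 hp1'
    obtain ⟨z, _, rfl⟩ := hp1
    obtain ⟨w, _, rfl⟩ := hp1'
    have hzw : z - w ≠ 0 := by
      intro h
      exact hne (by rw [sub_eq_zero.mp h])
    rw [add_sub_add_left_eq_sub, lv_sub]
    exact hmin _ hzw

end Pool.Agent.H712.NP
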