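import Pool.Agent.H712.NP.LatB

/-! Lattice points near typical points at distance `λ₁`. -/

set_option linter.unusedSectionVars false

open Finset MeasureTheory Filter

namespace Pool.Agent.H712.NP

variable {n : ℕ}

/-- number of lattice points at distance at most `D` -/
noncomputable def latNear (A : Matrix (Fin n) (Fin n) ℝ) (D : ℝ) (y : EuclideanSpace ℝ (Fin n)) :
    ℕ := {z : Fin n → ℤ | ‖y - lv A z‖ ≤ D}.ncard

lemma lv_zero (A : Matrix (Fin n) (Fin n) ℝ) : lv A 0 = 0 := by
  unfold lv pt
  have : (fun i : Fin n => (((0 : Fin n → ℤ) i : ℤ) : ℝ)) = 0 := by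
    funext i; simp
  rw [this, Matrix.mulVec_zero]
  rfl

lemma latNear_shift (A : Matrix (Fin n) (Fin n) ℝ) (D : ℝ) (y : EuclideanSpace ℝ (Fin n))
    (w : Fin n → ℤ) : latNear A D (lv A w + y) = latNear A D y := by
  unfold latNear
  refine Set.ncard_congr (fun z _ => z - w) ?_ ?_ ?_
  · intro z hz
    have hz' : ‖lv A w + y - lv A z‖ ≤ D := hz
    show ‖y - lv A (z - w)‖ ≤ D
    rw [← lv_sub]
    have : y - (lv A z - lv A w) = lv A w + y - lv A z := by abel
    rw [this]; exact hz'
  · intro z z' _ _ h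
    exact sub_left_inj.mp h
  · intro z hz
    refine ⟨z + w, ?_, add_sub_cancel_right z w⟩
    have hz' : ‖y - lv A z‖ ≤ D := hz
    show ‖lv A w + y - lv A (z + w)‖ ≤ D
    have : lv A w + y - lv A (z + w) = y - (lv A (z + w) - lv A w) := by abel
    rw [this, lv_sub, add_sub_cancel_right]
    exact hz'

theorem lattice_near {ε : ℝ} (hε : 0 < ε) : ∃ n0 : ℕ, ∀ n ≥ n0,
    ∀ (A : Matrix (Fin n) (Fin n) ℝ), A.det ≠ 0 → ∀ D : ℝ, 0 < D →
    (∀ z : Fin n → ℤ, z ≠ 0 → D ≤ ‖lv A z‖) →
    Real.exp (sphMean (fun y => Real.log (latNear A D y)) 0 D) ≤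
      (Real.exp ε * √(2 * Real.exp 1 / Real.pi)) ^ n := by
  classical
  obtain ⟨n0, H⟩ := neighbours (show 0 < ε / 2 by positivity)
  obtain ⟨n1, hn1⟩ : ∃ n1 : ℕ, ∀ n ≥ n1, (2 : ℝ) ≤ Real.exp (n * (ε / 2)) := by
    have h1 : Tendsto (fun n : ℕ => Real.exp (n * (ε / 2))) atTop atTop :=
      Real.tendsto_exp_atTop.comp
        (tendsto_natCast_atTop_atTop.atTop_mul_const (by positivity))
    exact eventually_atTop.mp (h1.eventually_ge_atTop _)
  refine ⟨max (max n0 n1) 1, fun n hn A hA D hD hmin => ?_⟩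
  have hn0 : n0 ≤ n := le_trans (le_trans (le_max_left _ _) (le_max_left _ _)) hn
  have hn1' : n1 ≤ n := le_trans (le_trans (le_max_right _ _) (le_max_left _ _)) hn
  have hnp : 0 < n := le_trans (le_max_right _ _) hn
  have hnpos : (0 : ℝ) < n := by exact_mod_cast hnp
  obtain ⟨c, hc, hcb⟩ := co_bound A
  obtain ⟨M, hM⟩ := exists_nat_gt (2 * (c * D))
  set G := Real.exp (sphMean (fun y => Real.log (latNear A D y)) 0 D) with hG
  -- the inner box has side `2 k + 1`, the outer one `2 (k + M) + 1`
  obtain ⟨k, hk⟩ := exists_nat_gt (4 * (n : ℝ) * M)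
  set Bx : ℕ → Finset (Fin n → ℤ) := fun j => Fintype.piFinset fun _ => Finset.Icc (-(j : ℤ)) j
    with hBx
  have hmem : ∀ (j : ℕ) (z : Fin n → ℤ), z ∈ Bx j ↔ ∀ i, |z i| ≤ j := by
    intro j z
    rw [hBx]
    simp only [Fintype.mem_piFinset, Finset.mem_Icc, abs_le]
  have hBc : ∀ j : ℕ, ((Bx j).card : ℝ) = (2 * j + 1) ^ n := by
    intro j
    rw [hBx]
    simp only [Fintype.card_piFinset, Int.card_Icc, Finset.prod_const, Finset.card_univ,
      Fintype.card_fin]
    have : ((j : ℤ) + 1 - -(j : ℤ)).toNat = 2 * j + 1 := by omega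
    rw [this]
    push_cast
    ring
  have hlvinj : ∀ z w : Fin n → ℤ, lv A z = lv A w → z = w := by
    intro z w h
    by_contra hne
    have h2 := hmin (z - w) (sub_ne_zero.mpr hne)
    rw [← lv_sub, h, sub_self, norm_zero] at h2
    linarith
  set C := (Bx (k + M)).image (lv A) with hC
  have hinj : Set.InjOn (lv A) (Bx (k + M) : Set (Fin n → ℤ)) := fun z _ w _ h => hlvinj z w h
  have hkey := H n hn0 D hD C (fun _ => 1) ?_ (fun _ _ => one_pos)
  · rw [Finset.sum_const, hC, Finset.card_image_of_injOn hinj, nsmul_eq_mul, mul_one,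
      Finset.sum_image hinj] at hkey
    -- inner points
    have hval : ∀ w ∈ Bx k, Real.exp (sphMean (fun y => Real.log
        (near D ((Bx (k + M)).image (lv A)) (fun _ => 1) y)) (lv A w) D) = G := by
      intro w hw
      rw [hG]
      congr 1
      unfold sphMean
      congr 1
      funext u
      have hu : ‖(u : EuclideanSpace ℝ (Fin n))‖ = 1 := by simp
      set y := D • (u : EuclideanSpace ℝ (Fin n)) with hy
      have hyn : ‖y‖ = D := by
        rw [hy, norm_smul, hu, mul_one, Real.norm_eq_abs, abs_of_pos hD]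
      show Real.log (near D ((Bx (k + M)).image (lv A)) (fun _ => 1) (lv A w + y)) =
        Real.log (latNear A D (0 + y))
      congr 1
      rw [zero_add, ← latNear_shift A D y w]
      unfold near latNear
      rw [Finset.sum_image hinj, ← Finset.sum_filter, Finset.sum_const, nsmul_eq_mul, mul_one]
      congr 1
      rw [← Set.ncard_coe_finset]
      congr 1
      ext z
      simp only [Finset.coe_filter, Set.mem_setOf_eq]
      constructor
      · exact fun h => h.2
      · intro h
        refine ⟨?_, h⟩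
        rw [hmem]
        intro i
        have e1 : co A (lv A w + y - lv A z) = (fun i => ((w i : ℝ) - z i)) + co A y := by
          rw [co_sub, co_add]
          unfold lv
          rw [co_pt hA, co_pt hA]
          funext j
          simp only [Pi.add_apply, Pi.sub_apply]
          ring
        have e2 := hcb (lv A w + y - lv A z)
        rw [e1] at e2
        have e3 := (norm_le_pi_norm _ i).trans e2
        have e4 := (norm_le_pi_norm (co A y) i).trans (hcb y)
        rw [hyn] at e4
        simp only [Pi.add_apply, Real.norm_eq_abs] at e3 e4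
        have e5 : c * ‖lv A w + y - lv A z‖ ≤ c * D := mul_le_mul_of_nonneg_left h hc.le
        have e6 := abs_le.mp (e3.trans e5)
        have e7 := abs_le.mp e4
        have e8 := abs_le.mp ((hmem k w).mp hw i)
        have e9 : (-(k : ℝ)) ≤ w i := by exact_mod_cast e8.1
        have e10 : (w i : ℝ) ≤ k := by exact_mod_cast e8.2
        have e11 : (z i : ℝ) < ((k + M : ℕ) : ℝ) := by push_cast; linarith
        have e12 : -((k + M : ℕ) : ℝ) < z i := by push_cast; linarith
        rw [abs_le]
        constructor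
        · have : (-((k + M : ℕ) : ℤ)) < z i := by exact_mod_cast e12
          exact this.le
        · have : z i < ((k + M : ℕ) : ℤ) := by exact_mod_cast e11
          exact this.le
    have hsub : Bx k ⊆ Bx (k + M) := by
      intro z hz
      rw [hmem] at hz ⊢
      intro i
      have := hz i
      push_cast
      linarith [Int.natCast_nonneg M]
    have h1 : ((Bx k).card : ℝ) * G ≤ ((Bx (k + M)).card : ℝ) *
        (Real.exp (ε / 2) * √(2 * Real.exp 1 / Real.pi)) ^ n := by
      refine le_trans ?_ hkey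
      rw [← nsmul_eq_mul, ← Finset.sum_const]
      calc ∑ _w ∈ Bx k, G = ∑ w ∈ Bx k, Real.exp (sphMean (fun y => Real.log
            (near D ((Bx (k + M)).image (lv A)) (fun _ => 1) y)) (lv A w) D) :=
            Finset.sum_congr rfl fun w hw => (hval w hw).symm
        _ ≤ _ := Finset.sum_le_sum_of_subset_of_nonneg hsub fun _ _ _ => (Real.exp_pos _).le
    rw [hBc, hBc] at h1
    have hk0 : (0 : ℝ) ≤ k := Nat.cast_nonneg k
    have hM0 : (0 : ℝ) ≤ M := Nat.cast_nonneg M
    have hpk : (0 : ℝ) < (2 * k + 1) ^ n := by positivity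
    have h4 : (2 * ((k + M : ℕ) : ℝ) + 1) ^ n ≤ (2 * k + 1) ^ n * 2 := by
      have e1 : 2 * ((k + M : ℕ) : ℝ) + 1 = (2 * k + 1) * (1 + 2 * M / (2 * k + 1)) := by
        push_cast; field_simp; ring
      rw [e1, mul_pow]
      refine mul_le_mul_of_nonneg_left ?_ hpk.le
      have e2 : 1 + 2 * M / (2 * k + 1) ≤ Real.exp (2 * M / (2 * k + 1)) := by
        have := Real.add_one_le_exp (2 * (M : ℝ) / (2 * (k : ℝ) + 1)); linarith
      calc (1 + 2 * (M : ℝ) / (2 * k + 1)) ^ n ≤ Real.exp (2 * M / (2 * k + 1)) ^ n :=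
            pow_le_pow_left₀ (by positivity) e2 n
        _ = Real.exp (n * (2 * M / (2 * k + 1))) := (Real.exp_nat_mul _ _).symm
        _ ≤ Real.exp (1 / 2) := by
            refine Real.exp_le_exp.mpr ?_
            rw [mul_div_assoc', div_le_iff₀ (by positivity)]
            nlinarith
        _ ≤ 2 := by
            have e3 : Real.exp (1 / 2) ^ 2 = Real.exp 1 := by
              rw [← Real.exp_nat_mul]; norm_num
            have e4 := Real.exp_one_lt_d9
            have e5 := Real.exp_pos (1 / 2)
            nlinarith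
    set q := (Real.exp (ε / 2) * √(2 * Real.exp 1 / Real.pi)) ^ n with hq
    have hq0 : 0 ≤ q := by positivity
    have h5 : (2 * (k : ℝ) + 1) ^ n * G ≤ (2 * k + 1) ^ n * (2 * q) := by
      calc _ ≤ (2 * ((k + M : ℕ) : ℝ) + 1) ^ n * q := h1
        _ ≤ ((2 * k + 1) ^ n * 2) * q := mul_le_mul_of_nonneg_right h4 hq0
        _ = _ := by ring
    have h6 := le_of_mul_le_mul_left h5 hpk
    refine h6.trans ?_
    calc 2 * q ≤ Real.exp (n * (ε / 2)) * q := mul_le_mul_of_nonneg_right (hn1 n hn1') hq0
      _ = _ := by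
          rw [hq, Real.exp_nat_mul, ← mul_pow]
          congr 1
          rw [← mul_assoc, ← Real.exp_add]
          congr 2
          ring
  · intro p hp p' hp' hne
    rw [hC, Finset.mem_image] at hp hp'
    obtain ⟨z, _, rfl⟩ := hp
    obtain ⟨w, _, rfl⟩ := hp'
    rw [lv_sub]
    refine hmin _ fun h => hne ?_
    rw [sub_eq_zero.mp h]

end Pool.Agent.H712.NP
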