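import Pool.Agent.H712.NP.Scale
import Pool.Graph.R_seed8.H390R2.LP.EuclidA

/-! Points of a packing near typical points at the minimal distance. -/

set_option linter.unusedSectionVars false

open Finset MeasureTheory Filter

namespace Pool.Agent.H712.NP

variable {n : ℕ}

/-- minus the logarithm of the kernel -/
noncomputable def kf (n : ℕ) (D : ℝ) (z : EuclideanSpace ℝ (Fin n)) : ℝ :=
  2 * n / D * max (‖z‖ - D) 0

lemma kf_lip {D : ℝ} (hD : 0 < D) (z w : EuclideanSpace ℝ (Fin n)) :
    |kf n D z - kf n D w| ≤ 2 * n / D * ‖z - w‖ := by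
  have h0 : 0 ≤ 2 * (n : ℝ) / D := by positivity
  unfold kf
  rw [← mul_sub, abs_mul, abs_of_nonneg h0]
  refine mul_le_mul_of_nonneg_left ?_ h0
  have h1 := abs_max_sub_max_le_abs (‖z‖ - D) (‖w‖ - D) 0
  have h2 := abs_norm_sub_norm_le z w
  refine h1.trans ?_
  rwa [sub_sub_sub_cancel_right]

lemma kf_nonneg {D : ℝ} (hD : 0 < D) (z : EuclideanSpace ℝ (Fin n)) : 0 ≤ kf n D z := by
  unfold kf
  have h0 : 0 ≤ 2 * (n : ℝ) / D := by positivity
  exact mul_nonneg h0 (le_max_right _ _)

lemma kf_zero {D : ℝ} {z : EuclideanSpace ℝ (Fin n)} (hz : ‖z‖ ≤ D) : kf n D z = 0 := by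
  unfold kf
  rw [max_eq_right (by linarith), mul_zero]

lemma kf_cont {D : ℝ} : Continuous (kf n D) := by
  unfold kf
  fun_prop

/-- volume bound of the ball of radius `D` -/
noncomputable def bv (n : ℕ) (D : ℝ) : ℝ := (√(2 * Real.pi * Real.exp 1 / n) * D) ^ n

lemma bv_nonneg (n : ℕ) {D : ℝ} (hD : 0 < D) : 0 ≤ bv n D := by
  unfold bv; positivity

lemma kf_int (hn : 0 < n) {D : ℝ} (hD : 0 < D) :
    ∫⁻ z : EuclideanSpace ℝ (Fin n), ENNReal.ofReal (Real.exp (-kf n D z)) ≤
      ENNReal.ofReal (2 * bv n D) := by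
  have hn' : (0 : ℝ) < n := by exact_mod_cast hn
  have hnD : 0 < 2 * (n : ℝ) / D := by positivity
  have h1 := layer (volume : Measure (EuclideanSpace ℝ (Fin n)))
    (kf_cont (n := n) (D := D)).measurable 0
  simp only [sub_zero, add_zero] at h1
  rw [← h1]
  have h2 : ∀ B : ℝ, ENNReal.ofReal (Real.exp (-B)) *
      volume {x : EuclideanSpace ℝ (Fin n) | kf n D x < B} ≤
      Set.indicator (Set.Ioi 0) (fun B => ENNReal.ofReal (bv n D * Real.exp ((-1 / 2) * B))) B := by
    intro B
    by_cases hB : 0 < B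
    · rw [Set.indicator_of_mem (show B ∈ Set.Ioi 0 from hB)]
      have h3 : {x : EuclideanSpace ℝ (Fin n) | kf n D x < B} ⊆
          Metric.ball 0 (D * (1 + B / (2 * n))) := by
        intro x hx
        have hx' : kf n D x < B := hx
        rw [mem_ball_zero_iff]
        have h4 : 2 * n / D * (‖x‖ - D) < B :=
          lt_of_le_of_lt (mul_le_mul_of_nonneg_left (le_max_left _ _) hnD.le) hx'
        have h5 : ‖x‖ - D < B * (D / (2 * n)) := by
          rw [div_mul_eq_mul_div, div_lt_iff₀ hD] at h4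
          rw [mul_div_assoc', lt_div_iff₀ (by positivity)]
          linarith
        have h6 : D * (1 + B / (2 * n)) = D + B * (D / (2 * n)) := by ring
        rw [h6]; linarith
      have h4 := (measure_mono h3 : volume _ ≤ volume _).trans
        (Pool.Agent.H390R2.LP.volume_ball_le n hn 0 (D * (1 + B / (2 * n))) (by positivity))
      calc ENNReal.ofReal (Real.exp (-B)) *
            volume {x : EuclideanSpace ℝ (Fin n) | kf n D x < B}
          ≤ ENNReal.ofReal (Real.exp (-B)) * ENNReal.ofReal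
            ((√(2 * Real.pi * Real.exp 1 / n) * (D * (1 + B / (2 * n)))) ^ n) :=
            mul_le_mul_right h4 _
        _ = ENNReal.ofReal (Real.exp (-B) *
            ((√(2 * Real.pi * Real.exp 1 / n) * (D * (1 + B / (2 * n)))) ^ n)) := by
            rw [← ENNReal.ofReal_mul (Real.exp_pos _).le]
        _ ≤ _ := by
            refine ENNReal.ofReal_le_ofReal ?_
            have h5 : (1 + B / (2 * n)) ^ n ≤ Real.exp (B / 2) := by
              have h6 : 1 + B / (2 * n) ≤ Real.exp (B / (2 * n)) := by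
                have := Real.add_one_le_exp (B / (2 * n)); linarith
              calc (1 + B / (2 * n)) ^ n ≤ Real.exp (B / (2 * n)) ^ n :=
                    pow_le_pow_left₀ (by positivity) h6 n
                _ = Real.exp (n * (B / (2 * n))) := (Real.exp_nat_mul _ _).symm
                _ = Real.exp (B / 2) := by congr 1; field_simp
            have h7 : (√(2 * Real.pi * Real.exp 1 / n) * (D * (1 + B / (2 * n)))) ^ n =
                bv n D * (1 + B / (2 * n)) ^ n := by
              unfold bv; rw [← mul_pow]; congr 1; ring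
            rw [h7]
            calc Real.exp (-B) * (bv n D * (1 + B / (2 * n)) ^ n)
                ≤ Real.exp (-B) * (bv n D * Real.exp (B / 2)) :=
                  mul_le_mul_of_nonneg_left (mul_le_mul_of_nonneg_left h5 (bv_nonneg n hD))
                    (Real.exp_pos _).le
              _ = bv n D * (Real.exp (-B) * Real.exp (B / 2)) := by ring
              _ = bv n D * Real.exp ((-1 / 2) * B) := by
                  rw [← Real.exp_add]; congr 2; ring
    · rw [Set.indicator_of_notMem (show B ∉ Set.Ioi 0 from hB)]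
      have h3 : {x : EuclideanSpace ℝ (Fin n) | kf n D x < B} = ∅ := by
        ext x
        simp only [Set.mem_empty_iff_false, iff_false]
        intro hx
        have hx' : kf n D x < B := hx
        exact hB ((kf_nonneg hD x).trans_lt hx')
      rw [h3, measure_empty, mul_zero]
  refine (lintegral_mono h2).trans ?_
  rw [lintegral_indicator measurableSet_Ioi]
  have h3 : IntegrableOn (fun B : ℝ => bv n D * Real.exp ((-1 / 2) * B)) (Set.Ioi 0) :=
    (integrableOn_exp_mul_Ioi (by norm_num) 0).const_mul _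
  rw [← ofReal_integral_eq_lintegral_ofReal h3
    (ae_of_all _ fun _ => mul_nonneg (bv_nonneg n hD) (Real.exp_pos _).le)]
  refine ENNReal.ofReal_le_ofReal (le_of_eq ?_)
  rw [integral_const_mul, integral_exp_mul_Ioi (by norm_num)]
  simp
  ring

/-- mixture of kernels -/
noncomputable def mix (D : ℝ) (C : Finset (EuclideanSpace ℝ (Fin n)))
    (p : EuclideanSpace ℝ (Fin n) → ℝ) (y : EuclideanSpace ℝ (Fin n)) : ℝ :=
  ∑ c ∈ C, p c * Real.exp (-kf n D (y - c))

lemma mix_pos {D : ℝ} {C : Finset (EuclideanSpace ℝ (Fin n))} (hC : C.Nonempty)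
    {p : EuclideanSpace ℝ (Fin n) → ℝ} (hp : ∀ c ∈ C, 0 < p c) (y : EuclideanSpace ℝ (Fin n)) :
    0 < mix D C p y :=
  Finset.sum_pos (fun c hc => mul_pos (hp c hc) (Real.exp_pos _)) hC

lemma mix_le {D : ℝ} (hD : 0 < D) {C : Finset (EuclideanSpace ℝ (Fin n))}
    {p : EuclideanSpace ℝ (Fin n) → ℝ} (hp : ∀ c ∈ C, 0 < p c)
    (x y : EuclideanSpace ℝ (Fin n)) :
    mix D C p x ≤ Real.exp (2 * n / D * ‖x - y‖) * mix D C p y := by
  unfold mix
  rw [Finset.mul_sum]
  refine Finset.sum_le_sum fun c hc => ?_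
  rw [mul_left_comm]
  refine mul_le_mul_of_nonneg_left ?_ (hp c hc).le
  rw [← Real.exp_add]
  refine Real.exp_le_exp.mpr ?_
  have h := (abs_le.mp (kf_lip hD (x - c) (y - c))).1
  rw [sub_sub_sub_cancel_right] at h
  linarith

lemma mix_lip {D : ℝ} (hD : 0 < D) {C : Finset (EuclideanSpace ℝ (Fin n))} (hC : C.Nonempty)
    {p : EuclideanSpace ℝ (Fin n) → ℝ} (hp : ∀ c ∈ C, 0 < p c)
    (x y : EuclideanSpace ℝ (Fin n)) :
    |Real.log (mix D C p x) - Real.log (mix D C p y)| ≤ 2 * n / D * ‖x - y‖ := by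
  have key : ∀ x y : EuclideanSpace ℝ (Fin n),
      Real.log (mix D C p x) - Real.log (mix D C p y) ≤ 2 * n / D * ‖x - y‖ := by
    intro x y
    have h1 := Real.log_le_log (mix_pos hC hp x) (mix_le hD hp x y)
    rw [Real.log_mul (Real.exp_pos _).ne' (mix_pos hC hp y).ne', Real.log_exp] at h1
    linarith
  rw [abs_le]
  constructor
  · have := key y x
    rw [norm_sub_rev] at this
    linarith
  · exact key x y

lemma mix_int (hn : 0 < n) {D : ℝ} (hD : 0 < D) {C : Finset (EuclideanSpace ℝ (Fin n))}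
    {p : EuclideanSpace ℝ (Fin n) → ℝ} (hp : ∀ c ∈ C, 0 < p c) :
    ∫⁻ y, ENNReal.ofReal (mix D C p y) ≤ ENNReal.ofReal ((∑ c ∈ C, p c) * (2 * bv n D)) := by
  have h1 : ∀ y, ENNReal.ofReal (mix D C p y) =
      ∑ c ∈ C, ENNReal.ofReal (p c) * ENNReal.ofReal (Real.exp (-kf n D (y - c))) := by
    intro y
    unfold mix
    rw [ENNReal.ofReal_sum_of_nonneg fun c hc => mul_nonneg (hp c hc).le (Real.exp_pos _).le]
    exact Finset.sum_congr rfl fun c hc => ENNReal.ofReal_mul (hp c hc).le
  simp only [h1]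
  have hm : ∀ c : EuclideanSpace ℝ (Fin n), Measurable (fun y : EuclideanSpace ℝ (Fin n) =>
      ENNReal.ofReal (Real.exp (-kf n D (y - c)))) := by
    intro c
    exact ENNReal.measurable_ofReal.comp (Real.measurable_exp.comp
      ((kf_cont.comp (continuous_id.sub continuous_const)).measurable.neg))
  rw [lintegral_finsetSum _ fun c _ => (hm c).const_mul _]
  have h2 : ∀ c ∈ C, ∫⁻ y, ENNReal.ofReal (p c) *
      ENNReal.ofReal (Real.exp (-kf n D (y - c))) ≤
      ENNReal.ofReal (p c) * ENNReal.ofReal (2 * bv n D) := by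
    intro c _
    rw [lintegral_const_mul _ (hm c)]
    refine mul_le_mul_right ?_ _
    rw [lintegral_sub_right_eq_self
      (fun y : EuclideanSpace ℝ (Fin n) => ENNReal.ofReal (Real.exp (-kf n D y))) c]
    exact kf_int hn hD
  refine (Finset.sum_le_sum h2).trans (le_of_eq ?_)
  rw [← Finset.sum_mul, ENNReal.ofReal_mul (Finset.sum_nonneg fun c hc => (hp c hc).le),
    ENNReal.ofReal_sum_of_nonneg fun c hc => (hp c hc).le]

/-- mass of the points at distance at most `D` -/
noncomputable def near (D : ℝ) (C : Finset (EuclideanSpace ℝ (Fin n)))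
    (p : EuclideanSpace ℝ (Fin n) → ℝ) (y : EuclideanSpace ℝ (Fin n)) : ℝ :=
  ∑ c ∈ C, if ‖y - c‖ ≤ D then p c else 0

lemma near_le {D : ℝ} {C : Finset (EuclideanSpace ℝ (Fin n))}
    {p : EuclideanSpace ℝ (Fin n) → ℝ} (hp : ∀ c ∈ C, 0 < p c) (y : EuclideanSpace ℝ (Fin n)) :
    near D C p y ≤ mix D C p y := by
  unfold near mix
  refine Finset.sum_le_sum fun c hc => ?_
  split_ifs with h
  · rw [kf_zero h, neg_zero, Real.exp_zero, mul_one]
  · exact mul_nonneg (hp c hc).le (Real.exp_pos _).le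

lemma near_ge {D : ℝ} {C : Finset (EuclideanSpace ℝ (Fin n))}
    {p : EuclideanSpace ℝ (Fin n) → ℝ} (hp : ∀ c ∈ C, 0 < p c) {y c : EuclideanSpace ℝ (Fin n)}
    (hc : c ∈ C) (h : ‖y - c‖ ≤ D) : p c ≤ near D C p y := by
  unfold near
  have h1 := Finset.single_le_sum (f := fun c => if ‖y - c‖ ≤ D then p c else 0)
    (fun i hi => by
      split_ifs
      · exact (hp i hi).le
      · exact le_refl _) hc
  rw [if_pos h] at h1
  exact h1

lemma near_meas {D : ℝ} {C : Finset (EuclideanSpace ℝ (Fin n))}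
    {p : EuclideanSpace ℝ (Fin n) → ℝ} : Measurable (near D C p) := by
  unfold near
  refine Finset.measurable_sum _ fun c _ => ?_
  refine Measurable.ite (measurableSet_le ?_ measurable_const) measurable_const measurable_const
  exact (measurable_id.sub_const c).norm

lemma near_mean {D : ℝ} (hD : 0 < D) {C : Finset (EuclideanSpace ℝ (Fin n))}
    {p : EuclideanSpace ℝ (Fin n) → ℝ} (hp : ∀ c ∈ C, 0 < p c) {c : EuclideanSpace ℝ (Fin n)}
    (hc : c ∈ C) :
    sphMean (fun y => Real.log (near D C p y)) c D ≤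
      sphMean (fun y => Real.log (mix D C p y)) c D := by
  have hC : C.Nonempty := ⟨c, hc⟩
  have hdist : ∀ u : Metric.sphere (0 : EuclideanSpace ℝ (Fin n)) 1,
      ‖(c + D • (u : EuclideanSpace ℝ (Fin n))) - c‖ ≤ D := by
    intro u
    have hu : ‖(u : EuclideanSpace ℝ (Fin n))‖ = 1 := by simp
    rw [add_sub_cancel_left, norm_smul, hu, mul_one, Real.norm_eq_abs, abs_of_pos hD]
  have hlow : ∀ u : Metric.sphere (0 : EuclideanSpace ℝ (Fin n)) 1,
      p c ≤ near D C p (c + D • (u : EuclideanSpace ℝ (Fin n))) := fun u =>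
    near_ge hp hc (hdist u)
  have hup : ∀ y, near D C p y ≤ ∑ c ∈ C, p c := by
    intro y
    unfold near
    refine Finset.sum_le_sum fun i hi => ?_
    split_ifs
    · exact le_refl _
    · exact (hp i hi).le
  unfold sphMean
  rw [average_eq, average_eq, smul_eq_mul, smul_eq_mul]
  refine mul_le_mul_of_nonneg_left ?_ (inv_nonneg.mpr measureReal_nonneg)
  have hcont : Continuous (fun u : Metric.sphere (0 : EuclideanSpace ℝ (Fin n)) 1 =>
      c + D • (u : EuclideanSpace ℝ (Fin n))) := by fun_prop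
  refine integral_mono ?_ ?_ fun u => ?_
  · refine Integrable.of_bound ((Real.measurable_log.comp (near_meas.comp
      hcont.measurable)).aestronglyMeasurable)
      (max |Real.log (p c)| |Real.log (∑ c ∈ C, p c)|) (ae_of_all _ fun u => ?_)
    have h1 := Real.log_le_log (hp c hc) (hlow u)
    have h2 := Real.log_le_log ((hp c hc).trans_le (hlow u)) (hup _)
    show |Real.log (near D C p (c + D • (u : EuclideanSpace ℝ (Fin n))))| ≤ _
    exact abs_le_max_abs_abs h1 h2
  · have h1 : Continuous (mix D C p) := by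
      unfold mix
      refine continuous_finsetSum _ fun c _ => continuous_const.mul ?_
      exact Real.continuous_exp.comp ((kf_cont.comp (continuous_id.sub continuous_const)).neg)
    have h2 : Continuous (fun u : Metric.sphere (0 : EuclideanSpace ℝ (Fin n)) 1 =>
        Real.log (mix D C p (c + D • (u : EuclideanSpace ℝ (Fin n))))) :=
      (h1.comp hcont).log fun u => (mix_pos hC hp _).ne'
    exact h2.integrable_of_hasCompactSupport (HasCompactSupport.of_compactSpace _)
  · exact Real.log_le_log ((hp c hc).trans_le (hlow u)) (near_le hp _)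

theorem neighbours {ε : ℝ} (hε : 0 < ε) : ∃ n0 : ℕ, ∀ n ≥ n0, ∀ D : ℝ, 0 < D →
    ∀ (C : Finset (EuclideanSpace ℝ (Fin n))) (p : EuclideanSpace ℝ (Fin n) → ℝ),
    (∀ c ∈ C, ∀ c' ∈ C, c ≠ c' → D ≤ ‖c - c'‖) → (∀ c ∈ C, 0 < p c) →
    ∑ c ∈ C, Real.exp (sphMean (fun y => Real.log (near D C p y)) c D) ≤
      (∑ c ∈ C, p c) * (Real.exp ε * √(2 * Real.exp 1 / Real.pi)) ^ n := by
  obtain ⟨n0, H⟩ := functional (K := 2) (by norm_num) (show 0 < ε / 2 by positivity)
  obtain ⟨n1, hn1⟩ : ∃ n1 : ℕ, ∀ n ≥ n1, (2 : ℝ) ≤ Real.exp (n * (ε / 2)) := by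
    have h1 : Tendsto (fun n : ℕ => Real.exp (n * (ε / 2))) atTop atTop :=
      Real.tendsto_exp_atTop.comp
        (tendsto_natCast_atTop_atTop.atTop_mul_const (by positivity))
    exact eventually_atTop.mp (h1.eventually_ge_atTop _)
  refine ⟨max (max n0 n1) 1, fun n hn D hD C p hd hp => ?_⟩
  have hn0 : n0 ≤ n := le_trans (le_trans (le_max_left _ _) (le_max_left _ _)) hn
  have hn1' : n1 ≤ n := le_trans (le_trans (le_max_right _ _) (le_max_left _ _)) hn
  have hnp : 0 < n := le_trans (le_max_right _ _) hn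
  have hnpos : (0 : ℝ) < n := by exact_mod_cast hnp
  rcases C.eq_empty_or_nonempty with hC | hC
  · rw [hC]; simp
  have h1 := H n hn0 D hD C (fun y => -Real.log (mix D C p y)) (by
    intro x y
    have := mix_lip hD hC hp x y
    rw [show -Real.log (mix D C p x) - -Real.log (mix D C p y) =
      -(Real.log (mix D C p x) - Real.log (mix D C p y)) by ring, abs_neg]
    exact this) hd
  have h2 : ∀ y, Real.exp (Real.log (mix D C p y)) = mix D C p y := fun y =>
    Real.exp_log (mix_pos hC hp y)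
  simp only [sphMean_neg, neg_neg, h2] at h1
  have h3 := h1.trans (mul_le_mul_right (mix_int hnp hD hp) _)
  have hps : 0 ≤ ∑ c ∈ C, p c := Finset.sum_nonneg fun c hc => (hp c hc).le
  rw [← ENNReal.ofReal_sum_of_nonneg fun _ _ => (Real.exp_pos _).le,
    ← ENNReal.ofReal_mul (by positivity)] at h3
  have hR : 0 ≤ (Real.exp (ε / 2) * √n / (Real.pi * D)) ^ n *
      ((∑ c ∈ C, p c) * (2 * bv n D)) := by
    have := bv_nonneg n hD
    positivity
  have h4 := (ENNReal.ofReal_le_ofReal_iff hR).mp h3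
  have h5 : ∑ c ∈ C, Real.exp (sphMean (fun y => Real.log (near D C p y)) c D) ≤
      ∑ c ∈ C, Real.exp (sphMean (fun y => Real.log (mix D C p y)) c D) :=
    Finset.sum_le_sum fun c hc => Real.exp_le_exp.mpr (near_mean hD hp hc)
  refine h5.trans (h4.trans ?_)
  have h6 : (Real.exp (ε / 2) * √n / (Real.pi * D)) ^ n * bv n D =
      (Real.exp (ε / 2) * √(2 * Real.exp 1 / Real.pi)) ^ n := by
    unfold bv
    rw [← mul_pow]
    congr 1
    have e1 : √(2 * Real.pi * Real.exp 1 / n) = √(2 * Real.exp 1 / Real.pi) * (Real.pi / √n) := by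
      have e2 : Real.pi / √(n : ℝ) = √(Real.pi ^ 2 / n) := by
        rw [Real.sqrt_div (by positivity), Real.sqrt_sq Real.pi_pos.le]
      rw [e2, ← Real.sqrt_mul (by positivity)]
      congr 1
      field_simp
    rw [e1]
    have hsn : 0 < √(n : ℝ) := Real.sqrt_pos.mpr hnpos
    field_simp
  calc (Real.exp (ε / 2) * √n / (Real.pi * D)) ^ n * ((∑ c ∈ C, p c) * (2 * bv n D))
      = (∑ c ∈ C, p c) * (2 * ((Real.exp (ε / 2) * √n / (Real.pi * D)) ^ n * bv n D)) := by ring
    _ = (∑ c ∈ C, p c) * (2 * (Real.exp (ε / 2) * √(2 * Real.exp 1 / Real.pi)) ^ n) := by rw [h6]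
    _ ≤ (∑ c ∈ C, p c) * (Real.exp (n * (ε / 2)) *
          (Real.exp (ε / 2) * √(2 * Real.exp 1 / Real.pi)) ^ n) := by
        refine mul_le_mul_of_nonneg_left (mul_le_mul_of_nonneg_right (hn1 n hn1') ?_) hps
        positivity
    _ = _ := by
        rw [Real.exp_nat_mul, ← mul_pow]
        congr 2
        rw [← mul_assoc, ← Real.exp_add]
        congr 2
        ring

end Pool.Agent.H712.NP
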