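import Pool.Agent.H712.NI.TiltEnergy
import Pool.Agent.H712.NI.GLight

/-! Tilting a site by a partition of unity. -/

open Finset

namespace Pool.Agent.H712.NP

open Pool.Agent.H390R2.LP Pool.Agent.H235R2.QLP Pool.Agent.H712.NI

variable {Ω X : Type} [Fintype Ω] [DecidableEq Ω]

/-- Wigner–Yanase comparison of a state with its tilts by a partition of unity. -/
theorem tilt_part {V : Type} [Fintype V] [DecidableEq V] (s : Site Ω X) (q : V → ℝ)
    (hq : ∀ v, 0 ≤ q v) (a : V → X → ℝ)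
    (ha : ∀ x, ∑ v, q v * a v x ^ 2 = 1) (f : X → ℝ) :
    ∑ j, ∑ l, √(s.lam j) * √(s.lam l) * (∑ ω, s.u j ω * f (s.pos ω) * s.u l ω) ^ 2 ≤
      ∑ v, q v * ∑ m, ∑ m', tb s (a v) m * tb s (a v) m' *
        (∑ ω, te s (a v) m ω * f (s.pos ω) * te s (a v) m' ω) ^ 2 := by
  set c : Ω → Ω × V → ℝ := fun j k =>
    √(q k.2) * ∑ ω, a k.2 (s.pos ω) * s.u j ω * te s (a k.2) k.1 ω with hc
  have hq2 : ∀ v, √(q v) * √(q v) = q v := fun v => Real.mul_self_sqrt (hq v)
  have key := wy (B := V) c ?_ (fun j => √(s.lam j)) (fun j => Real.sqrt_nonneg _)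
    (fun k : Ω × V => √(q k.2) * tb s (a k.2) k.1)
    (fun k => mul_nonneg (Real.sqrt_nonneg _) (tb_nonneg s (a k.2) k.1))
    (fun k => k.2) ?_
    (fun k k' => if k.2 = k'.2 then
      ∑ ω, te s (a k.2) k.1 ω * f (s.pos ω) * te s (a k.2) k'.1 ω else 0) ?_
  · -- conclusion
    have hl : ∀ j l, ∑ k : Ω × V, ∑ k' : Ω × V, c j k * (if k.2 = k'.2 then
        ∑ ω, te s (a k.2) k.1 ω * f (s.pos ω) * te s (a k.2) k'.1 ω else 0) * c l k' =
        ∑ ω, s.u j ω * f (s.pos ω) * s.u l ω := by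
      intro j l
      have e1 : ∀ k : Ω × V, ∑ k' : Ω × V, c j k * (if k.2 = k'.2 then
          ∑ ω, te s (a k.2) k.1 ω * f (s.pos ω) * te s (a k.2) k'.1 ω else 0) * c l k' =
          c j k * ∑ m', (∑ ω, te s (a k.2) k.1 ω * f (s.pos ω) * te s (a k.2) m' ω) *
            c l (m', k.2) := by
        intro k
        rw [Fintype.sum_prod_type_right, Finset.sum_eq_single k.2]
        · rw [Finset.mul_sum]
          refine Finset.sum_congr rfl fun m' _ => ?_
          rw [if_pos rfl]; ring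
        · intro t _ ht
          refine Finset.sum_eq_zero fun m' _ => ?_
          rw [if_neg (Ne.symm ht)]; ring
        · intro h; exact absurd (Finset.mem_univ _) h
      simp only [e1]
      rw [Fintype.sum_prod_type_right]
      have e2 : ∀ (t : V) (m : Ω), ∑ m', (∑ ω, te s (a t) m ω * f (s.pos ω) * te s (a t) m' ω) *
          c l (m', t) =
          √(q t) * ∑ ω, (te s (a t) m ω * f (s.pos ω)) * (a t (s.pos ω) * s.u l ω) := by
        intro t m
        rw [← Pool.Agent.H390R2.LP.parseval (te s (a t)) (te_orth s (a t))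
          (fun ω => te s (a t) m ω * f (s.pos ω)) (fun ω => a t (s.pos ω) * s.u l ω),
          Finset.mul_sum]
        refine Finset.sum_congr rfl fun m' _ => ?_
        simp only [hc]
        ring
      have e3 : ∀ t : V, ∑ m, c j (m, t) *
          ∑ m', (∑ ω, te s (a t) m ω * f (s.pos ω) * te s (a t) m' ω) * c l (m', t) =
          ∑ ω, (q t * a t (s.pos ω) ^ 2) * (s.u j ω * f (s.pos ω) * s.u l ω) := by
        intro t
        have e4 : ∀ m, c j (m, t) *
            ∑ m', (∑ ω, te s (a t) m ω * f (s.pos ω) * te s (a t) m' ω) * c l (m', t) =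
            q t * ((∑ ω, (a t (s.pos ω) * s.u j ω) * te s (a t) m ω) *
              (∑ ω, (f (s.pos ω) * (a t (s.pos ω) * s.u l ω)) * te s (a t) m ω)) := by
          intro m
          rw [e2]
          have e5 : ∑ ω, (te s (a t) m ω * f (s.pos ω)) * (a t (s.pos ω) * s.u l ω) =
              ∑ ω, (f (s.pos ω) * (a t (s.pos ω) * s.u l ω)) * te s (a t) m ω :=
            Finset.sum_congr rfl fun _ _ => by ring
          rw [e5]
          simp only [hc]
          linear_combination ((∑ ω, (a t (s.pos ω) * s.u j ω) * te s (a t) m ω) *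
              (∑ ω, (f (s.pos ω) * (a t (s.pos ω) * s.u l ω)) * te s (a t) m ω)) * hq2 t
        simp only [e4]
        rw [← Finset.mul_sum, Pool.Agent.H390R2.LP.parseval (te s (a t)) (te_orth s (a t)),
          Finset.mul_sum]
        exact Finset.sum_congr rfl fun ω _ => by ring
      simp only [e3]
      rw [Finset.sum_comm]
      refine Finset.sum_congr rfl fun ω _ => ?_
      rw [← Finset.sum_mul, ha, one_mul]
    have hr : ∑ k : Ω × V, ∑ k' : Ω × V, √(q k.2) * tb s (a k.2) k.1 *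
        (√(q k'.2) * tb s (a k'.2) k'.1) *
        (if k.2 = k'.2 then ∑ ω, te s (a k.2) k.1 ω * f (s.pos ω) *
          te s (a k.2) k'.1 ω else 0) ^ 2 =
        ∑ v, q v * ∑ m, ∑ m', tb s (a v) m * tb s (a v) m' *
        (∑ ω, te s (a v) m ω * f (s.pos ω) * te s (a v) m' ω) ^ 2 := by
      have e1 : ∀ k : Ω × V, ∑ k' : Ω × V, √(q k.2) * tb s (a k.2) k.1 *
          (√(q k'.2) * tb s (a k'.2) k'.1) *
          (if k.2 = k'.2 then ∑ ω, te s (a k.2) k.1 ω * f (s.pos ω) *
            te s (a k.2) k'.1 ω else 0) ^ 2 =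
          q k.2 * ∑ m', tb s (a k.2) k.1 * tb s (a k.2) m' *
            (∑ ω, te s (a k.2) k.1 ω * f (s.pos ω) * te s (a k.2) m' ω) ^ 2 := by
        intro k
        rw [Fintype.sum_prod_type_right, Finset.sum_eq_single k.2]
        · rw [Finset.mul_sum]
          refine Finset.sum_congr rfl fun m' _ => ?_
          rw [if_pos rfl]
          linear_combination (tb s (a k.2) k.1 * tb s (a k.2) m' *
            (∑ ω, te s (a k.2) k.1 ω * f (s.pos ω) * te s (a k.2) m' ω) ^ 2) * hq2 k.2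
        · intro t _ ht
          refine Finset.sum_eq_zero fun m' _ => ?_
          rw [if_neg (Ne.symm ht)]; ring
        · intro h; exact absurd (Finset.mem_univ _) h
      simp only [e1]
      rw [Fintype.sum_prod_type_right]
      refine Finset.sum_congr rfl fun v _ => ?_
      rw [Finset.mul_sum]
    simp only [hl] at key
    rw [hr] at key
    exact key
  · -- orthonormality
    intro j l
    rw [Fintype.sum_prod_type_right]
    have e1 : ∀ t : V, ∑ m, c j (m, t) * c l (m, t) =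
        ∑ ω, (q t * a t (s.pos ω) ^ 2) * (s.u j ω * s.u l ω) := by
      intro t
      have e2 : ∀ m, c j (m, t) * c l (m, t) = q t *
          ((∑ ω, a t (s.pos ω) * s.u j ω * te s (a t) m ω) *
            (∑ ω, a t (s.pos ω) * s.u l ω * te s (a t) m ω)) := by
        intro m
        simp only [hc]
        linear_combination ((∑ ω, a t (s.pos ω) * s.u j ω * te s (a t) m ω) *
            (∑ ω, a t (s.pos ω) * s.u l ω * te s (a t) m ω)) * hq2 t
      simp only [e2]
      rw [← Finset.mul_sum, Pool.Agent.H390R2.LP.parseval (te s (a t)) (te_orth s (a t))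
        (fun ω => a t (s.pos ω) * s.u j ω) (fun ω => a t (s.pos ω) * s.u l ω), Finset.mul_sum]
      exact Finset.sum_congr rfl fun ω _ => by ring
    simp only [e1]
    rw [Finset.sum_comm, ← s.u_orth j l]
    refine Finset.sum_congr rfl fun ω _ => ?_
    rw [← Finset.sum_mul, ha, one_mul]
  · -- diagonality
    rintro ⟨m, t⟩ ⟨m', t'⟩ ht
    simp only at ht
    subst ht
    have e1 : ∀ j, √(s.lam j) ^ 2 * (c j (m, t) * c j (m', t)) = q t * (√(s.lam j) ^ 2 *
        ((∑ ω, a t (s.pos ω) * s.u j ω * te s (a t) m ω) *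
        (∑ ω, a t (s.pos ω) * s.u j ω * te s (a t) m' ω))) := by
      intro j
      simp only [hc]
      linear_combination (√(s.lam j) ^ 2 *
        ((∑ ω, a t (s.pos ω) * s.u j ω * te s (a t) m ω) *
        (∑ ω, a t (s.pos ω) * s.u j ω * te s (a t) m' ω))) * hq2 t
    simp only [e1]
    rw [← Finset.mul_sum, te_diag s (a t) m m']
    by_cases h : m = m'
    · subst h
      rw [if_pos rfl, if_pos rfl, mul_pow, Real.sq_sqrt (hq t)]
    · rw [if_neg h, if_neg (fun h' => h (Prod.mk.inj h').1), mul_zero]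
  · intro k k' h
    simp only [if_neg h]

variable {I : Type} [Fintype I]

/-- the energy of an unnormalised tilted state -/
noncomputable def en (s : Site Ω X) (a : X → ℝ) (f : I → X → ℝ) : ℝ :=
  2 * ∑ i, (∑ m, tb s a m ^ 2 * ∑ ω, te s a m ω ^ 2 * f i (s.pos ω) ^ 2
    - ∑ m, ∑ m', tb s a m * tb s a m' * (∑ ω, te s a m ω * f i (s.pos ω) * te s a m' ω) ^ 2)

lemma en_nonneg (s : Site Ω X) (a : X → ℝ) (f : I → X → ℝ) : 0 ≤ en s a f := by
  unfold en
  rw [Finset.mul_sum]
  refine Finset.sum_nonneg fun i _ => ?_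
  have h := energy_form (te s a) (te_orth s a) (fun ω => f i (s.pos ω)) (fun m => tb s a m)
  rw [h]
  exact Finset.sum_nonneg fun m _ => Finset.sum_nonneg fun m' _ =>
    mul_nonneg (sq_nonneg _) (sq_nonneg _)

lemma tilt_E (s : Site Ω X) (a : X → ℝ) (ha : ∑ c, a (s.lab c) ^ 2 * s.g c = 1)
    (f : I → X → ℝ) : (tilt s a ha).E f = en s a f := by
  unfold Site.E en
  congr 1
  refine Finset.sum_congr rfl fun i _ => ?_
  congr 1
  refine Finset.sum_congr rfl fun m _ => Finset.sum_congr rfl fun m' _ => ?_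
  have h3 : √((tilt s a ha).lam m * (tilt s a ha).lam m') = tb s a m * tb s a m' := by
    show √(tb s a m ^ 2 * tb s a m' ^ 2) = _
    rw [← mul_pow, Real.sqrt_sq (mul_nonneg (tb_nonneg _ _ _) (tb_nonneg _ _ _))]
  rw [h3]
  rfl

/-- position density of the tilted state -/
lemma te_dens (s : Site Ω X) (a : X → ℝ) (ω : Ω) :
    ∑ m, tb s a m ^ 2 * te s a m ω ^ 2 = a (s.pos ω) ^ 2 * ∑ j, s.lam j * s.u j ω ^ 2 := by
  have h := form_bilin (fun j ω => a (s.pos ω) * s.u j ω) (fun j => √(s.lam j)) (te s a)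
    (tb s a) (te_orth s a) (te_diag s a) (fun o => if o = ω then 1 else 0)
    (fun o => if o = ω then 1 else 0)
  simp only [mul_ite, mul_one, mul_zero, Finset.sum_ite_eq', Finset.mem_univ, if_true] at h
  calc ∑ m, tb s a m ^ 2 * te s a m ω ^ 2 = ∑ m, tb s a m ^ 2 * te s a m ω * te s a m ω :=
        Finset.sum_congr rfl fun m _ => by ring
    _ = _ := h.symm
    _ = _ := by
        rw [Finset.mul_sum]
        refine Finset.sum_congr rfl fun j _ => ?_
        rw [Real.sq_sqrt (s.lam_nonneg j)]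
        ring

/-- **The energies of the tilts by a partition of unity.** -/
theorem en_part {V : Type} [Fintype V] [DecidableEq V] (s : Site Ω X) (q : V → ℝ)
    (hq : ∀ v, 0 ≤ q v) (a : V → X → ℝ)
    (ha : ∀ x, ∑ v, q v * a v x ^ 2 = 1) (f : I → X → ℝ) :
    ∑ v, q v * en s (a v) f ≤ s.E f := by
  unfold en Site.E
  have h0 : ∑ v, q v * (2 * ∑ i, (∑ m, tb s (a v) m ^ 2 * ∑ ω, te s (a v) m ω ^ 2 *
      f i (s.pos ω) ^ 2 - ∑ m, ∑ m', tb s (a v) m * tb s (a v) m' *
        (∑ ω, te s (a v) m ω * f i (s.pos ω) * te s (a v) m' ω) ^ 2)) =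
      2 * ∑ i, (∑ v, q v * ∑ m, tb s (a v) m ^ 2 * ∑ ω, te s (a v) m ω ^ 2 *
      f i (s.pos ω) ^ 2 - ∑ v, q v * ∑ m, ∑ m', tb s (a v) m * tb s (a v) m' *
        (∑ ω, te s (a v) m ω * f i (s.pos ω) * te s (a v) m' ω) ^ 2) := by
    rw [Finset.mul_sum]
    simp only [Finset.mul_sum, mul_sub, Finset.sum_sub_distrib]
    congr 1
    · rw [Finset.sum_comm]
      refine Finset.sum_congr rfl fun i _ => Finset.sum_congr rfl fun v _ =>
        Finset.sum_congr rfl fun m _ => Finset.sum_congr rfl fun ω _ => by ring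
    · rw [Finset.sum_comm]
      refine Finset.sum_congr rfl fun i _ => Finset.sum_congr rfl fun v _ =>
        Finset.sum_congr rfl fun m _ => Finset.sum_congr rfl fun ω _ => by ring
  rw [h0]
  refine mul_le_mul_of_nonneg_left (Finset.sum_le_sum fun i _ => ?_) (by norm_num)
  have h1 := tilt_part s q hq a ha (f i)
  have h2 : ∑ v, q v * ∑ m, tb s (a v) m ^ 2 * ∑ ω, te s (a v) m ω ^ 2 *
      f i (s.pos ω) ^ 2 = ∑ j, s.lam j * ∑ ω, s.u j ω ^ 2 * f i (s.pos ω) ^ 2 := by
    have e1 : ∀ v, q v * ∑ m, tb s (a v) m ^ 2 * ∑ ω, te s (a v) m ω ^ 2 *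
        f i (s.pos ω) ^ 2 = ∑ ω, (q v * a v (s.pos ω) ^ 2) *
          (f i (s.pos ω) ^ 2 * ∑ j, s.lam j * s.u j ω ^ 2) := by
      intro v
      have e0 : ∑ m, tb s (a v) m ^ 2 * ∑ ω, te s (a v) m ω ^ 2 * f i (s.pos ω) ^ 2 =
          ∑ ω, ∑ m, tb s (a v) m ^ 2 * (te s (a v) m ω ^ 2 * f i (s.pos ω) ^ 2) := by
        rw [Finset.sum_comm]
        exact Finset.sum_congr rfl fun m _ => Finset.mul_sum _ _ _
      rw [e0, Finset.mul_sum]
      refine Finset.sum_congr rfl fun ω _ => ?_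
      have e2 := te_dens s (a v) ω
      calc q v * ∑ m, tb s (a v) m ^ 2 * (te s (a v) m ω ^ 2 * f i (s.pos ω) ^ 2)
          = q v * (f i (s.pos ω) ^ 2 * ∑ m, tb s (a v) m ^ 2 * te s (a v) m ω ^ 2) := by
            congr 1
            rw [Finset.mul_sum]
            exact Finset.sum_congr rfl fun m _ => by ring
        _ = _ := by rw [e2]; ring
    simp only [e1]
    rw [Finset.sum_comm]
    simp only [← Finset.sum_mul, ha, one_mul]
    simp only [Finset.mul_sum]
    rw [Finset.sum_comm]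
    exact Finset.sum_congr rfl fun j _ => Finset.sum_congr rfl fun ω _ => by ring
  rw [h2]
  have h3 : ∑ j, ∑ l, √(s.lam j * s.lam l) * (∑ ω, s.u j ω * f i (s.pos ω) * s.u l ω) ^ 2 =
      ∑ j, ∑ l, √(s.lam j) * √(s.lam l) * (∑ ω, s.u j ω * f i (s.pos ω) * s.u l ω) ^ 2 :=
    Finset.sum_congr rfl fun j _ => Finset.sum_congr rfl fun l _ => by
      rw [Real.sqrt_mul (s.lam_nonneg j)]
  rw [h3]
  linarith

end Pool.Agent.H712.NP
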