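import Pool.Agent.H712.NP.Conc

/-! A rotation for which the noise behaves well at most points of a finite set. -/

set_option linter.unusedSectionVars false

open MeasureTheory Metric

namespace Pool.Agent.H712.NP

open Pool.Agent.Helper28

attribute [local instance] compactSpace_UG secondCountable_UG measUG borelUG

section
variable {E : Type*} [NormedAddCommGroup E] [InnerProductSpace ℝ E] [CompleteSpace E]
  [FiniteDimensional ℝ E] [MeasurableSpace E] [BorelSpace E]

lemma act_smul (Q : unitary (E →L[ℝ] E)) (t : ℝ) (x : E) : act Q (t • x) = t • act Q x := by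
  simp [act]

lemma act_add (Q : unitary (E →L[ℝ] E)) (x y : E) : act Q (x + y) = act Q x + act Q y := by
  simp [act]

lemma act_sub (Q : unitary (E →L[ℝ] E)) (x y : E) : act Q (x - y) = act Q x - act Q y := by
  simp [act]

lemma act_inv (Q : unitary (E →L[ℝ] E)) (x : E) :
    act Q (((Q : unitary (E →L[ℝ] E)) : E →L[ℝ] E) x) = x := by
  have h := act_mul Q 1 x
  have h2 : act (1 : unitary (E →L[ℝ] E)) (((Q : unitary (E →L[ℝ] E)) : E →L[ℝ] E) x) =
    ((Q : unitary (E →L[ℝ] E)) : E →L[ℝ] E) x := by simp [act]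
  have h3 : ((Q⁻¹ * Q : unitary (E →L[ℝ] E)) : E →L[ℝ] E) x = x := by simp
  have h4 : ((Q⁻¹ * Q : unitary (E →L[ℝ] E)) : E →L[ℝ] E) x =
      ((Q⁻¹ : unitary (E →L[ℝ] E)) : E →L[ℝ] E) (((Q : unitary (E →L[ℝ] E)) : E →L[ℝ] E) x) := rfl
  unfold act
  rw [← h4, h3]

theorem exists_rot {m : ℕ} (hn : Module.finrank ℝ E = m + 2) (C : Finset E) {F : E → ℝ}
    {Λ r b e2 : ℝ} (hΛ : 0 ≤ Λ) (hr : 0 < r) (hb : 0 ≤ b) (he2 : 0 < e2)
    (hF : ∀ x y, |F x - F y| ≤ Λ * ‖x - y‖) {ι : Type*} [Fintype ι] [DecidableEq ι] (z : ι → E)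
    (p : ι → ℝ) (hp : ∀ i, 0 ≤ p i) (good : Finset ι)
    (hgood : ∀ i ∈ good, z i ≠ 0 ∧ |‖z i‖ - r| ≤ b) :
    ∃ Q : unitary (E →L[ℝ] E), ∑ c ∈ C, ∑ i,
      (if F (c + act Q (z i)) ≤ sm (fun u => F (c + r • u)) + e2 + Λ * b then 0 else p i) ≤
      C.card * (∑ i ∈ goodᶜ, p i + (∑ i ∈ good, p i) * (Real.pi * (Λ * r / √(m + 1)) / e2)) := by
  have hFc : Continuous F := by
    have : LipschitzWith ⟨Λ, hΛ⟩ F := LipschitzWith.of_dist_le_mul fun x y => by
      rw [Real.dist_eq, dist_eq_norm]; exact hF x y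
    exact this.continuous
  set M := (Measure.haar : Measure (unitary (E →L[ℝ] E))).real Set.univ with hM
  have hMp : 0 < M := hm_pos
  set D : ℝ := Real.pi * (Λ * r / √(m + 1)) with hD
  set G : E → E → ℝ := fun c u => F (c + r • u) with hG
  have hGc : ∀ c, Continuous (G c) := fun c =>
    hFc.comp (continuous_const.add (continuous_const.smul continuous_id))
  have hGl : ∀ c x y, |G c x - G c y| ≤ (Λ * r) * ‖x - y‖ := by
    intro c x y
    have h1 := hF (c + r • x) (c + r • y)
    rw [add_sub_add_left_eq_sub, ← smul_sub, norm_smul, Real.norm_eq_abs, abs_of_pos hr] at h1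
    calc _ ≤ Λ * (r * ‖x - y‖) := h1
      _ = _ := by ring
  set zh : ι → E := fun i => ‖z i‖⁻¹ • z i with hzh
  have hzn : ∀ i ∈ good, ‖zh i‖ = 1 := by
    intro i hi
    have h0 := (hgood i hi).1
    rw [hzh, norm_smul, norm_inv, norm_norm, inv_mul_cancel₀ (norm_ne_zero_iff.mpr h0)]
  have hcd : ∀ c i, Continuous (fun Q : unitary (E →L[ℝ] E) => |G c (act Q (zh i)) - sm (G c)|) :=
    fun c i => (((hGc c).comp (act_cont (zh i))).sub continuous_const).abs
  have hint : ∀ c ∈ C, ∀ i ∈ good,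
      ∫ Q, |G c (act Q (zh i)) - sm (G c)| ∂(Measure.haar : Measure (unitary (E →L[ℝ] E))) ≤
      D * M := fun c _ i hi => conc_lip hn (by positivity) (hGl c) (hzn i hi)
  set f : unitary (E →L[ℝ] E) → ℝ := fun Q =>
    ∑ c ∈ C, ∑ i ∈ good, p i * |G c (act Q (zh i)) - sm (G c)| with hf
  have hfc : Continuous f :=
    continuous_finsetSum _ fun c _ => continuous_finsetSum _ fun i _ =>
      continuous_const.mul (hcd c i)
  have hfint : ∫ Q, f Q ∂(Measure.haar : Measure (unitary (E →L[ℝ] E))) ≤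
      C.card * ((∑ i ∈ good, p i) * D) * M := by
    have hi1 : ∀ c i, Integrable (fun Q : unitary (E →L[ℝ] E) =>
        p i * |G c (act Q (zh i)) - sm (G c)|)
        (Measure.haar : Measure (unitary (E →L[ℝ] E))) := fun c i =>
      int_cont (continuous_const.mul (hcd c i))
    have hi2 : ∀ c, Integrable (fun Q : unitary (E →L[ℝ] E) =>
        ∑ i ∈ good, p i * |G c (act Q (zh i)) - sm (G c)|)
        (Measure.haar : Measure (unitary (E →L[ℝ] E))) := fun c =>
      integrable_finsetSum _ fun i _ => hi1 c i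
    show ∫ Q, ∑ c ∈ C, ∑ i ∈ good, p i * |G c (act Q (zh i)) - sm (G c)|
      ∂(Measure.haar : Measure (unitary (E →L[ℝ] E))) ≤ _
    rw [integral_finsetSum _ fun c _ => hi2 c]
    have h1 : ∀ c ∈ C, ∫ Q, ∑ i ∈ good, p i * |G c (act Q (zh i)) - sm (G c)|
        ∂(Measure.haar : Measure (unitary (E →L[ℝ] E))) ≤ (∑ i ∈ good, p i) * D * M := by
      intro c hc
      rw [integral_finsetSum _ fun i _ => hi1 c i, mul_assoc, Finset.sum_mul]
      refine Finset.sum_le_sum fun i hi => ?_
      rw [integral_const_mul]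
      exact mul_le_mul_of_nonneg_left (hint c hc i hi) (hp i)
    refine (Finset.sum_le_sum h1).trans (le_of_eq ?_)
    rw [Finset.sum_const, nsmul_eq_mul]
    ring
  obtain ⟨Q, hQ⟩ : ∃ Q, f Q ≤ C.card * ((∑ i ∈ good, p i) * D) := by
    by_contra hcon
    push Not at hcon
    have hlt : C.card * ((∑ i ∈ good, p i) * D) * M <
        ∫ Q, f Q ∂(Measure.haar : Measure (unitary (E →L[ℝ] E))) := by
      obtain ⟨Q0, hQ0⟩ := isCompact_univ.exists_isMinOn Set.univ_nonempty hfc.continuousOn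
      have hmin : ∀ Q, f Q0 ≤ f Q := fun Q => hQ0.2 (Set.mem_univ Q)
      calc _ < f Q0 * M := mul_lt_mul_of_pos_right (hcon Q0) hMp
        _ = ∫ _, f Q0 ∂(Measure.haar : Measure (unitary (E →L[ℝ] E))) := by
            rw [integral_const, smul_eq_mul, mul_comm]
        _ ≤ _ := integral_mono (integrable_const _) (int_cont hfc) hmin
    exact absurd hfint (not_le.mpr hlt)
  refine ⟨Q, ?_⟩
  have hpt : ∀ c ∈ C, ∀ i ∈ good,
      (if F (c + act Q (z i)) ≤ sm (fun u => F (c + r • u)) + e2 + Λ * b then 0 else p i) ≤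
      p i * |G c (act Q (zh i)) - sm (G c)| / e2 := by
    intro c _ i hi
    have hpos : 0 ≤ p i * |G c (act Q (zh i)) - sm (G c)| / e2 :=
      div_nonneg (mul_nonneg (hp i) (abs_nonneg _)) he2.le
    split_ifs with h
    · exact hpos
    · have h0 := (hgood i hi).1
      have hnz := norm_ne_zero_iff.mpr h0
      have e1 : act Q (z i) = ‖z i‖ • act Q (zh i) := by
        rw [← act_smul, hzh, smul_smul, mul_inv_cancel₀ hnz, one_smul]
      have e2' : |F (c + act Q (z i)) - F (c + r • act Q (zh i))| ≤ Λ * b := by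
        refine (hF _ _).trans (mul_le_mul_of_nonneg_left ?_ hΛ)
        rw [e1, add_sub_add_left_eq_sub, ← sub_smul, norm_smul, act_norm, hzn i hi, mul_one,
          Real.norm_eq_abs]
        exact (hgood i hi).2
      have e3 : e2 ≤ |G c (act Q (zh i)) - sm (G c)| := by
        push Not at h
        have h4 := (abs_le.mp e2').2
        have h5 : G c (act Q (zh i)) = F (c + r • act Q (zh i)) := rfl
        have h6 : sm (G c) = sm (fun u => F (c + r • u)) := rfl
        refine le_trans ?_ (le_abs_self _)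
        rw [h5, h6]
        linarith
      rw [le_div_iff₀ he2]
      exact mul_le_mul_of_nonneg_left e3 (hp i)
  have hc1 : ∀ c ∈ C, ∑ i, (if F (c + act Q (z i)) ≤
        sm (fun u => F (c + r • u)) + e2 + Λ * b then 0 else p i) ≤
      ∑ i ∈ goodᶜ, p i + ∑ i ∈ good, p i * |G c (act Q (zh i)) - sm (G c)| / e2 := by
    intro c hc
    rw [← Finset.sum_compl_add_sum good]
    refine add_le_add (Finset.sum_le_sum fun i _ => ?_) (Finset.sum_le_sum fun i hi => hpt c hc i hi)
    split_ifs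
    · exact hp i
    · exact le_refl _
  refine (Finset.sum_le_sum hc1).trans ?_
  rw [Finset.sum_add_distrib, Finset.sum_const, nsmul_eq_mul, mul_add]
  refine add_le_add (le_refl _) ?_
  simp only [← Finset.sum_div]
  rw [div_le_iff₀ he2]
  refine hQ.trans (le_of_eq ?_)
  field_simp

end

end Pool.Agent.H712.NP
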