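import Pool.Agent.H712.NP.Trans
import Pool.Agent.H712.NP.Rot
import Pool.Graph.R_seed8.W259.GP.Main
import Pool.Graph.R_seed8.H390R2.LP.EuclidB

/-! Preparations for the noise inequality in Euclidean space. -/

set_option linter.unusedSectionVars false

open Finset MeasureTheory

namespace Pool.Agent.H712.NP

open Pool.Agent.H390R2.LP Pool.Agent.H785R2.LP Pool.Agent.Helper28 Pool.Agent.H712.NI

attribute [local instance] compactSpace_UG secondCountable_UG measUG borelUG

lemma E_scale {Ω : Type} [Fintype Ω] [DecidableEq Ω] {q : ℕ} (s : Site Ω (Fin q)) (c : ℝ) :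
    s.E (gridf q c) = c ^ 2 * s.E (fun (_ : Unit) (x : Fin q) => (x : ℝ)) := by
  have h1 : s.E (gridf q c) = s.E (fun (_ : Unit) (x : Fin q) => c * (x : ℝ)) := rfl
  rw [h1, m1_energy s (fun x => c * (x : ℝ)), m1_energy s (fun x : Fin q => (x : ℝ)),
    Finset.mul_sum]
  refine Finset.sum_congr rfl fun x _ => ?_
  rw [Finset.mul_sum]
  exact Finset.sum_congr rfl fun y _ => by ring

/-- sites with large energy and exponent close to `log π` -/
theorem good_site {η : ℝ} (hη : 0 < η) (R : ℝ) :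
    ∃ (Ω : Type) (_ : Fintype Ω) (_ : DecidableEq Ω) (q : ℕ) (s : Site Ω (Fin q)),
      R ≤ s.E (fun (_ : Unit) (x : Fin q) => (x : ℝ)) ∧
      Real.log Real.pi - η < s.h - s.S -
        1 / 2 * Real.log (s.E (fun (_ : Unit) (x : Fin q) => (x : ℝ))) := by
  obtain ⟨Ω, _, _, q, s, hs⟩ := Pool.Agent.W259.GP.s_main η hη
  obtain ⟨N, hN⟩ := exists_nat_gt (8 * |R| + 2)
  have hR := abs_nonneg R
  have hN2 : (2 : ℝ) < N := by linarith
  have hN0 : 0 < N := by
    have : (0 : ℝ) < N := by linarith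
    exact_mod_cast this
  have hN' : (0 : ℝ) < N := by linarith
  obtain ⟨e, he, he0⟩ := exists_basis N hN0
  set s' := fine s N hN0 e he he0 with hs'
  have hE1 := E_fine s N hN0 e he he0
  have hE2 := E_scale s' (1 / N)
  rw [← hs'] at hE1
  rw [hE1] at hE2
  set e0 := s'.E (fun (_ : Unit) (x : Fin (q * N)) => (x : ℝ)) with he0'
  have hE := Pool.Agent.H785R2.LP.E_nonneg s (gridf q 1)
  set E := s.E (gridf q 1) with hEdef
  have hval : e0 = N ^ 2 * (E + 1 / 6 * (1 - 1 / (N : ℝ) ^ 2)) := by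
    rw [hE2]; field_simp
  have hsmall : 1 / (N : ℝ) ^ 2 ≤ 1 / 4 := by
    rw [div_le_div_iff₀ (by positivity) (by norm_num)]
    nlinarith
  have hge : (1 : ℝ) / 8 ≤ E + 1 / 6 * (1 - 1 / (N : ℝ) ^ 2) := by linarith
  have hpos : 0 < E + 1 / 6 * (1 - 1 / (N : ℝ) ^ 2) := by linarith
  refine ⟨Ω × Fin N, inferInstance, inferInstance, q * N, s', ?_, ?_⟩
  · have h1 : R ≤ |R| := le_abs_self R
    have h2 : (N : ℝ) ^ 2 * (1 / 8) ≤ e0 := by
      rw [hval]
      exact mul_le_mul_of_nonneg_left hge (by positivity)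
    have h3 : |R| ≤ (N : ℝ) ^ 2 * (1 / 8) := by nlinarith
    exact h1.trans (h3.trans h2)
  · have h1 : s'.h = s.h + Real.log N := h_fine s N hN0 e he he0
    have h2 : s'.S = s.S := S_fine s N hN0 e he he0
    show Real.log Real.pi - η < s'.h - s'.S - 1 / 2 * Real.log e0
    rw [h1, h2, hval, Real.log_mul (by positivity) hpos.ne', Real.log_pow]
    have h3 : Real.log (E + 1 / 6 * (1 - 1 / (N : ℝ) ^ 2)) ≤ Real.log (E + 1 / 6) := by
      refine Real.log_le_log hpos ?_
      have : (0 : ℝ) ≤ 1 / (N : ℝ) ^ 2 := by positivity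
      linarith
    unfold cstar at hs
    rw [← hEdef] at hs
    have h4 : Real.log (2 * Real.pi / Real.exp 1) = Real.log 2 + Real.log Real.pi - 1 := by
      rw [Real.log_div (by positivity) (by positivity), Real.log_mul (by norm_num)
        Real.pi_ne_zero, Real.log_exp]
    have h5 : Real.log (2 * Real.pi * Real.exp 1) = Real.log 2 + Real.log Real.pi + 1 := by
      rw [Real.log_mul (by positivity) (by positivity), Real.log_mul (by norm_num)
        Real.pi_ne_zero, Real.log_exp]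
    rw [h4, h5] at hs
    push_cast
    linarith

section vol

variable {n : ℕ}

/-- the integer points of a scaled and rotated level set -/
theorem card_level (Q : unitary (EuclideanSpace ℝ (Fin n) →L[ℝ] EuclideanSpace ℝ (Fin n)))
    {F : EuclideanSpace ℝ (Fin n) → ℝ} {Λ a β : ℝ} (hΛ : 0 ≤ Λ) (ha : 0 < a)
    (hF : ∀ x y, |F x - F y| ≤ Λ * ‖x - y‖) (T : Finset (Fin n → ℤ))
    (hT : ∀ t ∈ T, F (act Q (a • toE t)) ≤ β) :
    (T.card : ENNReal) ≤ ENNReal.ofReal ((a⁻¹) ^ n) *
      volume {x : EuclideanSpace ℝ (Fin n) | F x ≤ β + Λ * (a * √n)} := by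
  have hFc : Continuous F := by
    have : LipschitzWith ⟨Λ, hΛ⟩ F := LipschitzWith.of_dist_le_mul fun x y => by
      rw [Real.dist_eq, dist_eq_norm]; exact hF x y
    exact this.continuous
  set S := {x : EuclideanSpace ℝ (Fin n) | F x ≤ β + Λ * (a * √n)} with hS
  have hSc : IsClosed S := isClosed_le hFc continuous_const
  have h1 : volume (⋃ v ∈ T, cube v) = T.card := by
    rw [measure_biUnion_finset (fun v _ w _ h => cube_disj v w h) (fun v _ => cube_meas v)]
    simp [cube_vol]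
  rw [← h1]
  have h2 : (⋃ v ∈ T, cube v) ⊆ (fun x => a • x) ⁻¹'
      ((Unitary.linearIsometryEquiv Q⁻¹) ⁻¹' S) := by
    intro x hx
    simp only [Set.mem_iUnion] at hx
    obtain ⟨v, hv, hx⟩ := hx
    rw [mem_cube] at hx
    have h3 : ‖x - toE v‖ ≤ √n := by
      rw [EuclideanSpace.norm_eq]
      apply Real.sqrt_le_sqrt
      calc ∑ i, ‖(x - toE v) i‖ ^ 2 ≤ ∑ i : Fin n, (1 : ℝ) := by
            apply Finset.sum_le_sum
            intro i _
            have e : (x - toE v) i = x i - v i := by simp [toE]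
            rw [e, Real.norm_eq_abs, sq_abs]
            have := hx i
            nlinarith [this.1, this.2]
        _ = n := by simp
    show F (act Q (a • x)) ≤ _
    have h4 := hF (act Q (a • x)) (act Q (a • toE v))
    rw [← act_sub, act_norm, ← smul_sub, norm_smul, Real.norm_eq_abs, abs_of_pos ha] at h4
    have h5 : Λ * (a * ‖x - toE v‖) ≤ Λ * (a * √n) :=
      mul_le_mul_of_nonneg_left (mul_le_mul_of_nonneg_left h3 ha.le) hΛ
    have h6 := (abs_le.mp (h4.trans h5)).2
    have h7 := hT v hv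
    linarith
  refine (measure_mono h2).trans (le_of_eq ?_)
  rw [Measure.addHaar_preimage_smul _ ha.ne', finrank_euclideanSpace_fin,
    (Unitary.linearIsometryEquiv Q⁻¹).measurePreserving.measure_preimage
      hSc.measurableSet.nullMeasurableSet, abs_of_pos (by positivity), inv_pow]

lemma toE_shift (c x y : Fin n → ℤ) : toE (c - x + y) = toE c + (toE y - toE x) := by
  unfold toE
  ext i
  simp only [Pi.add_apply, Pi.sub_apply, PiLp.add_apply, PiLp.sub_apply]
  push_cast
  ring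

/-- rounding keeps the points apart -/
lemma rd_apart {Q : unitary (EuclideanSpace ℝ (Fin n) →L[ℝ] EuclideanSpace ℝ (Fin n))} {a : ℝ}
    (ha : 0 < a) {c c' : EuclideanSpace ℝ (Fin n)} (h : √n ≤ ‖c - c'‖) :
    √n * (a⁻¹ - 1) ≤ ‖toE (rd a ((Q : EuclideanSpace ℝ (Fin n) →L[ℝ] EuclideanSpace ℝ (Fin n)) c))
      - toE (rd a ((Q : EuclideanSpace ℝ (Fin n) →L[ℝ] EuclideanSpace ℝ (Fin n)) c'))‖ := by
  set p := (Q : EuclideanSpace ℝ (Fin n) →L[ℝ] EuclideanSpace ℝ (Fin n)) c with hp
  set p' := (Q : EuclideanSpace ℝ (Fin n) →L[ℝ] EuclideanSpace ℝ (Fin n)) c' with hp'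
  have h0 : ‖p - p'‖ = ‖c - c'‖ := by
    rw [hp, hp', ← map_sub]
    exact Unitary.norm_map Q _
  have h1 := rd_dist a ha p
  have h2 := rd_dist a ha p'
  have h3 : ‖p - p'‖ ≤ ‖p - a • toE (rd a p)‖ + ‖a • toE (rd a p) - a • toE (rd a p')‖ +
      ‖p' - a • toE (rd a p')‖ := by
    have e : p - p' = (p - a • toE (rd a p)) + (a • toE (rd a p) - a • toE (rd a p')) -
        (p' - a • toE (rd a p')) := by abel
    rw [e]
    exact (norm_sub_le _ _).trans (add_le_add_left (norm_add_le _ _) _)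
  rw [← smul_sub, norm_smul, Real.norm_eq_abs, abs_of_pos ha] at h3
  have h4 : √n - a * √n ≤ a * ‖toE (rd a p) - toE (rd a p')‖ := by
    rw [h0] at h3
    linarith
  have h5 : √n * (a⁻¹ - 1) = a⁻¹ * (√n - a * √n) := by
    field_simp
  rw [h5, inv_mul_le_iff₀ ha]
  exact h4

end vol

end Pool.Agent.H712.NP
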