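import Pool.Agent.H712.NP.RnA

/-! The noise inequality for level sets of a Lipschitz function: one scale. -/

set_option linter.unusedSectionVars false

open Finset MeasureTheory

namespace Pool.Agent.H712.NP

open Pool.Agent.H390R2.LP Pool.Agent.H785R2.LP Pool.Agent.Helper28 Pool.Agent.H712.NI

attribute [local instance] compactSpace_UG secondCountable_UG measUG borelUG

variable {Ω : Type} [Fintype Ω] [DecidableEq Ω] {q : ℕ}

/-- pairs of words -/
lemma sum_pairs {n : ℕ} (f : (Fin n → Fin q) → (Fin n → Fin q) → ℝ) :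
    ∑ x, ∑ y, f x y = ∑ w : Fin n → Fin q × Fin q, f (fun k => (w k).1) (fun k => (w k).2) := by
  rw [← Fintype.sum_prod_type']
  exact (Fintype.sum_equiv (Equiv.arrowProdEquivProdArrow (Fin n) (fun _ => Fin q)
    (fun _ => Fin q)) (fun w => f (fun k => (w k).1) (fun k => (w k).2)) (fun p => f p.1 p.2)
    (fun w => rfl)).symm

/-- weight of a pair of words -/
noncomputable def wt (s : Site Ω (Fin q)) {n : ℕ} (w : Fin n → Fin q × Fin q) : ℝ :=
  ∏ k, m1 s (w k).2 (w k).1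

lemma wt_nonneg (s : Site Ω (Fin q)) {n : ℕ} (w : Fin n → Fin q × Fin q) : 0 ≤ wt s w :=
  Finset.prod_nonneg fun _ _ => m1_nonneg s _ _

lemma one_total (s : Site Ω (Fin q)) : ∑ p : Fin q × Fin q, m1 s p.2 p.1 = 1 := by
  rw [Fintype.sum_prod_type]
  have := m1_total s
  rw [← this, Finset.sum_comm]

lemma wt_sum (s : Site Ω (Fin q)) {n : ℕ} : ∑ w : Fin n → Fin q × Fin q, wt s w = 1 := by
  unfold wt
  have h := Finset.prod_univ_sum (fun _ : Fin n => (univ : Finset (Fin q × Fin q)))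
    (fun _ p => m1 s p.2 p.1)
  rw [Fintype.piFinset_univ] at h
  rw [← h]
  simp [one_total]

/-- squared length of the noise -/
noncomputable def len (p : Fin q × Fin q) : ℝ := ((p.1 : ℝ) - p.2) ^ 2

lemma len_mean (s : Site Ω (Fin q)) :
    ∑ p : Fin q × Fin q, m1 s p.2 p.1 * len p = s.E (fun (_ : Unit) (x : Fin q) => (x : ℝ)) := by
  rw [m1_energy s (fun x : Fin q => (x : ℝ)), Fintype.sum_prod_type]
  refine Finset.sum_congr rfl fun x _ => Finset.sum_congr rfl fun y _ => ?_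
  rw [m1_symm]
  rfl

/-- variance of the squared length -/
noncomputable def lvar (s : Site Ω (Fin q)) : ℝ :=
  ∑ p : Fin q × Fin q, m1 s p.2 p.1 *
    (len p - s.E (fun (_ : Unit) (x : Fin q) => (x : ℝ))) ^ 2

/-- pairs of words with typical distance -/
noncomputable def gd (s : Site Ω (Fin q)) (n : ℕ) (ρ : ℝ) : Finset (Fin n → Fin q × Fin q) :=
  univ.filter fun w => |∑ k, len (w k) - n * s.E (fun (_ : Unit) (x : Fin q) => (x : ℝ))| <
    n * (ρ * s.E (fun (_ : Unit) (x : Fin q) => (x : ℝ)))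

lemma gd_compl (s : Site Ω (Fin q)) {n : ℕ} (hn : 0 < n) {ρ : ℝ} (hρ : 0 < ρ)
    (he : 0 < s.E (fun (_ : Unit) (x : Fin q) => (x : ℝ))) :
    ∑ w ∈ (gd s n ρ)ᶜ, wt s w ≤ lvar s /
      (n * (ρ * s.E (fun (_ : Unit) (x : Fin q) => (x : ℝ))) ^ 2) := by
  have h := Pool.Agent.H703R2.LP.cheb hn (fun p : Fin q × Fin q => m1 s p.2 p.1)
    (fun p => m1_nonneg s _ _) (one_total s) len (mul_pos hρ he) (gd s n ρ)ᶜ (by
      intro w hw
      rw [Finset.mem_compl, gd, Finset.mem_filter] at hw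
      rw [len_mean]
      by_contra hcon
      exact hw ⟨Finset.mem_univ _, not_le.mp hcon⟩)
  rw [len_mean] at h
  exact h

variable {n : ℕ}

/-- the noise vector in `ℝⁿ` -/
noncomputable def zv (a : ℝ) (w : Fin n → Fin q × Fin q) : EuclideanSpace ℝ (Fin n) :=
  a • (toE (up fun k => (w k).2) - toE (up fun k => (w k).1))

lemma zv_norm {a : ℝ} (ha : 0 < a) (w : Fin n → Fin q × Fin q) :
    ‖zv a w‖ ^ 2 = a ^ 2 * ∑ k, len (w k) := by
  unfold zv
  rw [norm_smul, mul_pow, sq_norm_toE_sub, Real.norm_eq_abs, sq_abs]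
  congr 1
  refine Finset.sum_congr rfl fun k _ => ?_
  unfold len up
  push_cast
  ring

lemma zv_good (s : Site Ω (Fin q)) (hn : 0 < n) {a ρ : ℝ} (hρ0 : 0 < ρ) (hρ : ρ ≤ 1 / 4)
    (ha : 0 < a) {e0 : ℝ} (he0 : e0 = s.E (fun (_ : Unit) (x : Fin q) => (x : ℝ)))
    (hpos : 0 < e0) (ha1 : a * √e0 ≤ 1) (ha2 : 1 - ρ ≤ a * √e0)
    {w : Fin n → Fin q × Fin q} (hw : w ∈ gd s n ρ) :
    zv a w ≠ 0 ∧ |‖zv a w‖ - √n| ≤ 2 * ρ * √n := by
  have hn' : (0 : ℝ) < n := by exact_mod_cast hn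
  have hsn : 0 < √(n : ℝ) := Real.sqrt_pos.mpr hn'
  have hsn2 : √(n : ℝ) ^ 2 = n := Real.sq_sqrt hn'.le
  have hse : √e0 ^ 2 = e0 := Real.sq_sqrt hpos.le
  rw [gd, Finset.mem_filter, ← he0] at hw
  have h1 := abs_lt.mp hw.2
  have h2 := zv_norm ha w
  set N := ‖zv a w‖ with hN
  have hN0 : 0 ≤ N := norm_nonneg _
  set L := ∑ k, len (w k) with hL
  have hκ0 : 0 < a * √e0 := mul_pos ha (Real.sqrt_pos.mpr hpos)
  have hκ2 : (a * √e0) ^ 2 = a ^ 2 * e0 := by rw [mul_pow, hse]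
  -- upper bound
  have hup : N ≤ (1 + ρ) * √n := by
    refine le_of_sq_le_sq ?_ (by positivity)
    rw [h2, mul_pow, hsn2]
    have h3 : L ≤ n * (e0 * (1 + ρ)) := by nlinarith [h1.2]
    have h4 : (a * √e0) ^ 2 ≤ 1 := by nlinarith
    calc a ^ 2 * L ≤ a ^ 2 * (n * (e0 * (1 + ρ))) := mul_le_mul_of_nonneg_left h3 (by positivity)
      _ = (a * √e0) ^ 2 * (n * (1 + ρ)) := by rw [hκ2]; ring
      _ ≤ 1 * (n * (1 + ρ)) := mul_le_mul_of_nonneg_right h4 (by positivity)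
      _ ≤ (1 + ρ) ^ 2 * n := by nlinarith
  have hlow : (1 - 2 * ρ) * √n ≤ N := by
    refine le_of_sq_le_sq ?_ hN0
    rw [h2, mul_pow, hsn2]
    have h3 : n * (e0 * (1 - ρ)) ≤ L := by nlinarith [h1.1]
    have h4 : (1 - ρ) ^ 2 ≤ (a * √e0) ^ 2 := pow_le_pow_left₀ (by linarith) ha2 2
    calc (1 - 2 * ρ) ^ 2 * n ≤ (1 - ρ) ^ 2 * (n * (1 - ρ)) := by
          have h5 : (1 - 2 * ρ) ^ 2 ≤ (1 - ρ) ^ 2 * (1 - ρ) := by nlinarith [sq_nonneg ρ]
          nlinarith
      _ ≤ (a * √e0) ^ 2 * (n * (1 - ρ)) := by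
          refine mul_le_mul_of_nonneg_right h4 ?_
          have : 0 ≤ 1 - ρ := by linarith
          positivity
      _ = a ^ 2 * (n * (e0 * (1 - ρ))) := by rw [hκ2]; ring
      _ ≤ a ^ 2 * L := mul_le_mul_of_nonneg_left h3 (by positivity)
  constructor
  · intro h0
    rw [h0, norm_zero] at hN
    have : 0 < (1 - 2 * ρ) * √n := mul_pos (by linarith) hsn
    linarith
  · rw [abs_le]
    constructor <;> nlinarith

theorem one_scale {m n : ℕ} (hnm : n = m + 2) (s : Site Ω (Fin q)) {δ ε' η : ℝ}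
    (H : ∀ C T : Finset (Fin n → ℤ), C.Nonempty →
      (∀ c ∈ C, ∀ c' ∈ C, c ≠ c' → δ * n ≤ ∑ k, ((c k : ℝ) - c' k) ^ 2) →
      ∑ c ∈ C, ∑ x : Fin n → Fin q, ∑ y : Fin n → Fin q,
        (if c - up x + up y ∈ T then 0 else ∏ k, m1 s (y k) (x k)) ≤ η * C.card →
      η * Real.exp (n * (s.h - s.S - ε')) * C.card ≤ T.card)
    {e0 a ρ K e2 : ℝ} (he0 : e0 = s.E (fun (_ : Unit) (x : Fin q) => (x : ℝ)))
    (hpos : 0 < e0) (hρ0 : 0 < ρ) (hρ : ρ ≤ 1 / 4) (ha : 0 < a) (ha1 : a * √e0 ≤ 1)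
    (ha2 : 1 - ρ ≤ a * √e0) (haδ : δ ≤ (a⁻¹ - 1) ^ 2) (ha3 : 1 < a⁻¹) (hK : 0 ≤ K)
    (he2 : 0 < e2)
    (hη : lvar s / (n * (ρ * e0) ^ 2) +
      Real.pi * (K * √n * √n / √(m + 1)) / e2 ≤ η)
    (C : Finset (EuclideanSpace ℝ (Fin n))) (hC : C.Nonempty)
    (F : EuclideanSpace ℝ (Fin n) → ℝ) (B : ℝ)
    (hF : ∀ x y, |F x - F y| ≤ K * √n * ‖x - y‖)
    (hd : ∀ c ∈ C, ∀ c' ∈ C, c ≠ c' → √n ≤ ‖c - c'‖)
    (hB : ∀ c ∈ C, sm (fun u => F (c + √(n : ℝ) • u)) ≤ B) :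
    ENNReal.ofReal (η * Real.exp (n * (s.h - s.S - ε'))) * C.card ≤
      ENNReal.ofReal ((a⁻¹) ^ n) *
        volume {x : EuclideanSpace ℝ (Fin n) |
          F x ≤ B + e2 + K * √n * (2 * ρ * √n) + K * √n * (a * √n) + K * √n * (a * √n)} := by
  have hn : 0 < n := by omega
  have hn' : (0 : ℝ) < n := by exact_mod_cast hn
  have hsn : 0 < √(n : ℝ) := Real.sqrt_pos.mpr hn'
  set Λ := K * √(n : ℝ) with hΛd
  have hΛ : 0 ≤ Λ := mul_nonneg hK hsn.le
  have hcc : 0 < (C.card : ℝ) := by exact_mod_cast hC.card_pos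
  -- the rotation
  obtain ⟨Q, hQ⟩ := exists_rot (E := EuclideanSpace ℝ (Fin n)) (m := m)
    (by rw [finrank_euclideanSpace_fin, hnm]) C hΛ hsn (b := 2 * ρ * √(n : ℝ)) (by positivity)
    he2 hF (zv a : (Fin n → Fin q × Fin q) → EuclideanSpace ℝ (Fin n)) (wt s) (wt_nonneg s)
    (gd s n ρ) (fun w hw => zv_good s hn hρ0 hρ ha he0 hpos ha1 ha2 hw)
  have hQ2 : ∑ c ∈ C, ∑ w : Fin n → Fin q × Fin q, (if F (c + act Q (zv a w)) ≤
      sm (fun u => F (c + √(n : ℝ) • u)) + e2 + Λ * (2 * ρ * √(n : ℝ)) then 0 else wt s w) ≤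
      η * C.card := by
    refine hQ.trans ?_
    rw [mul_comm η]
    refine mul_le_mul_of_nonneg_left (le_trans (add_le_add ?_ ?_) hη) hcc.le
    · have := gd_compl s hn hρ0 (he0 ▸ hpos)
      rw [← he0] at this
      exact this
    · have h1 : ∑ w ∈ gd s n ρ, wt s w ≤ 1 := by
        rw [← wt_sum s (n := n)]
        exact Finset.sum_le_sum_of_subset_of_nonneg (Finset.subset_univ _)
          fun w _ _ => wt_nonneg s w
      have h2 : 0 ≤ Real.pi * (Λ * √(n : ℝ) / √(m + 1)) / e2 := by positivity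
      calc _ ≤ 1 * (Real.pi * (Λ * √(n : ℝ) / √(m + 1)) / e2) :=
            mul_le_mul_of_nonneg_right h1 h2
        _ = _ := one_mul _
  -- rounding
  obtain ⟨rc, hrc⟩ : ∃ rc : EuclideanSpace ℝ (Fin n) → (Fin n → ℤ), ∀ c, rc c =
    rd a ((Q : EuclideanSpace ℝ (Fin n) →L[ℝ] EuclideanSpace ℝ (Fin n)) c) := ⟨_, fun _ => rfl⟩
  have hap : ∀ c ∈ C, ∀ c' ∈ C, c ≠ c' → √n * (a⁻¹ - 1) ≤ ‖toE (rc c) - toE (rc c')‖ := by
    intro c hc c' hc' hne
    rw [hrc, hrc]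
    exact rd_apart ha (hd c hc c' hc' hne)
  have hrd : ∀ c, ‖act Q (a • toE (rc c)) - c‖ ≤ a * √n / 2 := by
    intro c
    have h1 := act_inv Q c
    have h2 : act Q (a • toE (rc c)) - c = act Q (a • toE (rc c) -
        (Q : EuclideanSpace ℝ (Fin n) →L[ℝ] EuclideanSpace ℝ (Fin n)) c) := by
      rw [act_sub, h1]
    rw [h2, act_norm, norm_sub_rev, hrc]
    exact rd_dist a ha _
  have hinj : Set.InjOn rc (C : Set (EuclideanSpace ℝ (Fin n))) := by
    intro c hc c' hc' h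
    by_contra hne
    have h1 := hap c hc c' hc' hne
    rw [h, sub_self, norm_zero] at h1
    have : 0 < √n * (a⁻¹ - 1) := mul_pos hsn (by linarith)
    linarith
  have hcard : (C.image rc).card = C.card := Finset.card_image_of_injOn hinj
  obtain ⟨W, hW⟩ : ∃ W : Finset (Fin n → ℤ), ∀ c ∈ C, ∀ w : Fin n → Fin q × Fin q,
      rc c - up (fun k => (w k).1) + up (fun k => (w k).2) ∈ W := by
    refine ⟨(C ×ˢ (univ : Finset (Fin n → Fin q × Fin q))).image
      (fun p => rc p.1 - up (fun k => (p.2 k).1) + up (fun k => (p.2 k).2)), fun c hc w => ?_⟩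
    exact Finset.mem_image_of_mem
      (fun p : EuclideanSpace ℝ (Fin n) × (Fin n → Fin q × Fin q) =>
        rc p.1 - up (fun k => (p.2 k).1) + up (fun k => (p.2 k).2))
      (Finset.mk_mem_product hc (Finset.mem_univ w))
  set β := B + e2 + Λ * (2 * ρ * √(n : ℝ)) + Λ * (a * √(n : ℝ)) with hβ
  obtain ⟨T, hT⟩ : ∃ T : Finset (Fin n → ℤ), ∀ t, t ∈ T ↔ t ∈ W ∧ F (act Q (a • toE t)) ≤ β := by
    classical
    exact ⟨W.filter (fun t => F (act Q (a • toE t)) ≤ β), fun t => Finset.mem_filter⟩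
  have hmem : ∀ c ∈ C, ∀ w : Fin n → Fin q × Fin q, F (c + act Q (zv a w)) ≤
      sm (fun u => F (c + √(n : ℝ) • u)) + e2 + Λ * (2 * ρ * √(n : ℝ)) →
      rc c - up (fun k => (w k).1) + up (fun k => (w k).2) ∈ T := by
    intro c hc w hcond
    rw [hT]
    refine ⟨hW c hc w, ?_⟩
    have e1 : act Q (a • toE (rc c - up (fun k => (w k).1) + up (fun k => (w k).2))) =
        act Q (a • toE (rc c)) + act Q (zv a w) := by
      rw [toE_shift, smul_add, act_add, zv]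
    have e3 := hF (act Q (a • toE (rc c)) + act Q (zv a w)) (c + act Q (zv a w))
    rw [add_sub_add_right_eq_sub] at e3
    have e4 : Λ * ‖act Q (a • toE (rc c)) - c‖ ≤ Λ * (a * √n) := by
      refine mul_le_mul_of_nonneg_left ((hrd c).trans ?_) hΛ
      have : 0 ≤ a * √(n : ℝ) := by positivity
      linarith
    have e5 := (abs_le.mp (e3.trans e4)).2
    rw [e1]
    have e6 := hB c hc
    rw [hβ]
    linarith
  have hmain := H (C.image rc) T (hC.image rc) ?_ ?_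
  · have hvol := card_level Q hΛ ha hF T (β := β) (fun t ht => ((hT t).mp ht).2)
    rw [hcard] at hmain
    have h1 : ENNReal.ofReal (η * Real.exp (n * (s.h - s.S - ε'))) * C.card ≤ T.card := by
      by_cases hη0 : 0 ≤ η * Real.exp (n * (s.h - s.S - ε'))
      · have h2 := ENNReal.ofReal_le_ofReal hmain
        rw [ENNReal.ofReal_mul hη0, ENNReal.ofReal_natCast, ENNReal.ofReal_natCast] at h2
        exact h2
      · rw [ENNReal.ofReal_of_nonpos (le_of_lt (not_le.mp hη0)), zero_mul]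
        exact bot_le
    exact h1.trans hvol
  · -- distances
    intro c hc c' hc' hne
    rw [Finset.mem_image] at hc hc'
    obtain ⟨p, hp, rfl⟩ := hc
    obtain ⟨p', hp', rfl⟩ := hc'
    have hpp : p ≠ p' := fun h => hne (by rw [h])
    have h1 := hap p hp p' hp' hpp
    rw [← sq_norm_toE_sub]
    have h2 : (√(n : ℝ) * (a⁻¹ - 1)) ^ 2 ≤ ‖toE (rc p) - toE (rc p')‖ ^ 2 :=
      pow_le_pow_left₀ (mul_nonneg hsn.le (by linarith)) h1 2
    refine le_trans ?_ h2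
    rw [mul_pow, Real.sq_sqrt hn'.le, mul_comm δ]
    exact mul_le_mul_of_nonneg_left haδ hn'.le
  · -- noise
    rw [hcard, Finset.sum_image hinj]
    refine le_trans (Finset.sum_le_sum fun c hc => ?_) hQ2
    rw [sum_pairs (fun x y => if rc c - up x + up y ∈ T then 0 else ∏ k, m1 s (y k) (x k))]
    refine Finset.sum_le_sum fun w _ => ?_
    have hw : (if rc c - up (fun k => (w k).1) + up (fun k => (w k).2) ∈ T then 0 else
      ∏ k, m1 s ((w k).2) ((w k).1)) ≤ (if F (c + act Q (zv a w)) ≤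
      sm (fun u => F (c + √(n : ℝ) • u)) + e2 + Λ * (2 * ρ * √(n : ℝ)) then 0 else wt s w) := by
      by_cases hcond : F (c + act Q (zv a w)) ≤
        sm (fun u => F (c + √(n : ℝ) • u)) + e2 + Λ * (2 * ρ * √(n : ℝ))
      · rw [if_pos (hmem c hc w hcond), if_pos hcond]
      · rw [if_neg hcond]
        split_ifs
        · exact wt_nonneg s w
        · exact le_refl _
    exact hw

end Pool.Agent.H712.NP
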