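import Pool.Agent.H712.NP.RnB

/-! The noise inequality for level sets of a Lipschitz function. -/

set_option linter.unusedSectionVars false

open Finset MeasureTheory Filter

namespace Pool.Agent.H712.NP

open Pool.Agent.H390R2.LP Pool.Agent.H785R2.LP Pool.Agent.H712.NI

theorem level {K ε : ℝ} (hK : 0 ≤ K) (hε : 0 < ε) : ∃ n0 : ℕ, ∀ n ≥ n0,
    ∀ (C : Finset (EuclideanSpace ℝ (Fin n))) (F : EuclideanSpace ℝ (Fin n) → ℝ) (B : ℝ),
    (∀ x y, |F x - F y| ≤ K * √n * ‖x - y‖) →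
    (∀ c ∈ C, ∀ c' ∈ C, c ≠ c' → √n ≤ ‖c - c'‖) →
    (∀ c ∈ C, sm (fun u => F (c + √(n : ℝ) • u)) ≤ B) →
    (C.card : ENNReal) ≤ ENNReal.ofReal (Real.exp (n * (ε - Real.log Real.pi))) *
      volume {x : EuclideanSpace ℝ (Fin n) | F x ≤ B + ε * n} := by
  set ρ : ℝ := min (1 / 4) (ε / (8 * (K + 1))) with hρd
  have hρ0 : 0 < ρ := lt_min (by norm_num) (by positivity)
  have hρ4 : ρ ≤ 1 / 4 := min_le_left _ _
  have hρK : ρ * (K + 1) ≤ ε / 8 := by
    have h1 : ρ ≤ ε / (8 * (K + 1)) := min_le_right _ _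
    have h2 : ε / (8 * (K + 1)) * (K + 1) = ε / 8 := by field_simp
    rw [← h2]
    exact mul_le_mul_of_nonneg_right h1 (by linarith)
  have hρε : ρ ≤ ε / 8 := by nlinarith
  have hρK' : ρ * K ≤ ε / 8 := by nlinarith
  obtain ⟨Ω, _, _, q, s, hR, hs⟩ := good_site (η := ε / 8) (by positivity) (4 / ρ ^ 2)
  set e0 := s.E (fun (_ : Unit) (x : Fin q) => (x : ℝ)) with he0
  have hpos : 0 < e0 := lt_of_lt_of_le (by positivity) hR
  set se := √e0 with hse
  have hsepos : 0 < se := Real.sqrt_pos.mpr hpos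
  have hse2 : se ^ 2 = e0 := Real.sq_sqrt hpos.le
  have hse1 : 2 / ρ ≤ se := by
    refine Real.le_sqrt_of_sq_le ?_
    rw [div_pow]
    norm_num
    exact hR
  have hone : 1 ≤ se * (ρ / 2) := by
    have := mul_le_mul_of_nonneg_right hse1 (show 0 ≤ ρ / 2 by positivity)
    have h2 : 2 / ρ * (ρ / 2) = 1 := by field_simp
    linarith
  set δ := e0 * (1 + ρ) with hδ
  have hδlt : e0 < δ := by rw [hδ]; nlinarith
  have hδpos : 0 < δ := hpos.trans hδlt
  set b := √δ + 1 with hb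
  have hbpos : 0 < b := by positivity
  have hb1 : se ≤ b := by
    have : se ≤ √δ := Real.sqrt_le_sqrt hδlt.le
    rw [hb]; linarith
  have hb2 : b ≤ se * (1 + ρ) := by
    have h1 : √δ = se * √(1 + ρ) := by rw [hδ, Real.sqrt_mul hpos.le]
    have h2 : √(1 + ρ) ≤ 1 + ρ / 2 := by
      refine Real.sqrt_le_iff.mpr ⟨by positivity, ?_⟩
      nlinarith [sq_nonneg ρ]
    have h3 : se * √(1 + ρ) ≤ se * (1 + ρ / 2) := mul_le_mul_of_nonneg_left h2 hsepos.le
    rw [hb, h1]
    linarith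
  set a := b⁻¹ with ha
  have hapos : 0 < a := inv_pos.mpr hbpos
  have hainv : a⁻¹ = b := by rw [ha, inv_inv]
  have ha1 : a * se ≤ 1 := by
    rw [ha, inv_mul_le_iff₀ hbpos, mul_one]; exact hb1
  have ha2 : 1 - ρ ≤ a * se := by
    have h1 : (1 - ρ) * b ≤ se := by
      calc (1 - ρ) * b ≤ (1 - ρ) * (se * (1 + ρ)) :=
            mul_le_mul_of_nonneg_left hb2 (by linarith)
        _ = se * (1 - ρ ^ 2) := by ring
        _ ≤ se := by nlinarith [sq_nonneg ρ]
    rw [ha, inv_mul_eq_div, le_div_iff₀ hbpos]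
    exact h1
  have haρ : a ≤ ρ := by
    have h1 : 1 ≤ b * ρ := by
      have : se * (ρ / 2) ≤ b * ρ := by nlinarith
      linarith
    rw [ha, inv_le_iff_one_le_mul₀ hbpos]
    rw [mul_comm]; exact h1
  have haδ : δ ≤ (a⁻¹ - 1) ^ 2 := by
    rw [hainv, hb, add_sub_cancel_right, Real.sq_sqrt hδpos.le]
  have ha3 : 1 < a⁻¹ := by
    rw [hainv, hb]
    have : 0 < √δ := Real.sqrt_pos.mpr hδpos
    linarith
  have hlogb : Real.log b ≤ 1 / 2 * Real.log e0 + ρ := by
    have h1 : Real.log b ≤ Real.log (se * (1 + ρ)) := Real.log_le_log hbpos hb2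
    rw [Real.log_mul hsepos.ne' (by positivity), hse, Real.log_sqrt hpos.le] at h1
    have h2 := Real.log_le_sub_one_of_pos (show 0 < 1 + ρ by positivity)
    linarith
  obtain ⟨η, hη, n1, H⟩ := trans s (δ := δ) hδlt (ε := ε / 8) (by positivity)
  -- asymptotics
  have t1 : ∀ᶠ n : ℕ in atTop, lvar s / (n * (ρ * e0) ^ 2) < η / 2 := by
    have : Tendsto (fun n : ℕ => lvar s / (n * (ρ * e0) ^ 2)) atTop (nhds 0) := by
      refine Tendsto.const_div_atTop ?_ (lvar s)
      exact tendsto_natCast_atTop_atTop.atTop_mul_const (by positivity)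
    exact this.eventually_lt_const (by positivity)
  have t2 : ∀ᶠ n : ℕ in atTop, (8 * Real.pi * K / ε) / √n < η / 2 := by
    have : Tendsto (fun n : ℕ => (8 * Real.pi * K / ε) / √(n : ℝ)) atTop (nhds 0) := by
      refine Tendsto.const_div_atTop ?_ _
      exact Real.tendsto_sqrt_atTop.comp tendsto_natCast_atTop_atTop
    exact this.eventually_lt_const (by positivity)
  have t3 : ∀ᶠ n : ℕ in atTop, η⁻¹ ≤ Real.exp (n * (ε / 4)) := by
    have h1 : Tendsto (fun n : ℕ => Real.exp (n * (ε / 4))) atTop atTop :=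
      Real.tendsto_exp_atTop.comp
        (tendsto_natCast_atTop_atTop.atTop_mul_const (by positivity))
    exact h1.eventually_ge_atTop _
  obtain ⟨n2, hn2⟩ := eventually_atTop.mp (t1.and (t2.and t3))
  refine ⟨max (max n1 n2) 2, fun n hn C F B hF hd hB => ?_⟩
  have hnn1 : n1 ≤ n := le_trans (le_trans (le_max_left _ _) (le_max_left _ _)) hn
  have hnn2 : n2 ≤ n := le_trans (le_trans (le_max_right _ _) (le_max_left _ _)) hn
  have hn2' : 2 ≤ n := le_trans (le_max_right _ _) hn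
  obtain ⟨u1, u2, u3⟩ := hn2 n hnn2
  rcases C.eq_empty_or_nonempty with hC | hC
  · rw [hC, Finset.card_empty, Nat.cast_zero]
    exact bot_le
  obtain ⟨m, hm⟩ : ∃ m, n = m + 2 := ⟨n - 2, by omega⟩
  have hnpos : (0 : ℝ) < n := by
    have : (2 : ℝ) ≤ n := by exact_mod_cast hn2'
    linarith
  have hsn : 0 < √(n : ℝ) := Real.sqrt_pos.mpr hnpos
  have hss : √(n : ℝ) * √n = n := Real.mul_self_sqrt hnpos.le
  have hηbd : lvar s / (n * (ρ * e0) ^ 2) +
      Real.pi * (K * √n * √n / √(m + 1)) / (ε / 4 * n) ≤ η := by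
    have h1 : Real.pi * (K * √n * √n / √(m + 1)) / (ε / 4 * n) ≤ (8 * Real.pi * K / ε) / √n := by
      have h2 : √(n : ℝ) ≤ 2 * √(m + 1) := by
        have h3 : (2 : ℝ) * √(m + 1) = √(4 * (m + 1)) := by
          rw [Real.sqrt_mul (by norm_num)]
          congr 1
          rw [show (4 : ℝ) = 2 ^ 2 by norm_num, Real.sqrt_sq (by norm_num)]
        rw [h3]
        refine Real.sqrt_le_sqrt ?_
        rw [hm]; push_cast
        have : (0 : ℝ) ≤ m := Nat.cast_nonneg m
        linarith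
      have hmp : 0 < √((m : ℝ) + 1) := Real.sqrt_pos.mpr (by positivity)
      have h4 : Real.pi * (K * √n * √n / √(m + 1)) / (ε / 4 * n) =
          (4 * Real.pi * K / ε) / √(m + 1) := by
        rw [mul_assoc K, hss]
        field_simp
      rw [h4, div_le_div_iff₀ hmp hsn]
      have h5 : 0 ≤ 4 * Real.pi * K / ε := by positivity
      have h6 : 8 * Real.pi * K / ε = 2 * (4 * Real.pi * K / ε) := by ring
      rw [h6]
      nlinarith
    linarith
  have hmain := one_scale hm s (H n hnn1) he0 hpos hρ0 hρ4 hapos ha1 ha2 haδ ha3 hK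
    (e2 := ε / 4 * n) (by positivity) hηbd C hC F B hF hd hB
  set vol := volume {x : EuclideanSpace ℝ (Fin n) | F x ≤ B + ε * n} with hvol
  have hsub : volume {x : EuclideanSpace ℝ (Fin n) | F x ≤ B + ε / 4 * n +
      K * √n * (2 * ρ * √n) + K * √n * (a * √n) + K * √n * (a * √n)} ≤ vol := by
    refine measure_mono fun x hx => ?_
    simp only [Set.mem_setOf_eq] at hx ⊢
    refine hx.trans ?_
    have h1 : K * √n * (2 * ρ * √n) = 2 * (ρ * K) * n := by
      calc _ = 2 * (ρ * K) * (√n * √n) := by ring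
        _ = _ := by rw [hss]
    have h2 : K * √n * (a * √n) = a * K * n := by
      calc _ = a * K * (√n * √n) := by ring
        _ = _ := by rw [hss]
    rw [h1, h2]
    have h3 : a * K ≤ ε / 8 := (mul_le_mul_of_nonneg_right haρ hK).trans hρK'
    nlinarith
  have h1 := hmain.trans (mul_le_mul_right hsub _)
  -- divide
  set A := η * Real.exp (n * (s.h - s.S - ε / 8)) with hA
  have hApos : 0 < A := by positivity
  have hfac : A⁻¹ * (a⁻¹) ^ n ≤ Real.exp (n * (ε - Real.log Real.pi)) := by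
    have h2 : (a⁻¹) ^ n ≤ Real.exp (n * (1 / 2 * Real.log e0 + ρ)) := by
      rw [hainv, Real.exp_nat_mul]
      refine pow_le_pow_left₀ hbpos.le ?_ n
      rw [← Real.exp_log hbpos]
      exact Real.exp_le_exp.mpr hlogb
    have h3 : A⁻¹ = η⁻¹ * Real.exp (-(n * (s.h - s.S - ε / 8))) := by
      rw [hA, mul_inv, Real.exp_neg]
    rw [h3]
    calc η⁻¹ * Real.exp (-(n * (s.h - s.S - ε / 8))) * (a⁻¹) ^ n
        ≤ Real.exp (n * (ε / 4)) * Real.exp (-(n * (s.h - s.S - ε / 8))) *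
          Real.exp (n * (1 / 2 * Real.log e0 + ρ)) := by
          refine mul_le_mul ?_ h2 (by positivity) (by positivity)
          exact mul_le_mul_of_nonneg_right u3 (Real.exp_pos _).le
      _ = Real.exp (n * (ε / 4 - (s.h - s.S - ε / 8) + (1 / 2 * Real.log e0 + ρ))) := by
          rw [← Real.exp_add, ← Real.exp_add]; congr 1; ring
      _ ≤ _ := by
          refine Real.exp_le_exp.mpr (mul_le_mul_of_nonneg_left ?_ hnpos.le)
          linarith
  have h4 : (C.card : ENNReal) ≤ ENNReal.ofReal (A⁻¹) *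
      (ENNReal.ofReal ((a⁻¹) ^ n) * vol) := by
    have h5 := mul_le_mul_right h1 (ENNReal.ofReal (A⁻¹))
    rw [← mul_assoc, ← ENNReal.ofReal_mul (inv_pos.mpr hApos).le, inv_mul_cancel₀ hApos.ne',
      ENNReal.ofReal_one, one_mul] at h5
    exact h5
  refine h4.trans ?_
  rw [← mul_assoc, ← ENNReal.ofReal_mul (inv_pos.mpr hApos).le]
  exact mul_le_mul_left (ENNReal.ofReal_le_ofReal hfac) _

end Pool.Agent.H712.NP
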