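import Pool.Agent.H712.NP.Fun

/-! The functional noise inequality for any minimal distance. -/

set_option linter.unusedSectionVars false

open Finset MeasureTheory Filter

namespace Pool.Agent.H712.NP

/-- mean of `g` over the sphere of radius `D` about `c` -/
noncomputable def sphMean {n : ℕ} (g : EuclideanSpace ℝ (Fin n) → ℝ)
    (c : EuclideanSpace ℝ (Fin n)) (D : ℝ) : ℝ :=
  ⨍ u : Metric.sphere (0 : EuclideanSpace ℝ (Fin n)) 1, g (c + D • (u : EuclideanSpace ℝ (Fin n)))
    ∂(volume : Measure (EuclideanSpace ℝ (Fin n))).toSphere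

lemma sphMean_neg {n : ℕ} (g : EuclideanSpace ℝ (Fin n) → ℝ) (c : EuclideanSpace ℝ (Fin n))
    (D : ℝ) : sphMean (fun x => -g x) c D = -sphMean g c D := by
  unfold sphMean
  rw [average_eq, average_eq, integral_neg, smul_neg]

lemma lint_smul {n : ℕ} {t : ℝ} (ht : 0 < t) {G : EuclideanSpace ℝ (Fin n) → ENNReal}
    (hG : Measurable G) :
    ∫⁻ x, G (t⁻¹ • x) = ENNReal.ofReal (t ^ n) * ∫⁻ x, G x := by
  have h1 := Measure.map_addHaar_smul (volume : Measure (EuclideanSpace ℝ (Fin n)))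
    (inv_pos.mpr ht).ne'
  rw [finrank_euclideanSpace_fin] at h1
  have h2 : ∫⁻ x, G (t⁻¹ • x) = ∫⁻ x, G x ∂(Measure.map (t⁻¹ • ·) volume) := by
    rw [lintegral_map hG (measurable_const_smul _)]
  rw [h2, h1, lintegral_smul_measure]
  congr 2
  rw [inv_pow, inv_inv, abs_of_pos (by positivity)]

theorem functional {K ε : ℝ} (hK : 0 ≤ K) (hε : 0 < ε) : ∃ n0 : ℕ, ∀ n ≥ n0, ∀ D : ℝ, 0 < D →
    ∀ (C : Finset (EuclideanSpace ℝ (Fin n))) (F : EuclideanSpace ℝ (Fin n) → ℝ),
    (∀ x y, |F x - F y| ≤ K * n / D * ‖x - y‖) →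
    (∀ c ∈ C, ∀ c' ∈ C, c ≠ c' → D ≤ ‖c - c'‖) →
    ∑ c ∈ C, ENNReal.ofReal (Real.exp (-sphMean F c D)) ≤
      ENNReal.ofReal ((Real.exp ε * √n / (Real.pi * D)) ^ n) *
      ∫⁻ x, ENNReal.ofReal (Real.exp (-F x)) := by
  classical
  obtain ⟨n0, H⟩ := functional_fin hK hε
  refine ⟨max n0 1, fun n hn D hD C F hF hd => ?_⟩
  have hn0 : n0 ≤ n := le_trans (le_max_left _ _) hn
  have hn1 : 1 ≤ n := le_trans (le_max_right _ _) hn
  have hnpos : (0 : ℝ) < n := by exact_mod_cast hn1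
  have hsn : 0 < √(n : ℝ) := Real.sqrt_pos.mpr hnpos
  have hss : √(n : ℝ) * √n = n := Real.mul_self_sqrt hnpos.le
  set t : ℝ := √n / D with ht
  have htp : 0 < t := by positivity
  have hFc : Continuous F := by
    have hΛ : 0 ≤ K * n / D := by positivity
    have : LipschitzWith ⟨K * n / D, hΛ⟩ F := LipschitzWith.of_dist_le_mul fun x y => by
      rw [Real.dist_eq, dist_eq_norm]; exact hF x y
    exact this.continuous
  have hinj : Set.InjOn (fun c : EuclideanSpace ℝ (Fin n) => t • c) C :=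
    fun a _ b _ h => smul_right_injective _ htp.ne' h
  have h1 := H n hn0 (C.image fun c => t • c) (fun x => F (t⁻¹ • x)) ?_ ?_
  · rw [Finset.sum_image hinj] at h1
    have e1 : ∀ c : EuclideanSpace ℝ (Fin n), sm (fun u => F (t⁻¹ • (t • c + √(n : ℝ) • u))) =
        sphMean F c D := by
      intro c
      unfold sm sphMean
      congr 1
      funext u
      show F (t⁻¹ • (t • c + √(n : ℝ) • (u : EuclideanSpace ℝ (Fin n)))) =
        F (c + D • (u : EuclideanSpace ℝ (Fin n)))
      have e2 : t⁻¹ * √(n : ℝ) = D := by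
        rw [ht, inv_div]
        field_simp
      rw [smul_add, smul_smul, inv_mul_cancel₀ htp.ne', one_smul, smul_smul, e2]
    simp only [e1] at h1
    refine h1.trans ?_
    rw [lint_smul (G := fun x => ENNReal.ofReal (Real.exp (-F x))) htp
      (ENNReal.measurable_ofReal.comp (Real.measurable_exp.comp hFc.measurable.neg)),
      ← mul_assoc]
    refine mul_le_mul_left ?_ _
    rw [← ENNReal.ofReal_mul (Real.exp_pos _).le]
    refine ENNReal.ofReal_le_ofReal (le_of_eq ?_)
    rw [mul_comm (n : ℝ), ← mul_comm (n : ℝ), Real.exp_nat_mul, ← mul_pow]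
    congr 1
    rw [Real.exp_sub, Real.exp_log Real.pi_pos, ht]
    field_simp
  · intro x y
    refine (hF _ _).trans (le_of_eq ?_)
    rw [← smul_sub, norm_smul, Real.norm_eq_abs, abs_of_pos (inv_pos.mpr htp), ht, inv_div]
    have h5 : (n : ℝ) / √n = √n := Real.div_sqrt
    calc K * n / D * (D / √n * ‖x - y‖) = K * (n / √n) * ‖x - y‖ := by field_simp
      _ = _ := by rw [h5]
  · intro c hc c' hc' hne
    rw [Finset.mem_image] at hc hc'
    obtain ⟨p, hp, rfl⟩ := hc
    obtain ⟨p', hp', rfl⟩ := hc'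
    have hpp : p ≠ p' := fun h => hne (by rw [h])
    have h2 := hd p hp p' hp' hpp
    rw [← smul_sub, norm_smul, Real.norm_eq_abs, abs_of_pos htp, ht]
    have h3 : √(n : ℝ) = √n / D * D := by field_simp
    rw [h3]
    have h4 : 0 ≤ √(n : ℝ) / D := by positivity
    calc √(n : ℝ) / D * D ≤ √n / D * ‖p - p'‖ := mul_le_mul_of_nonneg_left h2 h4
      _ = _ := by rw [← h3]

end Pool.Agent.H712.NP
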