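import Pool.Agent.H712.NP.Light
import Pool.Agent.H712.NI.GSet

/-! Sums over the positions of a site; typical eigenvectors of a product. -/

open Finset

namespace Pool.Agent.H712.NP

open Pool.Agent.H390R2.LP Pool.Agent.H235R2.QLP Pool.Agent.H712.NI

variable {Ω X : Type} [Fintype Ω] [DecidableEq Ω] [Fintype X] [DecidableEq X]

lemma lab_sum (s : Site Ω X) (φ : X → ℝ) : ∑ c, φ (s.lab c) * s.g c = ∑ x, φ x * s.P x := by
  rw [← Finset.sum_fiberwise univ s.lab]
  refine Finset.sum_congr rfl fun x _ => ?_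
  unfold Site.P
  rw [Finset.mul_sum]
  refine Finset.sum_congr rfl fun c hc => ?_
  rw [(Finset.mem_filter.mp hc).2]

lemma pos_sum (s : Site Ω X) (a : X → ℝ) :
    ∑ ω, a (s.pos ω) ^ 2 * ∑ j, s.lam j * s.u j ω ^ 2 = ∑ x, a x ^ 2 * s.P x := by
  rw [← lab_sum s (fun x => a x ^ 2), ← tb_sum s a]
  have h1 : ∀ ω, a (s.pos ω) ^ 2 * ∑ j, s.lam j * s.u j ω ^ 2 =
      ∑ m, tb s a m ^ 2 * te s a m ω ^ 2 := fun ω => (te_dens s a ω).symm
  simp only [h1]
  rw [Finset.sum_comm]
  refine Finset.sum_congr rfl fun m _ => ?_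
  rw [← Finset.mul_sum]
  have h2 := te_orth s a m m
  rw [if_pos rfl] at h2
  have h3 : ∑ ω, te s a m ω ^ 2 = 1 := by
    rw [← h2]; exact Finset.sum_congr rfl fun _ _ => sq _
  rw [h3, mul_one]

lemma P_nonneg (s : Site Ω X) (x : X) : 0 ≤ s.P x :=
  Finset.sum_nonneg fun c _ => Pool.Agent.H703R2.LP.site_g_nonneg s c

lemma P_sum (s : Site Ω X) : ∑ x, s.P x = 1 := by
  have h := lab_sum s (fun _ => 1)
  simp only [one_mul] at h
  rw [← h, Pool.Agent.H703R2.LP.site_g_sum]

/-- the mass of the eigenvectors at `T` -/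
lemma um_sum (s : Site Ω X) (T : Finset X) : ∑ j, s.lam j * um s T j = ∑ x ∈ T, s.P x := by
  have h := pos_sum s (fun x => if x ∈ T then 1 else 0)
  have e1 : ∀ x, (if x ∈ T then (1 : ℝ) else 0) ^ 2 = if x ∈ T then 1 else 0 := by
    intro x; split_ifs <;> norm_num
  simp only [e1, ite_mul, one_mul, zero_mul] at h
  rw [← Finset.sum_filter (s := (univ : Finset X))] at h
  have e2 : univ.filter (fun x => x ∈ T) = T := by ext; simp
  rw [e2] at h
  rw [← h]
  unfold um
  simp only [Finset.mul_sum]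
  rw [Finset.sum_comm]
  refine Finset.sum_congr rfl fun ω _ => ?_
  by_cases hT : s.pos ω ∈ T
  · simp only [if_pos hT]
  · simp only [if_neg hT, mul_zero, Finset.sum_const_zero]

lemma um_nonneg (s : Site Ω X) (T : Finset X) (j : Ω) : 0 ≤ um s T j :=
  Finset.sum_nonneg fun ω _ => by split_ifs <;> positivity

/-- the mass of eigenvectors with large eigenvalues -/
lemma um_heavy (s : Site Ω X) (T : Finset X) (J : Finset Ω) {t : ℝ}
    (ht : 0 < t) (hJ : ∀ j ∈ J, t⁻¹ ≤ s.lam j) : ∑ j ∈ J, um s T j ≤ t * ∑ x ∈ T, s.P x := by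
  rw [← um_sum s T, Finset.mul_sum]
  calc ∑ j ∈ J, um s T j ≤ ∑ j ∈ J, t * (s.lam j * um s T j) := by
        refine Finset.sum_le_sum fun j hj => ?_
        have h1 := mul_le_mul_of_nonneg_left (hJ j hj) ht.le
        rw [mul_inv_cancel₀ ht.ne'] at h1
        calc um s T j = 1 * um s T j := (one_mul _).symm
          _ ≤ (t * s.lam j) * um s T j := mul_le_mul_of_nonneg_right h1 (um_nonneg s T j)
          _ = _ := by ring
    _ ≤ ∑ j, t * (s.lam j * um s T j) :=
        Finset.sum_le_sum_of_subset_of_nonneg (Finset.subset_univ _) fun j _ _ =>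
          mul_nonneg ht.le (mul_nonneg (s.lam_nonneg j) (um_nonneg s T j))

lemma psite_P (s : Site Ω X) (n : ℕ) (x : Fin n → X) : (psite s n).P x = ∏ k, s.P (x k) :=
  P_prod (fun _ => s) x

/-- typical eigenvectors -/
noncomputable def typ (s : Site Ω X) (n : ℕ) (ε : ℝ) : Finset (Fin n → Ω) :=
  univ.filter (fun j => ¬ ∏ k, s.lam (j k) < Real.exp (-(n * s.S + n * ε)))

/-- variance of the information of the eigenvalues -/
noncomputable def vl (s : Site Ω X) : ℝ := ∑ o, s.lam o * (-Real.log (s.lam o) -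
        ∑ o', Real.negMulLog (s.lam o')) ^ 2

/-- variance of the information of the labels -/
noncomputable def vg (s : Site Ω X) : ℝ := ∑ o, s.g o * (-Real.log (s.g o) -
        ∑ o', Real.negMulLog (s.g o')) ^ 2

omit [Fintype X] [DecidableEq X] in
lemma typ_compl (s : Site Ω X) {n : ℕ} (hn : 0 < n) {ε : ℝ} (hε : 0 < ε) :
    ∑ j ∈ (typ s n ε)ᶜ, (psite s n).lam j ≤ vl s / (n * ε ^ 2) := by
  have hnR : (0 : ℝ) < n := by exact_mod_cast hn
  have h2 := aep_light (K := Fin n) (fun _ => s.lam) (fun _ => s.lam_nonneg)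
    (fun _ => s.lam_sum) (δ := n * ε) (V := n * vl s) (by positivity) (by
      rw [Finset.sum_const, Finset.card_univ, Fintype.card_fin, nsmul_eq_mul]; rfl)
  have hSe : ∑ _k : Fin n, ∑ o, Real.negMulLog (s.lam o) = n * s.S := by
    rw [Finset.sum_const, Finset.card_univ, Fintype.card_fin, nsmul_eq_mul]; rfl
  rw [hSe] at h2
  have h3 : (typ s n ε)ᶜ = univ.filter (fun j : Fin n → Ω => ∏ k, s.lam (j k) <
      Real.exp (-(n * s.S + n * ε))) := by
    ext j; simp [typ]
  rw [h3]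
  refine h2.trans (le_of_eq ?_)
  field_simp

lemma typ_um (s : Site Ω X) (n : ℕ) (ε : ℝ) (T : Finset (Fin n → X)) :
    ∑ j ∈ typ s n ε, um (psite s n) T j ≤
      Real.exp (n * s.S + n * ε) * ∑ x ∈ T, ∏ k, s.P (x k) := by
  have h := um_heavy (psite s n) T (typ s n ε) (Real.exp_pos (n * s.S + n * ε)) (by
    intro j hj
    rw [typ, Finset.mem_filter] at hj
    rw [← Real.exp_neg]
    exact not_lt.mp hj.2)
  simp only [psite_P] at h
  exact h

omit [Fintype X] [DecidableEq X] in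
lemma lab_heavy (s : Site Ω X) {n : ℕ} (hn : 0 < n) {ε : ℝ} (hε : 0 < ε) :
    ∑ c ∈ univ.filter (fun c => ¬ (psite s n).g c ≤ Real.exp (-(n * s.h - n * ε))),
      (psite s n).g c ≤ vg s / (n * ε ^ 2) := by
  have hnR : (0 : ℝ) < n := by exact_mod_cast hn
  have h2 := aep_heavy (K := Fin n) (fun _ => s.g)
    (fun _ => Pool.Agent.H703R2.LP.site_g_nonneg s)
    (fun _ => Pool.Agent.H703R2.LP.site_g_sum s) (δ := n * ε) (V := n * vg s)
    (by positivity) (by
      rw [Finset.sum_const, Finset.card_univ, Fintype.card_fin, nsmul_eq_mul]; rfl)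
  have hhe : ∑ _k : Fin n, ∑ o, Real.negMulLog (s.g o) = n * s.h := by
    rw [Finset.sum_const, Finset.card_univ, Fintype.card_fin, nsmul_eq_mul]; rfl
  rw [hhe] at h2
  refine le_trans h2 (le_of_eq ?_)
  field_simp

section copies

variable {w : ℕ}

lemma psite_E' (s : Site Ω X) (φ : X → ℝ) :
    (psite s w).E (fun (i : Fin w) (x : Fin w → X) => φ (x i)) =
      w * s.E (fun (_ : Unit) (x : X) => φ x) := by
  unfold Site.E
  have h1 : ∀ i : Fin w, (∑ a, (psite s w).lam a * ∑ ω, (psite s w).u a ω ^ 2 *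
      φ ((psite s w).pos ω i) ^ 2 -
      ∑ a, ∑ b, √((psite s w).lam a * (psite s w).lam b) *
        (∑ ω, (psite s w).u a ω * φ ((psite s w).pos ω i) * (psite s w).u b ω) ^ 2) =
      (∑ a, s.lam a * ∑ ω, s.u a ω ^ 2 * φ (s.pos ω) ^ 2
        - ∑ a, ∑ b, √(s.lam a * s.lam b) * (∑ ω, s.u a ω * φ (s.pos ω) * s.u b ω) ^ 2) := by
    intro i
    congr 1
    · exact moment_prod (fun _ : Fin w => s) (fun o => φ (s.pos o) ^ 2) i
    · exact overlap_prod (fun _ : Fin w => s) (fun o => φ (s.pos o)) i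
  simp only [h1]
  rw [Finset.sum_const, Finset.card_univ, Fintype.card_fin, nsmul_eq_mul]
  simp
  ring

lemma psite_Pp' (s : Site Ω X) (a : (Fin w → X) → ℝ) (x : Fin w → X) :
    Pp (psite s w) a x = ∑ y, a y ^ 2 * ∏ k, m1 s (x k) (y k) := by
  rw [Pp_eq]
  have h1 : ∀ ω ω' : Fin w → Ω, (if (psite s w).pos ω = x then
      a ((psite s w).pos ω') ^ 2 * rk (psite s w) ω ω' ^ 2 else 0) =
      ∑ y, a y ^ 2 * (if (psite s w).pos ω = x ∧ (psite s w).pos ω' = y then
        rk (psite s w) ω ω' ^ 2 else 0) := by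
    intro ω ω'
    by_cases h : (psite s w).pos ω = x
    · simp [h]
    · simp [h]
  simp only [h1]
  have h2 : ∑ ω : Fin w → Ω, ∑ ω' : Fin w → Ω, ∑ y, a y ^ 2 *
      (if (psite s w).pos ω = x ∧ (psite s w).pos ω' = y then
        rk (psite s w) ω ω' ^ 2 else 0) =
      ∑ y, a y ^ 2 * ∑ ω : Fin w → Ω, ∑ ω' : Fin w → Ω,
        (if (psite s w).pos ω = x ∧ (psite s w).pos ω' = y then
        rk (psite s w) ω ω' ^ 2 else 0) := by
    simp only [Finset.mul_sum]
    have e1 : ∀ ω : Fin w → Ω, ∑ ω' : Fin w → Ω, ∑ y, a y ^ 2 *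
      (if (psite s w).pos ω = x ∧ (psite s w).pos ω' = y then
        rk (psite s w) ω ω' ^ 2 else 0) = ∑ y, ∑ ω' : Fin w → Ω, a y ^ 2 *
      (if (psite s w).pos ω = x ∧ (psite s w).pos ω' = y then
        rk (psite s w) ω ω' ^ 2 else 0) := fun ω => Finset.sum_comm
    simp only [e1]
    rw [Finset.sum_comm]
  rw [h2]
  refine Finset.sum_congr rfl fun y _ => ?_
  congr 1
  have h3 : ∀ ω : Fin w → Ω, ∑ ω' : Fin w → Ω,
      (if (psite s w).pos ω = x ∧ (psite s w).pos ω' = y then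
        rk (psite s w) ω ω' ^ 2 else 0) =
      if (psite s w).pos ω = x then
        ∏ k, ∑ o', (if s.pos o' = y k then rk s (ω k) o' ^ 2 else 0) else 0 := by
    intro ω
    by_cases h : (psite s w).pos ω = x
    · simp only [h, true_and, if_true]
      rw [← fiber_prod s (fun k o' => rk s (ω k) o' ^ 2) y]
      refine Finset.sum_congr rfl fun ω' _ => ?_
      rw [psite_rk, Finset.prod_pow]
    · simp [h]
  simp only [h3]
  rw [fiber_prod s (fun k o => ∑ o', (if s.pos o' = y k then rk s o o' ^ 2 else 0)) x]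
  refine Finset.prod_congr rfl fun k _ => ?_
  unfold m1
  refine Finset.sum_congr rfl fun o _ => ?_
  by_cases h : s.pos o = x k
  · simp [h]
  · simp [h]

end copies

end Pool.Agent.H712.NP
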