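import Pool.Agent.H712.NP.Coup

/-! The main inequality for the translates of a finite set of integer points. -/

open Finset

namespace Pool.Agent.H712.NP

open Pool.Agent.H390R2.LP Pool.Agent.H235R2.QLP Pool.Agent.H712.NI

variable {Ω : Type} [Fintype Ω] [DecidableEq Ω] {q : ℕ}

/-- a word of grid coordinates as an integer point -/
def up {n q : ℕ} (x : Fin n → Fin q) : Fin n → ℤ := fun k => ((x k : ℕ) : ℤ)

lemma up_inj {n q : ℕ} {x y : Fin n → Fin q} (h : up x = up y) : x = y := by
  funext k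
  have := congrFun h k
  unfold up at this
  exact Fin.ext (by exact_mod_cast this)

/-- the translation vectors -/
noncomputable def tv {n : ℕ} (q : ℕ) (C : Finset (Fin n → ℤ)) : Finset (Fin n → ℤ) :=
  (C ×ˢ (univ : Finset (Fin n → Fin q))).image fun p => p.1 - up p.2

lemma tv_sum {n : ℕ} (C : Finset (Fin n → ℤ)) (x : Fin n → Fin q) (G : (Fin n → ℤ) → ℝ) :
    ∑ v : {v // v ∈ tv q C}, (if v.1 + up x ∈ C then G v.1 else 0) = ∑ c ∈ C, G (c - up x) := by
  classical
  rw [Finset.sum_coe_sort (tv q C) (fun v => if v + up x ∈ C then G v else 0),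
    ← Finset.sum_filter]
  refine Finset.sum_bij' (fun v _ => v + up x) (fun c _ => c - up x) ?_ ?_ ?_ ?_ ?_
  · intro v hv
    exact (Finset.mem_filter.mp hv).2
  · intro c hc
    rw [Finset.mem_filter]
    refine ⟨?_, by rw [sub_add_cancel]; exact hc⟩
    unfold tv
    rw [Finset.mem_image]
    exact ⟨(c, x), by simp [hc], rfl⟩
  · intro v _; simp
  · intro c _; simp
  · intro v _; simp

theorem trans (s : Site Ω (Fin q)) {δ : ℝ}
    (he : s.E (fun (_ : Unit) (x : Fin q) => (x : ℝ)) < δ) {ε : ℝ} (hε : 0 < ε) :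
    ∃ η : ℝ, 0 < η ∧ ∃ n0 : ℕ, ∀ n ≥ n0, ∀ C T : Finset (Fin n → ℤ), C.Nonempty →
      (∀ c ∈ C, ∀ c' ∈ C, c ≠ c' → δ * n ≤ ∑ k, ((c k : ℝ) - c' k) ^ 2) →
      ∑ c ∈ C, ∑ x : Fin n → Fin q, ∑ y : Fin n → Fin q,
        (if c - up x + up y ∈ T then 0 else ∏ k, m1 s (y k) (x k)) ≤ η * C.card →
      η * Real.exp (n * (s.h - s.S - ε)) * C.card ≤ T.card := by
  classical
  obtain ⟨η, hη, n0, H⟩ := core s (fun x : Fin q => (x : ℝ)) he hε
  refine ⟨η, hη, n0, fun n hn C T hC hd hf => ?_⟩
  have hc : 0 < (C.card : ℝ) := by exact_mod_cast hC.card_pos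
  set S : {v // v ∈ tv q C} → Finset (Fin n → Fin q) := fun v =>
    univ.filter fun x => v.1 + up x ∈ C with hS
  set T' : {v // v ∈ tv q C} → Finset (Fin n → Fin q) := fun v =>
    univ.filter fun x => v.1 + up x ∈ T with hT'
  have hmS : ∀ v x, x ∈ S v ↔ v.1 + up x ∈ C := fun v x => by simp [hS]
  have hmT : ∀ v x, x ∈ T' v ↔ v.1 + up x ∈ T := fun v x => by simp [hT']
  have hone : ∑ x : Fin n → Fin q, ∏ k, s.P (x k) = 1 := by
    have h := P_sum (psite s n)
    simp only [psite_P] at h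
    exact h
  have key := H n hn {v // v ∈ tv q C} S T' (fun _ => (C.card : ℝ)⁻¹)
    (fun _ => inv_nonneg.mpr hc.le) ?_ ?_ ?_ ?_
  · -- conclusion
    have h1 : ∑ v, (C.card : ℝ)⁻¹ * ∑ y ∈ T' v, ∏ k, s.P (y k) ≤ (C.card : ℝ)⁻¹ * T.card := by
      rw [← Finset.mul_sum]
      refine mul_le_mul_of_nonneg_left ?_ (inv_nonneg.mpr hc.le)
      have e1 : ∀ v, ∑ y ∈ T' v, ∏ k, s.P (y k) =
          ∑ y, (if v.1 + up y ∈ T then ∏ k, s.P (y k) else 0) := by
        intro v
        rw [hT', Finset.sum_filter]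
      simp only [e1]
      rw [Finset.sum_comm]
      calc _ ≤ ∑ y : Fin n → Fin q, (T.card : ℝ) * ∏ k, s.P (y k) := by
            refine Finset.sum_le_sum fun y _ => ?_
            rw [Finset.sum_coe_sort (tv q C) (fun v => if v + up y ∈ T then ∏ k, s.P (y k) else 0),
              ← Finset.sum_filter, Finset.sum_const, nsmul_eq_mul]
            refine mul_le_mul_of_nonneg_right ?_ (Finset.prod_nonneg fun k _ => P_nonneg s _)
            have : ((tv q C).filter fun v => v + up y ∈ T).card ≤ T.card := by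
              refine Finset.card_le_card_of_injOn (fun v => v + up y) ?_ ?_
              · intro v hv
                exact (Finset.mem_filter.mp hv).2
              · intro v _ w _ h
                exact add_right_cancel h
            exact_mod_cast this
        _ = T.card := by rw [← Finset.mul_sum, hone, mul_one]
    have h2 := key.trans h1
    rw [inv_mul_eq_div, le_div_iff₀ hc] at h2
    exact h2
  · -- covering
    intro x
    have e1 : ∀ v, (if x ∈ S v then (C.card : ℝ)⁻¹ else 0) =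
        if v.1 + up x ∈ C then (C.card : ℝ)⁻¹ else 0 := by
      intro v
      simp only [hmS]
    simp only [e1]
    rw [tv_sum C x (fun _ => (C.card : ℝ)⁻¹), Finset.sum_const, nsmul_eq_mul,
      mul_inv_cancel₀ hc.ne']
  · -- distances
    intro v x hx y hy hxy
    rw [hmS] at hx hy
    have hne : v.1 + up x ≠ v.1 + up y := fun h => hxy (up_inj (add_left_cancel h))
    refine (hd _ hx _ hy hne).trans (le_of_eq ?_)
    refine Finset.sum_congr rfl fun k _ => ?_
    simp only [Pi.add_apply, up]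
    push_cast
    ring
  · -- mass
    rw [← Finset.mul_sum]
    have e1 : ∀ v, ∑ x ∈ S v, ∏ k, s.P (x k) =
        ∑ x, (if v.1 + up x ∈ C then ∏ k, s.P (x k) else 0) := by
      intro v
      rw [hS, Finset.sum_filter]
    simp only [e1]
    rw [Finset.sum_comm]
    have e2 : ∀ x : Fin n → Fin q, ∑ v : {v // v ∈ tv q C},
        (if v.1 + up x ∈ C then ∏ k, s.P (x k) else 0) = C.card * ∏ k, s.P (x k) := by
      intro x
      rw [tv_sum C x (fun _ => ∏ k, s.P (x k)), Finset.sum_const, nsmul_eq_mul]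
    simp only [e2]
    rw [← Finset.mul_sum, hone, mul_one, inv_mul_cancel₀ hc.ne']
    linarith
  · -- noise
    rw [← Finset.mul_sum, inv_mul_eq_div, div_le_iff₀ hc]
    refine le_trans (le_of_eq ?_) hf
    have e1 : ∀ v, ∑ x ∈ S v, ∑ y ∈ (T' v)ᶜ, ∏ k, m1 s (y k) (x k) =
        ∑ x, (if v.1 + up x ∈ C then
          ∑ y : Fin n → Fin q, (if v.1 + up y ∈ T then 0 else ∏ k, m1 s (y k) (x k)) else 0) := by
      intro v
      rw [hS, Finset.sum_filter]
      refine Finset.sum_congr rfl fun x _ => ?_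
      split_ifs
      · have e3 : ∀ y : Fin n → Fin q, (if v.1 + up y ∈ T then 0 else ∏ k, m1 s (y k) (x k)) =
            if ¬ v.1 + up y ∈ T then ∏ k, m1 s (y k) (x k) else 0 := fun y => by
          by_cases h : v.1 + up y ∈ T <;> simp [h]
        simp only [e3]
        rw [← Finset.sum_filter]
        refine Finset.sum_congr ?_ fun _ _ => rfl
        ext y
        simp [hmT]
      · rfl
    simp only [e1]
    rw [Finset.sum_comm]
    have e2 : ∀ x : Fin n → Fin q, ∑ v : {v // v ∈ tv q C}, (if v.1 + up x ∈ C then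
          ∑ y : Fin n → Fin q, (if v.1 + up y ∈ T then 0 else ∏ k, m1 s (y k) (x k)) else 0) =
        ∑ c ∈ C, ∑ y : Fin n → Fin q,
          (if c - up x + up y ∈ T then 0 else ∏ k, m1 s (y k) (x k)) := fun x =>
      tv_sum C x (fun v => ∑ y : Fin n → Fin q,
        (if v + up y ∈ T then 0 else ∏ k, m1 s (y k) (x k)))
    simp only [e2]
    rw [Finset.sum_comm]

end Pool.Agent.H712.NP
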